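import Pool.Agent.SSX.Targets
import Pool.Agent.SSD.AS3

/-!
# AS4: the killed tuples
-/

set_option autoImplicit false

open scoped BigOperators Classical
open Finset

namespace SSX

open SSC SSD

namespace AS4_

open SSC.ASM_ SSD.AS3_

/-- splitting a sum over a finite set of primes by a set `T` and at `z` -/
theorem split3 {I : Finset ℕ} {S T : Set ℕ} {f X X' : ℕ → ℝ} {z v c : ℝ}
    (hI : ∀ p ∈ I, p ∈ S ∧ 1 ≤ p ∧ (p : ℝ) ≤ v) (hX : ∀ p ∈ S, 0 ≤ X p) (hX' : ∀ p ∈ S, 0 ≤ X' p)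
    (hc : 0 ≤ c)
    (h1 : ∀ p ∈ I, (p : ℝ) ≤ z → p ∈ T → f p ≤ X p + c)
    (h2 : ∀ p ∈ I, (p : ℝ) ≤ z → p ∉ T → f p ≤ X' p + c)
    (h3 : ∀ p ∈ I, z < (p : ℝ) → f p ≤ c) :
    ∑ p ∈ I, f p ≤ (∑ p ∈ (Icc 1 ⌊z⌋₊).filter (fun p : ℕ => p ∈ S ∧ p ∈ T), X p) +
      (∑ p ∈ (Icc 1 ⌊z⌋₊).filter (fun p : ℕ => p ∈ S ∧ p ∉ T), X' p) + NS S z * c +
      c * NS S v := by
  have h := split2 (I := I) (S := S) (f := f) (X := fun p => if p ∈ T then X p else X' p)
    (z := z) (w := z) (v := v) (c₁ := c) (c₂ := c) le_rfl hI ?_ hc hc ?_ ?_ h3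
  · have e : ∑ p ∈ (Icc 1 ⌊z⌋₊).filter (fun p : ℕ => p ∈ S), (if p ∈ T then X p else X' p) =
        (∑ p ∈ (Icc 1 ⌊z⌋₊).filter (fun p : ℕ => p ∈ S ∧ p ∈ T), X p) +
        ∑ p ∈ (Icc 1 ⌊z⌋₊).filter (fun p : ℕ => p ∈ S ∧ p ∉ T), X' p := by
      rw [Finset.sum_ite, Finset.filter_filter, Finset.filter_filter]
    rw [e] at h
    exact h
  · intro p hp
    by_cases hT : p ∈ T
    · simp only [if_pos hT]
      exact hX p hp
    · simp only [if_neg hT]
      exact hX' p hp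
  · intro p hp hpz
    by_cases hT : p ∈ T
    · simp only [if_pos hT]
      exact h1 p hp hpz hT
    · simp only [if_neg hT]
      exact h2 p hp hpz hT
  · intro p _ hzp hpz
    exact absurd hpz (not_le.2 hzp)

end AS4_

open SSC.ASM_ SSD.AS3_ AS4_

theorem p_AS4 (h1 : SSD.T_TU2) (h2 : SSC.T_KIL) (h3 : SSD.T_KI3) : T_AS4 := by
  intro S Kl M ρ ε Y K F hD hY hF hε hkill
  have hD' := hD
  obtain ⟨hM, hρ1, hρ2, hS, -, hBin⟩ := hD
  have hSp : ∀ p ∈ S, p.Prime := fun p hp => (hS p hp).1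
  obtain ⟨hT1, hT2, hT3, -⟩ := h1 S M ρ Y K F hSp hM hρ1 hρ2 hY hF
  have hY1 : (1 : ℝ) ≤ Y := by linarith
  have hT0 : (1 : ℝ) ≤ 2 * Y ^ 2 := by nlinarith
  have hL : 0 ≤ Real.log Y := Real.log_nonneg hY1
  have hc : (0 : ℝ) ≤ (4 * Real.log Y) ^ K := by positivity
  have hY4 : (1 : ℝ) ≤ 4 * Y ^ 4 := by
    have : (1 : ℝ) ≤ Y ^ 4 := one_le_pow₀ hY1
    linarith
  -- the sets of killed numbers
  have hkil := fun (p : ℕ) (hp : p ∈ S) => h2 p {D : ℕ | Adm M ρ D ∧ Kl D p} (hSp p hp) (hS p hp).2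
    (fun D hD => adm_pos hD.1) (hBin p hp) (2 * Y ^ 2) hT0
  have hBex : ∀ p : ℕ, ∃ B : Finset ℕ, (2 : ℝ) ^ B.card ≤ 4 * Y ^ 4 ∧ (p ∈ S →
      2 ≤ NS {D : ℕ | Adm M ρ D ∧ Kl D p} (2 * Y ^ 2) → ∀ D ∈ {D : ℕ | Adm M ρ D ∧ Kl D p},
      (D : ℝ) ≤ 2 * Y ^ 2 → ∀ l : ℕ, l.Prime → 2 < l → l ≠ p → l ∣ D → l ∉ B → SSN.ch p l = 1) := by
    intro p
    by_cases hp : p ∈ S
    · obtain ⟨-, -, B, hB1, hB2⟩ := hkil p hp
      refine ⟨B, ?_, fun _ => hB2⟩
      calc (2 : ℝ) ^ B.card ≤ (2 * Y ^ 2) ^ 2 := hB1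
        _ = 4 * Y ^ 4 := by ring
    · refine ⟨∅, ?_, fun h => absurd h hp⟩
      simpa using hY4
  choose B hB1 hB2 using hBex
  refine ⟨B, hB1, fun T => ?_⟩
  choose! pf hpf using hkill
  -- the fibers
  have hfib : ∀ p ∈ (UG S M ρ Y F).image pf,
      (((UG S M ρ Y F).filter fun t => pf t = p).card : ℝ) ≤
        NS {D : ℕ | Adm M ρ D ∧ Kl D p} (2 * Y ^ 2) * (4 * Real.log Y) ^ K := by
    intro p _
    apply card_tuples hc
    · intro t ht
      obtain ⟨ht1, ht2⟩ := Finset.mem_filter.1 ht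
      obtain ⟨ha, -, hle, -, -⟩ := hT1 t ht1
      have := (hpf t ht1).2.2.1
      rw [ht2] at this
      exact ⟨⟨ha, this⟩, hle⟩
    · intro D
      refine le_trans ?_ (hT2 D)
      have : (((UG S M ρ Y F).filter fun t => pf t = p).filter fun t => dd t = D).card ≤
          ((UG S M ρ Y F).filter fun t => dd t = D).card := by
        apply Finset.card_le_card
        intro t ht
        obtain ⟨ht1, ht2⟩ := Finset.mem_filter.1 ht
        exact Finset.mem_filter.2 ⟨(Finset.mem_filter.1 ht1).1, ht2⟩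
      exact_mod_cast this
  have hR : (0 : ℝ) ≤ RR S Y := Finset.sum_nonneg fun a _ => Nat.cast_nonneg a
  have hsg : ∀ p : ℕ, (0 : ℝ) ≤ sg F (B p) p :=
    fun p => Finset.sum_nonneg fun U _ => wt_nonneg U
  rw [Finset.card_eq_sum_card_image pf (UG S M ρ Y F)]
  push_cast
  have hmem : ∀ p ∈ (UG S M ρ Y F).image pf, p ∈ S ∧ 1 ≤ p ∧
      (p : ℝ) ≤ Real.exp ((2 * Y ^ 2) ^ (1 / 2 + ε)) := by
    intro p hp
    obtain ⟨t, ht, rfl⟩ := Finset.mem_image.1 hp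
    have h := hpf t ht
    exact ⟨h.1, (hSp _ h.1).one_lt.le, h.2.2.2⟩
  -- the factors of the tuples of a fiber
  have hfac : ∀ p ∈ (UG S M ρ Y F).image pf, 2 ≤ NS {D : ℕ | Adm M ρ D ∧ Kl D p} (2 * Y ^ 2) →
      ∀ t ∈ (UG S M ρ Y F).filter fun t => pf t = p, t.2.1 ∈
        (F.filter fun U => ∀ l ∈ U, SSN.ch p l = 1 ∨ l ∈ B p) := by
    intro p hp h2N t ht
    obtain ⟨hpS, -, -⟩ := hmem p hp
    obtain ⟨ht1, ht2⟩ := Finset.mem_filter.1 ht
    have hU := AS3_.mem ht1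
    refine Finset.mem_filter.2 ⟨hU, ?_⟩
    intro l hl
    by_cases hlB : l ∈ B p
    · exact Or.inr hlB
    · left
      obtain ⟨hlprime, hlne2, hlS⟩ := (hF _ hU).2.1 l hl
      obtain ⟨ha, -, hle, -, hdiv⟩ := hT1 t ht1
      have hK := (hpf t ht1).2.2.1
      rw [ht2] at hK
      have hl2 : 2 < l := lt_of_le_of_ne hlprime.two_le (Ne.symm hlne2)
      have hlne : l ≠ p := by
        intro h
        exact hlS (h ▸ hpS)
      exact hB2 p hpS h2N (dd t) ⟨ha, hK⟩ hle l hlprime hl2 hlne (hdiv l hl) hlB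
  -- few killed numbers
  have hfew : ∀ p ∈ (UG S M ρ Y F).image pf,
      ¬ 2 ≤ NS {D : ℕ | Adm M ρ D ∧ Kl D p} (2 * Y ^ 2) →
      (((UG S M ρ Y F).filter fun t => pf t = p).card : ℝ) ≤ (4 * Real.log Y) ^ K := by
    intro p hp h2N
    refine (hfib p hp).trans ?_
    calc NS {D : ℕ | Adm M ρ D ∧ Kl D p} (2 * Y ^ 2) * (4 * Real.log Y) ^ K ≤
          1 * (4 * Real.log Y) ^ K := mul_le_mul_of_nonneg_right (NS_lt_two h2N) hc
      _ = (4 * Real.log Y) ^ K := one_mul _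
  apply split3 hmem
  · intro p _
    exact mul_nonneg (mul_nonneg zero_le_two hR) (hsg p)
  · intro p _
    have := hsg p
    positivity
  · exact hc
  · -- the killers in `T`
    intro p hp hpz _
    by_cases h2N : 2 ≤ NS {D : ℕ | Adm M ρ D ∧ Kl D p} (2 * Y ^ 2)
    · have hsub : (((UG S M ρ Y F).filter fun t => pf t = p).card : ℝ) ≤
          (((UG S M ρ Y F).filter fun t => t.2.1 ∈
            (F.filter fun U => ∀ l ∈ U, SSN.ch p l = 1 ∨ l ∈ B p)).card : ℝ) := by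
        have : ((UG S M ρ Y F).filter fun t => pf t = p).card ≤
          ((UG S M ρ Y F).filter fun t => t.2.1 ∈
            (F.filter fun U => ∀ l ∈ U, SSN.ch p l = 1 ∨ l ∈ B p)).card := by
          apply Finset.card_le_card
          intro t ht
          exact Finset.mem_filter.2 ⟨(Finset.mem_filter.1 ht).1, hfac p hp h2N t ht⟩
        exact_mod_cast this
      have h4 := hT3 (F.filter fun U => ∀ l ∈ U, SSN.ch p l = 1 ∨ l ∈ B p)
        (Finset.filter_subset _ _)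
      have h5 : (((UG S M ρ Y F).filter fun t => pf t = p).card : ℝ) ≤
          2 * RR S Y * sg F (B p) p := hsub.trans h4
      linarith
    · have h4 := hfew p hp h2N
      have h6 := mul_nonneg (mul_nonneg (zero_le_two (α := ℝ)) hR) (hsg p)
      linarith
  · -- the killers outside of `T`
    intro p hp hpz _
    obtain ⟨hpS, -, -⟩ := hmem p hp
    have hs0 := hsg p
    by_cases h2N : 2 ≤ NS {D : ℕ | Adm M ρ D ∧ Kl D p} (2 * Y ^ 2)
    · have hW : ∀ t ∈ (UG S M ρ Y F).filter fun t => pf t = p,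
          t ∈ UG S M ρ Y F ∧ Kl (dd t) p := by
        intro t ht
        obtain ⟨ht1, ht2⟩ := Finset.mem_filter.1 ht
        have hK := (hpf t ht1).2.2.1
        rw [ht2] at hK
        exact ⟨ht1, hK⟩
      rw [Finset.card_eq_sum_card_fiberwise (hfac p hp h2N)]
      push_cast
      have hbd : ∀ U ∈ F.filter fun U => ∀ l ∈ U, SSN.ch p l = 1 ∨ l ∈ B p,
          ((((UG S M ρ Y F).filter fun t => pf t = p).filter
          fun t => t.2.1 = U).card : ℝ) ≤ 2 ^ K * (1 + 14 * Y ^ 2 / Real.sqrt p * wt U) := by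
        intro U hU
        refine (fibU h1 h3 S Kl M ρ Y K F hD' hY hF p hpS h2N _ hW U
          (Finset.mem_filter.1 hU).1).trans ?_
        apply le_of_eq
        ring
      have hcard : (((F.filter fun U => ∀ l ∈ U, SSN.ch p l = 1 ∨ l ∈ B p).card : ℕ) : ℝ) ≤
          (F.card : ℝ) := by
        exact_mod_cast Finset.card_le_card (Finset.filter_subset _ _)
      calc ∑ U ∈ F.filter (fun U => ∀ l ∈ U, SSN.ch p l = 1 ∨ l ∈ B p),
            ((((UG S M ρ Y F).filter fun t => pf t = p).filter fun t => t.2.1 = U).card : ℝ)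
          ≤ ∑ U ∈ F.filter (fun U => ∀ l ∈ U, SSN.ch p l = 1 ∨ l ∈ B p),
              (2 : ℝ) ^ K * (1 + 14 * Y ^ 2 / Real.sqrt p * wt U) :=
            Finset.sum_le_sum hbd
        _ = 2 ^ K * ((F.filter fun U => ∀ l ∈ U, SSN.ch p l = 1 ∨ l ∈ B p).card +
              14 * Y ^ 2 / Real.sqrt p * sg F (B p) p) := by
            rw [← Finset.mul_sum, Finset.sum_add_distrib, ← Finset.mul_sum, Finset.sum_const,
              nsmul_eq_mul, mul_one, sg]
        _ ≤ 2 ^ K * (F.card + 14 * Y ^ 2 / Real.sqrt p * sg F (B p) p) := by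
            apply mul_le_mul_of_nonneg_left _ (by positivity)
            linarith
        _ ≤ _ := by linarith
    · have h4 := hfew p hp h2N
      have : (0 : ℝ) ≤ 2 ^ K * (F.card + 14 * Y ^ 2 / Real.sqrt p * sg F (B p) p) := by
        positivity
      linarith
  · -- large primes
    intro p hp hwp
    obtain ⟨hpS, -, -⟩ := hmem p hp
    refine (hfib p hp).trans ?_
    have h4 : NS {D : ℕ | Adm M ρ D ∧ Kl D p} (2 * Y ^ 2) ≤ 1 := by
      apply (hkil p hpS).2.1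
      have e : 4 * (2 * Y ^ 2) ^ 2 = 16 * Y ^ 4 := by ring
      rw [e]
      exact hwp
    calc NS {D : ℕ | Adm M ρ D ∧ Kl D p} (2 * Y ^ 2) * (4 * Real.log Y) ^ K ≤
          1 * (4 * Real.log Y) ^ K := mul_le_mul_of_nonneg_right h4 hc
      _ = (4 * Real.log Y) ^ K := one_mul _

end SSX
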