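import Pool.Agent.SSX.Targets
import Pool.Agent.SSN.RRM

/-!
# BDC: the number of bad primes
-/

set_option autoImplicit false
set_option maxHeartbeats 4000000

open scoped BigOperators Classical
open Finset

namespace SSX

open SSC SSD

namespace BDC_

theorem filt_or (Λ B : Finset ℕ) (p : ℕ) :
    ∑ l ∈ Λ.filter (fun l => SSN.ch p l = 1 ∨ l ∈ B), 1 / (l : ℝ) ≤
      ∑ l ∈ Λ.filter (fun l => SSN.ch p l = 1), 1 / (l : ℝ) +
        ∑ l ∈ Λ.filter (fun l => l ∈ B), 1 / (l : ℝ) := by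
  rw [sum_filter, sum_filter, sum_filter, ← sum_add_distrib]
  refine sum_le_sum fun l hl => ?_
  have h : (0 : ℝ) ≤ 1 / (l : ℝ) := by positivity
  by_cases h1 : SSN.ch p l = 1
  · by_cases h2 : l ∈ B
    · simp only [h1, h2, or_self, if_true]
      linarith
    · simp only [h1, h2, or_false, if_true, if_false]
      linarith
  · by_cases h2 : l ∈ B
    · simp only [h1, h2, or_true, if_true, if_false]
      linarith
    · simp only [h1, h2, or_self, if_false]
      linarith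

theorem small (Λ B : Finset ℕ) (s : ℝ) (hL : ∀ l ∈ Λ, Real.exp s < (l : ℝ)) :
    ∑ l ∈ Λ.filter (fun l => l ∈ B), 1 / (l : ℝ) ≤ (B.card : ℝ) / Real.exp s := by
  have h1 : ∑ l ∈ Λ.filter (fun l => l ∈ B), 1 / (l : ℝ) ≤
      ∑ _l ∈ Λ.filter (fun l => l ∈ B), 1 / Real.exp s := by
    refine sum_le_sum fun l hl => ?_
    have h := hL l (mem_filter.1 hl).1
    exact one_div_le_one_div_of_le (Real.exp_pos s) h.le
  refine h1.trans ?_
  rw [sum_const, nsmul_eq_mul]
  have h2 : ((Λ.filter (fun l => l ∈ B)).card : ℝ) ≤ (B.card : ℝ) := by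
    exact_mod_cast card_le_card fun l hl => (mem_filter.1 hl).2
  rw [mul_one_div]
  exact div_le_div_of_nonneg_right h2 (Real.exp_pos s).le

theorem chsum (Λ : Finset ℕ) (p : ℕ) :
    2 * ∑ l ∈ Λ.filter (fun l => SSN.ch p l = 1), 1 / (l : ℝ) - ∑ l ∈ Λ, 1 / (l : ℝ) ≤
      ∑ l ∈ Λ, (SSN.ch p l : ℝ) / l := by
  rw [sum_filter, mul_sum, ← sum_sub_distrib]
  refine sum_le_sum fun l _ => ?_
  have hl : (0 : ℝ) ≤ 1 / (l : ℝ) := by positivity
  rcases SSN.RRM_.ch_tri p l with h | h | h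
  · rw [h]
    simp only [zero_ne_one, if_false, Int.cast_zero, zero_div]
    linarith
  · rw [h]
    simp only [if_true, Int.cast_one]
    linarith
  · rw [h]
    have h0 : ((-1 : ℤ) = 1) = False := by simp
    simp only [h0, if_false, Int.cast_neg, Int.cast_one]
    rw [neg_div]
    linarith

end BDC_

theorem p_BDC (h : SSD.T_LV) : T_BDC := by
  intro Λ G B P s A θ m hm hs hA hθ hθ2 hL hG hP hw hbad
  set w : ℝ := ∑ l ∈ Λ, 1 / (l : ℝ) with hwdef
  have hw0 : 0 < w := by linarith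
  have hkey : ∀ p ∈ G, 3 / 2 * θ * w ≤ ∑ l ∈ Λ, (SSN.ch p l : ℝ) / l := by
    intro p hp
    have h1 := hbad p hp
    have h2 := BDC_.filt_or Λ (B p) p
    have h3 := BDC_.small Λ (B p) s (fun l hl => (hL l hl).2.2.1)
    have h4 := BDC_.chsum Λ p
    have h5 : ((B p).card : ℝ) / Real.exp s ≤ θ / 4 := by
      rw [div_le_iff₀ (Real.exp_pos s)]
      exact (hG p hp).2.2.2
    have h6 : θ / 4 ≤ θ / 4 * w := by
      have : θ / 4 * 1 ≤ θ / 4 * w := mul_le_mul_of_nonneg_left hw (by positivity)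
      linarith
    rw [← hwdef] at h4
    have h1' : (1 / 2 + θ) * w <
        ∑ l ∈ Λ.filter (fun l => SSN.ch p l = 1), 1 / (l : ℝ) +
          ∑ l ∈ Λ.filter (fun l => l ∈ B p), 1 / (l : ℝ) := by
      exact lt_of_lt_of_le h1 h2
    nlinarith [h1', h3, h4, h5, h6]
  have hv : 0 < 3 / 2 * θ * w := by positivity
  have hLV := h Λ G P s A (3 / 2 * θ * w) w m hm hs hA hL
    (fun p hp => ⟨(hG p hp).1, (hG p hp).2.1, (hG p hp).2.2.1⟩) hP hv (le_of_eq hwdef.symm) hkey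
  have hr : w / (3 / 2 * θ * w) ^ 2 ≤ 1 / θ ^ 2 := by
    rw [div_le_div_iff₀ (by positivity) (by positivity)]
    have : (3 / 2 * θ * w) ^ 2 = 9 / 4 * (θ ^ 2 * w * w) := by ring
    rw [this, one_mul]
    have h1 : θ ^ 2 * w * 1 ≤ θ ^ 2 * w * w := mul_le_mul_of_nonneg_left hw (by positivity)
    nlinarith [h1]
  have hr0 : 0 ≤ w / (3 / 2 * θ * w) ^ 2 := by positivity
  have hs2 : 0 ≤ A * m * s + 3 := by
    have : 0 ≤ A * m * s := by positivity
    linarith
  refine hLV.trans ?_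
  have hpow : (w / (3 / 2 * θ * w) ^ 2) ^ m ≤ (1 / θ ^ 2) ^ m := pow_le_pow_left₀ hr0 hr m
  exact mul_le_mul_of_nonneg_right (mul_le_mul_of_nonneg_left hpow (by positivity)) hs2

end SSX
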