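import Pool.Agent.SSX.Targets
import Pool.Agent.SSC.DIC

/-!
# MP_d74fca_nt, SSX-DI4: many small killers, or many supersingular primes
-/

set_option autoImplicit false
set_option maxHeartbeats 4000000

open scoped BigOperators Classical
open Finset

namespace SSX

open SSC SSD

namespace DI4_

open Filter

/-- the inequalities that are needed for large `L = log Y` -/
structure Good (ε ε' L : ℝ) : Prop where
  g1 : 113 ≤ L
  g2 : 64 * L ^ 5 ≤ Real.exp (2 * ε * L)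
  g3 : 2 * L ^ 5 ≤ Real.exp (3 * ε' / 4 * L)
  g4 : 2 / ε' ≤ L

lemma ev_pow_le_exp {b : ℝ} (C : ℝ) (hb : 0 < b) :
    ∀ᶠ L : ℝ in atTop, C * L ^ 5 ≤ Real.exp (b * L) := by
  have h1 := (Real.tendsto_exp_div_pow_atTop 5).eventually_ge_atTop (C / b ^ 5)
  have h2 : Tendsto (fun L : ℝ => b * L) atTop atTop := tendsto_id.const_mul_atTop hb
  filter_upwards [h2.eventually h1, eventually_gt_atTop (0:ℝ)] with L hL hL0
  rw [div_le_div_iff₀ (by positivity) (by positivity), mul_pow] at hL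
  have hb5 : 0 < b ^ 5 := by positivity
  have h3 : b ^ 5 * (C * L ^ 5) ≤ b ^ 5 * Real.exp (b * L) := by
    calc b ^ 5 * (C * L ^ 5) = C * (b ^ 5 * L ^ 5) := by ring
      _ ≤ Real.exp (b * L) * b ^ 5 := hL
      _ = b ^ 5 * Real.exp (b * L) := by ring
  exact le_of_mul_le_mul_left h3 hb5

lemma ev_good {ε ε' : ℝ} (hε : 0 < ε) (hε' : 0 < ε') : ∀ᶠ L : ℝ in atTop, Good ε ε' L := by
  filter_upwards [eventually_ge_atTop (113:ℝ), ev_pow_le_exp 64 (show 0 < 2 * ε by positivity),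
    ev_pow_le_exp 2 (show 0 < 3 * ε' / 4 by positivity), eventually_ge_atTop (2 / ε')]
    with L a1 a2 a3 a4
  exact ⟨a1, a2, a3, a4⟩

/-- the final computation -/
lemma fin_ {N v T1 T3 T4 Q X Z : ℝ} (hQ : 0 < Q) (h0 : v ≤ N)
    (h1 : N ≤ T1 + (T3 + T4) + Q * X) (t1 : T1 ≤ v / 8) (t3 : T3 ≤ v / 16)
    (t4 : T4 ≤ v / 16) (hv : 0 ≤ v) (h2 : Z * (2 * Q) ≤ v) : Z ≤ X := by
  have h3 : v / 2 ≤ Q * X := by linarith
  have h4 : Z * Q ≤ X * Q := by linarith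
  exact le_of_mul_le_mul_right h4 hQ

/-- all real computations -/
lemma core {L R E N X N1 Fc ε ε' κ Y s1 s2 : ℝ} {K : ℕ} (hYpos : 0 < Y) (hL : L = Real.log Y)
    (hG : Good ε ε' L) (hκ : 0 < κ) (hκε : κ ≤ ε / 2) (hκε' : κ ≤ ε' / 8)
    (hN1nn : 0 ≤ N1) (hN1 : N1 ≤ 4 * Y ^ (2 - 4 * ε)) (hFnn : 0 ≤ Fc) (hRnn : 0 ≤ R)
    (hs1 : 0 ≤ s1) (hs2 : 0 ≤ s2)
    (P7 : (8 * L) ^ (4 * K) ≤ Real.exp (κ * L))
    (hRlow : Y ^ 2 / L ^ 2 ≤ R) (f3 : Fc ≤ Y ^ κ) (f4 : Y ^ (-κ) ≤ E)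
    (hs : s1 + 2 ^ K * s2 ≤ E / L ^ 6)
    (hlow : R / L ^ 3 * E ≤ N)
    (hle : N ≤ 2 * R * s1 + (2 ^ K * Fc * N1 + 14 * Y ^ 2 * (2 ^ K * s2)) + N1 * (4 * L) ^ K +
      (4 * L) ^ K * X) :
    Y ^ (2 - ε') ≤ X := by
  obtain ⟨g1, g2, g3, -⟩ := hG
  have hYe : Y = Real.exp L := by rw [hL, Real.exp_log hYpos]
  have hLpos : 0 < L := by linarith
  have hL1' : 1 ≤ L := by linarith
  have hEpos : 0 < E := lt_of_lt_of_le (Real.rpow_pos_of_pos hYpos _) f4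
  have hRE : 0 ≤ R * E := mul_nonneg hRnn hEpos.le
  have hQpos : 0 < (4 * L) ^ K := pow_pos (by linarith) K
  have hL2p : 0 < L ^ 2 := by positivity
  have hL3p : 0 < L ^ 3 := by positivity
  have hL5p : 0 < L ^ 5 := by positivity
  have hL6p : 0 < L ^ 6 := by positivity
  have h2p : (1:ℝ) ≤ 2 ^ K := one_le_pow₀ (by norm_num)
  have hYr : ∀ a : ℝ, Y ^ a = Real.exp (a * L) := by
    intro a
    rw [Real.rpow_def_of_pos hYpos, ← hL, mul_comm]
  obtain ⟨v, hv⟩ : ∃ v : ℝ, v = R * E / L ^ 3 := ⟨_, rfl⟩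
  have hvnn : 0 ≤ v := by rw [hv]; exact div_nonneg hRE hL3p.le
  have hvN : v ≤ N := by
    refine le_trans (le_of_eq ?_) hlow
    rw [hv]
    ring
  -- lower bound for `v`
  have hvlow : Real.exp ((2 - κ) * L) / L ^ 5 ≤ v := by
    have h1 : Real.exp ((2 - κ) * L) = Y ^ 2 * Y ^ (-κ) := by
      rw [hYr, hYe, ← Real.exp_nat_mul, ← Real.exp_add]
      congr 1
      push_cast
      ring
    have h2 : Y ^ 2 / L ^ 2 * Y ^ (-κ) ≤ R * E :=
      mul_le_mul hRlow f4 (Real.rpow_nonneg hYpos.le _) hRnn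
    rw [hv, h1]
    calc Y ^ 2 * Y ^ (-κ) / L ^ 5 = Y ^ 2 / L ^ 2 * Y ^ (-κ) / L ^ 3 := by
          field_simp
      _ ≤ R * E / L ^ 3 := div_le_div_of_nonneg_right h2 hL3p.le
  -- the powers
  have hQexp : (4 * L) ^ K ≤ Real.exp (κ * L) := by
    refine le_trans ?_ P7
    calc (4 * L) ^ K ≤ (8 * L) ^ K := pow_le_pow_left₀ (by linarith) (by linarith) K
      _ ≤ (8 * L) ^ (4 * K) := pow_le_pow_right₀ (by linarith) (by omega)
  have h2exp : (2:ℝ) ^ K ≤ Real.exp (κ * L) :=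
    le_trans (pow_le_pow_left₀ (by norm_num) (by linarith) K) hQexp
  -- the term with the sums
  have t1 : 2 * R * s1 + 14 * Y ^ 2 * (2 ^ K * s2) ≤ v / 8 := by
    have h0 : Y ^ 2 ≤ R * L ^ 2 := by
      rw [div_le_iff₀ hL2p] at hRlow
      exact hRlow
    have hs2' : 0 ≤ 2 ^ K * s2 := mul_nonneg (by linarith) hs2
    have h1 : 14 * Y ^ 2 * (2 ^ K * s2) ≤ 14 * (R * L ^ 2) * (2 ^ K * s2) :=
      mul_le_mul_of_nonneg_right (by linarith) hs2'
    have h2 : 2 * R * s1 + 14 * Y ^ 2 * (2 ^ K * s2) ≤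
        (2 * R + 14 * (R * L ^ 2)) * (s1 + 2 ^ K * s2) := by
      have a1 : 0 ≤ 14 * (R * L ^ 2) * s1 := by positivity
      have a2 : 0 ≤ 2 * R * (2 ^ K * s2) := by positivity
      have a3 : (2 * R + 14 * (R * L ^ 2)) * (s1 + 2 ^ K * s2) =
          2 * R * s1 + 14 * (R * L ^ 2) * (2 ^ K * s2) +
            (14 * (R * L ^ 2) * s1 + 2 * R * (2 ^ K * s2)) := by ring
      rw [a3]
      linarith
    have h3 : (2 * R + 14 * (R * L ^ 2)) * (s1 + 2 ^ K * s2) ≤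
        (2 * R + 14 * (R * L ^ 2)) * (E / L ^ 6) :=
      mul_le_mul_of_nonneg_left hs (by positivity)
    have h4 : (2 * R + 14 * (R * L ^ 2)) * (E / L ^ 6) = v * ((2 + 14 * L ^ 2) / L ^ 3) := by
      rw [hv]
      field_simp
    have h5 : (2 + 14 * L ^ 2) / L ^ 3 ≤ 1 / 8 := by
      rw [div_le_div_iff₀ hL3p (by norm_num)]
      have h6 : 113 * L ^ 2 ≤ L * L ^ 2 := mul_le_mul_of_nonneg_right g1 hL2p.le
      have h7 : 113 * 113 ≤ L ^ 2 := by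
        rw [sq]
        exact mul_le_mul g1 g1 (by norm_num) hLpos.le
      have h8 : L * L ^ 2 = L ^ 3 := by ring
      linarith
    calc 2 * R * s1 + 14 * Y ^ 2 * (2 ^ K * s2)
        ≤ (2 * R + 14 * (R * L ^ 2)) * (s1 + 2 ^ K * s2) := h2
      _ ≤ (2 * R + 14 * (R * L ^ 2)) * (E / L ^ 6) := h3
      _ = v * ((2 + 14 * L ^ 2) / L ^ 3) := h4
      _ ≤ v * (1 / 8) := mul_le_mul_of_nonneg_left h5 hvnn
      _ = v / 8 := by ring
  -- the small terms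
  have hsmall : 4 * Real.exp ((2 - 4 * ε) * L + κ * L + κ * L) ≤ v / 16 := by
    have h1 : 4 * Real.exp ((2 - 4 * ε) * L + κ * L + κ * L) * (16 * L ^ 5) ≤
        Real.exp ((2 - κ) * L) := by
      calc 4 * Real.exp ((2 - 4 * ε) * L + κ * L + κ * L) * (16 * L ^ 5)
          = Real.exp ((2 - 4 * ε) * L + κ * L + κ * L) * (64 * L ^ 5) := by ring
        _ ≤ Real.exp ((2 - 4 * ε) * L + κ * L + κ * L) * Real.exp (2 * ε * L) :=
            mul_le_mul_of_nonneg_left g2 (Real.exp_pos _).le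
        _ = Real.exp ((2 - 4 * ε) * L + κ * L + κ * L + 2 * ε * L) := by
            rw [← Real.exp_add]
        _ ≤ Real.exp ((2 - κ) * L) := by
            refine Real.exp_le_exp.2 ?_
            have h2 : 3 * κ ≤ 2 * ε := by linarith
            have h3 : 3 * κ * L ≤ 2 * ε * L := mul_le_mul_of_nonneg_right h2 hLpos.le
            linarith
    have h2 : 4 * Real.exp ((2 - 4 * ε) * L + κ * L + κ * L) ≤
        Real.exp ((2 - κ) * L) / L ^ 5 / 16 := by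
      rw [div_div, le_div_iff₀ (by linarith)]
      linarith
    linarith
  rw [hYr] at hN1
  have t3 : 2 ^ K * Fc * N1 ≤ v / 16 := by
    refine le_trans ?_ hsmall
    have h1 : Fc ≤ Real.exp (κ * L) := by
      refine f3.trans (le_of_eq ?_)
      rw [hYr]
    calc 2 ^ K * Fc * N1 ≤ Real.exp (κ * L) * Real.exp (κ * L) *
          (4 * Real.exp ((2 - 4 * ε) * L)) := by
          refine mul_le_mul (mul_le_mul h2exp h1 hFnn (Real.exp_pos _).le) hN1 hN1nn (by positivity)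
      _ = 4 * Real.exp ((2 - 4 * ε) * L + κ * L + κ * L) := by
          rw [Real.exp_add, Real.exp_add]
          ring
  have t4 : N1 * (4 * L) ^ K ≤ v / 16 := by
    refine le_trans ?_ hsmall
    calc N1 * (4 * L) ^ K ≤ 4 * Real.exp ((2 - 4 * ε) * L) * Real.exp (κ * L) :=
          mul_le_mul hN1 hQexp hQpos.le (by positivity)
      _ = 4 * Real.exp ((2 - 4 * ε) * L + κ * L) := by
          rw [Real.exp_add]
          ring
      _ ≤ 4 * Real.exp ((2 - 4 * ε) * L + κ * L + κ * L) := by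
          have h9 : 0 ≤ κ * L := by positivity
          have := Real.exp_le_exp.2
            (show (2 - 4 * ε) * L + κ * L ≤ (2 - 4 * ε) * L + κ * L + κ * L by linarith)
          linarith
  have hmain : N ≤ (2 * R * s1 + 14 * Y ^ 2 * (2 ^ K * s2)) +
      (2 ^ K * Fc * N1 + N1 * (4 * L) ^ K) + (4 * L) ^ K * X := by
    refine hle.trans (le_of_eq ?_)
    ring
  have hYpow : Y ^ (2 - ε') * (2 * (4 * L) ^ K) ≤ v := by
    refine le_trans ?_ hvlow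
    rw [le_div_iff₀ hL5p, hYr]
    calc Real.exp ((2 - ε') * L) * (2 * (4 * L) ^ K) * L ^ 5
        = Real.exp ((2 - ε') * L) * (4 * L) ^ K * (2 * L ^ 5) := by ring
      _ ≤ Real.exp ((2 - ε') * L) * Real.exp (κ * L) * Real.exp (3 * ε' / 4 * L) := by
          refine mul_le_mul ?_ g3 (by positivity) (by positivity)
          exact mul_le_mul_of_nonneg_left hQexp (Real.exp_pos _).le
      _ = Real.exp ((2 - ε') * L + κ * L + 3 * ε' / 4 * L) := by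
          rw [← Real.exp_add, ← Real.exp_add]
      _ ≤ Real.exp ((2 - κ) * L) := by
          refine Real.exp_le_exp.2 ?_
          have h3 : κ * L ≤ ε' / 8 * L := mul_le_mul_of_nonneg_right hκε' hLpos.le
          linarith
  exact fin_ hQpos hvN hmain t1 t3 t4 hvnn hYpow

/-- comparison of the exponents -/
lemma expo {ε Y L : ℝ} (hYpos : 0 < Y) (hL : L = Real.log Y) (hε : 0 < ε) (hε1 : ε < 1)
    (g4 : 2 / ε ≤ L) : ((2:ℝ) * Y ^ 2) ^ (1 / 2 + ε / 8) ≤ Y ^ (1 + ε) := by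
  have h7 : ((2:ℝ) * Y ^ 2) ^ (1 / 2 + ε / 8) = 2 ^ (1 / 2 + ε / 8) * Y ^ (1 + ε / 4) := by
    rw [Real.mul_rpow (by norm_num) (by positivity)]
    congr 1
    rw [← Real.rpow_natCast Y 2, ← Real.rpow_mul hYpos.le]
    congr 1
    push_cast
    ring
  rw [h7]
  have h8 : (2:ℝ) ^ (1 / 2 + ε / 8) ≤ 2 := by
    calc (2:ℝ) ^ (1 / 2 + ε / 8) ≤ 2 ^ (1:ℝ) :=
          Real.rpow_le_rpow_of_exponent_le (by norm_num) (by linarith)
      _ = 2 := Real.rpow_one 2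
  have h9 : (2:ℝ) ≤ Y ^ (3 * ε / 4) := by
    rw [Real.rpow_def_of_pos hYpos, ← hL]
    have h10 : 1 ≤ L * (3 * ε / 4) := by
      rw [div_le_iff₀ hε] at g4
      linarith
    have h11 := Real.add_one_le_exp (L * (3 * ε / 4))
    linarith
  calc (2:ℝ) ^ (1 / 2 + ε / 8) * Y ^ (1 + ε / 4) ≤ Y ^ (3 * ε / 4) * Y ^ (1 + ε / 4) :=
        mul_le_mul_of_nonneg_right (h8.trans h9) (Real.rpow_nonneg hYpos.le _)
    _ = Y ^ (1 + ε) := by
        rw [← Real.rpow_add hYpos]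
        congr 1
        ring

/-- the bound for the number of the small elements of `S` -/
lemma N_bound {S : Set ℕ} {ε η Y L : ℝ} (hYpos : 0 < Y) (hL : L = Real.log Y) (hL3 : 3 ≤ L)
    (hε : 0 < ε) (_hε1 : ε ≤ 1 / 4) (hη : 0 < η) (hU : UB S ε η Y) :
    NS S (16 * Y ^ 4) ≤ 4 * Y ^ (2 - 4 * ε) := by
  have hYe : Y = Real.exp L := by rw [hL, Real.exp_log hYpos]
  have hY1 : 1 ≤ Y := by rw [hYe]; exact Real.one_le_exp (by linarith)
  have hlog1 : 1 ≤ Real.log L := by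
    rw [Real.le_log_iff_exp_le (by linarith)]
    have := Real.exp_one_lt_d9
    linarith
  have h1 : Real.exp (Real.log Y / (Real.log (Real.log Y)) ^ η) ≤ 16 * Y ^ 4 := by
    rw [← hL]
    have h2 : (1:ℝ) ≤ (Real.log L) ^ η := Real.one_le_rpow hlog1 hη.le
    have h3 : L / (Real.log L) ^ η ≤ L := div_le_self (by linarith) h2
    have h4 : Real.exp (L / (Real.log L) ^ η) ≤ Y := by
      rw [hYe]
      exact Real.exp_le_exp.2 h3
    have h8 : (1:ℝ) ≤ Y ^ 3 := one_le_pow₀ hY1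
    have h9 : 16 * Y ^ 4 = Y * (16 * Y ^ 3) := by ring
    refine h4.trans ?_
    rw [h9]
    exact le_mul_of_one_le_right hYpos.le (by linarith)
  refine (hU _ h1 le_rfl).trans ?_
  rw [Real.mul_rpow (by norm_num) (by positivity), ← Real.rpow_natCast Y 4,
    ← Real.rpow_mul hYpos.le]
  have h5 : (16:ℝ) ^ (1 / 2 - ε) ≤ 4 := by
    calc (16:ℝ) ^ (1 / 2 - ε) ≤ 16 ^ (1 / 2 : ℝ) :=
          Real.rpow_le_rpow_of_exponent_le (by norm_num) (by linarith)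
      _ = 4 := by
          rw [← Real.sqrt_eq_rpow, show (16:ℝ) = 4 ^ 2 by norm_num,
            Real.sqrt_sq (by norm_num)]
  have h6 : ((4 : ℕ) : ℝ) * (1 / 2 - ε) = 2 - 4 * ε := by
    push_cast
    ring
  rw [h6]
  exact mul_le_mul_of_nonneg_right h5 (Real.rpow_nonneg hYpos.le _)

lemma sg_nonneg (F : Finset (Finset ℕ)) (B : Finset ℕ) (p : ℕ) : 0 ≤ sg F B p := by
  unfold sg
  refine Finset.sum_nonneg fun U _ => ?_
  unfold wt
  exact Finset.prod_nonneg fun l _ => by positivity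

end DI4_

open DI4_ in
theorem p_DI4 (h1 : T_PA4) (h2 : T_FM4) (h3 : T_KS4) (h4 : T_RR4) (h5 : T_LO4) (h6 : T_AS4)
    (h7 : SSD.T_TU2) : T_DI4 := by
  intro S Kl M ρ hD hcl δ ε ε' hδ hδ1 hε hε1 hε' hε'1
  have hD' := hD
  obtain ⟨hM, hρ1, hρ2, hS, hKill, -⟩ := hD'
  obtain ⟨θ, hθdef⟩ : ∃ θ : ℝ, θ = min (1 / 20) (ε / 3) := ⟨_, rfl⟩
  have hθ : 0 < θ := by rw [hθdef]; exact lt_min (by norm_num) (by positivity)
  have hθ1 : θ ≤ 1 / 20 := by rw [hθdef]; exact min_le_left _ _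
  have hθ2 : 3 * θ ≤ ε := by
    have : θ ≤ ε / 3 := by rw [hθdef]; exact min_le_right _ _
    linarith
  obtain ⟨κ, hκdef⟩ : ∃ κ : ℝ, κ = min (1 / 16) (min (ε / 2) (ε' / 8)) := ⟨_, rfl⟩
  have hκ : 0 < κ := by
    rw [hκdef]
    exact lt_min (by norm_num) (lt_min (by positivity) (by positivity))
  have hκ1 : κ ≤ 1 / 16 := by rw [hκdef]; exact min_le_left _ _
  have hκ2 : κ ≤ ε / 2 := by
    rw [hκdef]
    exact (min_le_right _ _).trans (min_le_left _ _)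
  have hκ3 : κ ≤ ε' / 8 := by
    rw [hκdef]
    exact (min_le_right _ _).trans (min_le_right _ _)
  obtain ⟨Q, A, hC⟩ := hcl θ hθ
  have hA : 3 ≤ A := hC.1
  have hη : (0:ℝ) < 2 + 3 * δ := by linarith
  obtain ⟨L1, hL1, hPar⟩ := h1 A δ θ κ hA hδ hδ1 hθ hθ1 hκ (by linarith)
  obtain ⟨Y1, hY1, hRR⟩ := h4 ε (2 + 3 * δ) hε hε1 hη
  obtain ⟨Y2, hY2, hLO⟩ := h5 M ρ δ ε (2 + 3 * δ) hM hρ1 hρ2 hδ hε hε1 (by linarith)
  obtain ⟨D₀, hD₀⟩ := hKill (ε' / 8) (by positivity)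
  obtain ⟨L₀, hL₀⟩ := (Filter.eventually_atTop.1 (ev_good hε hε'))
  refine ⟨max (max (max Y1 Y2) (max (Real.exp L1) (Real.exp L₀))) (256 * (D₀ + 1)), ?_, ?_⟩
  · refine le_trans ?_ (le_max_left _ _)
    refine le_trans ?_ (le_max_left _ _)
    refine le_trans ?_ (le_max_left _ _)
    linarith
  intro Y hY hUB
  have hYY1 : Y1 ≤ Y := le_trans (le_max_left _ _) (le_trans (le_max_left _ _)
    (le_trans (le_max_left _ _) hY))
  have hYY2 : Y2 ≤ Y := le_trans (le_max_right _ _) (le_trans (le_max_left _ _)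
    (le_trans (le_max_left _ _) hY))
  have hYL1 : Real.exp L1 ≤ Y := le_trans (le_max_left _ _) (le_trans (le_max_right _ _)
    (le_trans (le_max_left _ _) hY))
  have hYL : Real.exp L₀ ≤ Y := le_trans (le_max_right _ _) (le_trans (le_max_right _ _)
    (le_trans (le_max_left _ _) hY))
  have hYD : 256 * ((D₀:ℝ) + 1) ≤ Y := le_trans (le_max_right _ _) hY
  clear hY
  have hY32 : 32 ≤ Y := hY1.trans hYY1
  have hYpos : 0 < Y := by linarith
  have hSp : ∀ p ∈ S, p.Prime := fun p hp => (hS p hp).1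
  set L : ℝ := Real.log Y with hL
  have G : Good ε ε' L := by
    apply hL₀
    rw [hL, Real.le_log_iff_exp_le hYpos]
    exact hYL
  have g1 := G.g1
  have g4 := G.g4
  have hLL1 : L1 ≤ L := by
    rw [hL, Real.le_log_iff_exp_le hYpos]
    exact hYL1
  have hLpos : 0 < L := by linarith
  obtain ⟨J, k, hP⟩ := hPar L hLL1
  have P8 : (8 * L) ^ (4 * KK k J) ≤ Real.exp (κ * L) := hP.2.2.2.2.2.2.2.1
  obtain ⟨f1, f2, f3, f4⟩ := h2 S Q A δ θ κ Y J k hC hδ hθ hκ hκ1 hYpos hP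
  rw [← hL] at f1 f2 f3 f4
  set F : Finset (Finset ℕ) := FF (Wj Q A δ L) k J with hF
  set K : ℕ := KK k J with hK
  set E : ℝ := ∑ U ∈ F, wt U with hE
  set R : ℝ := RR S Y with hR
  have hRlow := hRR Y S hYY1 hUB
  rw [← hL, ← hR] at hRlow
  have hlow := hLO Y S K F hYY2 hSp hUB f1 f2
  rw [← hL, ← hR, ← hE] at hlow
  obtain ⟨hT1, -, -, -⟩ := h7 S M ρ Y K F hSp hM hρ1 hρ2 hY32 f1
  have hkill : ∀ t ∈ UG S M ρ Y F, ∃ p ∈ S, ¬ p ∣ dd t ∧ Kl (dd t) p ∧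
      (p : ℝ) ≤ Real.exp ((2 * Y ^ 2) ^ (1 / 2 + ε' / 8)) := by
    intro t ht
    obtain ⟨q1, q2, q3, q4, -⟩ := hT1 t ht
    have q5 : D₀ ≤ dd t := by
      have : (D₀:ℝ) ≤ dd t := by
        refine le_trans ?_ q4
        rw [le_div_iff₀ (by norm_num)]
        have h9 : Y ≤ Y ^ 2 := by
          rw [sq]
          exact le_mul_of_one_le_right hYpos.le (by linarith)
        linarith
      exact_mod_cast this
    rcases hD₀ (dd t) q5 q1 with ⟨q, hq, hqd⟩ | ⟨p, hp, hpd, hK', hple⟩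
    · exact absurd hqd (q2 q hq)
    · refine ⟨p, hp, hpd, hK', hple.trans (Real.exp_le_exp.2 ?_)⟩
      exact Real.rpow_le_rpow (by positivity) q3 (by positivity)
  obtain ⟨B, hB, hle⟩ := h6 S Kl M ρ (ε' / 8) Y K F hD hY32 f1 (by positivity) hkill
  obtain ⟨T, hT⟩ := h3 S Q A δ θ ε κ Y J k B hC hS hδ hθ hθ1 hθ2 hε1 hκ hκ1 hYpos hP hUB hB
  rw [← hL] at hT
  rw [← hF, ← hK, ← hE] at hT
  have hle' := hle T
  clear hle
  rw [← hR, ← hL] at hle'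
  set s1 : ℝ := ∑ p ∈ (Icc 1 ⌊16 * Y ^ 4⌋₊).filter (fun p : ℕ => p ∈ S ∧ p ∈ T),
      sg F (B p) p with hs1
  set s2 : ℝ := ∑ p ∈ (Icc 1 ⌊16 * Y ^ 4⌋₊).filter (fun p : ℕ => p ∈ S ∧ p ∉ T),
      sg F (B p) p / Real.sqrt p with hs2
  have hRnn : 0 ≤ R := by rw [hR]; unfold RR; exact Finset.sum_nonneg fun _ _ => Nat.cast_nonneg _
  have hs1nn : 0 ≤ s1 := Finset.sum_nonneg fun p _ => sg_nonneg _ _ _
  have hs2nn : 0 ≤ s2 :=
    Finset.sum_nonneg fun p _ => div_nonneg (sg_nonneg _ _ _) (Real.sqrt_nonneg _)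
  have e1 : (∑ p ∈ (Icc 1 ⌊16 * Y ^ 4⌋₊).filter (fun p : ℕ => p ∈ S ∧ p ∈ T),
      2 * R * sg F (B p) p) = 2 * R * s1 := by
    rw [hs1, Finset.mul_sum]
  have e2 : (∑ p ∈ (Icc 1 ⌊16 * Y ^ 4⌋₊).filter (fun p : ℕ => p ∈ S ∧ p ∉ T),
      2 ^ K * ((F.card : ℝ) + 14 * Y ^ 2 / Real.sqrt p * sg F (B p) p)) =
      2 ^ K * (F.card : ℝ) *
        (((Icc 1 ⌊16 * Y ^ 4⌋₊).filter (fun p : ℕ => p ∈ S ∧ p ∉ T)).card : ℝ) +
      14 * Y ^ 2 * (2 ^ K * s2) := by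
    have e3 : ∀ p ∈ (Icc 1 ⌊16 * Y ^ 4⌋₊).filter (fun p : ℕ => p ∈ S ∧ p ∉ T),
        2 ^ K * ((F.card : ℝ) + 14 * Y ^ 2 / Real.sqrt p * sg F (B p) p) =
        2 ^ K * (F.card : ℝ) + 14 * Y ^ 2 * 2 ^ K * (sg F (B p) p / Real.sqrt p) := by
      intro p _
      ring
    rw [Finset.sum_congr rfl e3, Finset.sum_add_distrib, Finset.sum_const, nsmul_eq_mul,
      ← Finset.mul_sum, ← hs2]
    ring
  have hcard : ((((Icc 1 ⌊16 * Y ^ 4⌋₊).filter (fun p : ℕ => p ∈ S ∧ p ∉ T)).card : ℕ) : ℝ) ≤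
      NS S (16 * Y ^ 4) := by
    refine SSC.DIC_.card_le_NS S _ _ ?_
    intro p hp
    rw [Finset.mem_filter, Finset.mem_Icc] at hp
    exact ⟨hp.2.1, (Nat.le_floor_iff (by positivity)).1 hp.1.2⟩
  rw [e1, e2] at hle'
  have hN1nn : 0 ≤ NS S (16 * Y ^ 4) := by unfold NS; exact Nat.cast_nonneg _
  have hN1 := N_bound hYpos hL (by linarith) hε hε1 hη hUB
  have hle2 : ((UG S M ρ Y F).card : ℝ) ≤ 2 * R * s1 +
      (2 ^ K * (F.card : ℝ) * NS S (16 * Y ^ 4) + 14 * Y ^ 2 * (2 ^ K * s2)) +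
      NS S (16 * Y ^ 4) * (4 * L) ^ K +
      (4 * L) ^ K * NS S (Real.exp ((2 * Y ^ 2) ^ (1 / 2 + ε' / 8))) := by
    have := mul_le_mul_of_nonneg_left hcard (show (0:ℝ) ≤ 2 ^ K * (F.card : ℝ) by positivity)
    linarith
  have hfinal : Y ^ (2 - ε') ≤ NS S (Real.exp ((2 * Y ^ 2) ^ (1 / 2 + ε' / 8))) :=
    core hYpos hL G hκ hκ2 hκ3 hN1nn hN1 (Nat.cast_nonneg F.card) hRnn hs1nn hs2nn P8
      hRlow f3 f4 hT hlow hle2
  refine hfinal.trans ?_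
  exact SSC.DIC_.NS_mono S (Real.exp_le_exp.2 (expo hYpos hL hε' hε'1 g4))

end SSX
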