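import Pool.Agent.SSX.Targets

/-!
# SSX: DYA (dyadic summation)
-/

set_option autoImplicit false

open scoped BigOperators Classical
open Finset

namespace SSX

open SSC SSD

namespace DYA_

lemma block (S : Set ℕ) (w v : ℝ) (hw : 1 ≤ w) (hwv : w ≤ v) :
    ∑ p ∈ (Icc 1 ⌊v⌋₊).filter (fun p : ℕ => p ∈ S ∧ w < (p : ℝ)), 1 / Real.sqrt p ≤
      NS S v * (1 / Real.sqrt w) := by
  have hv0 : 0 ≤ v := by linarith
  have h1 : ∑ p ∈ (Icc 1 ⌊v⌋₊).filter (fun p : ℕ => p ∈ S ∧ w < (p : ℝ)), 1 / Real.sqrt p ≤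
      ∑ _p ∈ (Icc 1 ⌊v⌋₊).filter (fun p : ℕ => p ∈ S ∧ w < (p : ℝ)), 1 / Real.sqrt w := by
    apply Finset.sum_le_sum
    intro p hp
    have hp2 := (Finset.mem_filter.1 hp).2.2
    have hs : 0 < Real.sqrt w := Real.sqrt_pos.2 (by linarith)
    exact one_div_le_one_div_of_le hs (Real.sqrt_le_sqrt hp2.le)
  have h2 : (((Icc 1 ⌊v⌋₊).filter (fun p : ℕ => p ∈ S ∧ w < (p : ℝ))).card : ℝ) ≤ NS S v := by
    unfold NS
    have hfin : {p : ℕ | p ∈ S ∧ (p : ℝ) ≤ v}.Finite := by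
      apply (Finset.finite_toSet (Finset.range (⌊v⌋₊ + 1))).subset
      intro p hp
      have : p ≤ ⌊v⌋₊ := Nat.le_floor hp.2
      simp only [Finset.coe_range, Set.mem_Iio]
      omega
    have h3 : (((Icc 1 ⌊v⌋₊).filter (fun p : ℕ => p ∈ S ∧ w < (p : ℝ))) : Set ℕ) ⊆
        {p : ℕ | p ∈ S ∧ (p : ℝ) ≤ v} := by
      intro p hp
      have hp' := Finset.mem_filter.1 (Finset.mem_coe.1 hp)
      refine ⟨hp'.2.1, ?_⟩
      have h4 := (Finset.mem_Icc.1 hp'.1).2
      exact (Nat.cast_le.2 h4).trans (Nat.floor_le hv0)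
    have h5 := Set.ncard_le_ncard h3 hfin
    rw [Set.ncard_coe_finset] at h5
    exact_mod_cast h5
  rw [Finset.sum_const, nsmul_eq_mul] at h1
  refine h1.trans ?_
  exact mul_le_mul_of_nonneg_right h2 (by positivity)

lemma ind (S : Set ℕ) (ε u : ℝ) (hε : 0 < ε) (_hε2 : ε ≤ 1 / 2) (hu : 1 ≤ u) (n : ℕ) :
    ∀ v : ℝ, u ≤ v → v ≤ 2 ^ n * u → (∀ t : ℝ, u ≤ t → t ≤ v → NS S t ≤ t ^ (1 / 2 - ε)) →
    ∑ p ∈ (Icc 1 ⌊v⌋₊).filter (fun p : ℕ => p ∈ S ∧ u < (p : ℝ)), 1 / Real.sqrt p ≤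
      n * (Real.sqrt 2 * u ^ (-ε)) := by
  have hu0 : 0 < u := by linarith
  have hC : 0 ≤ Real.sqrt 2 * u ^ (-ε) :=
    mul_nonneg (Real.sqrt_nonneg 2) (Real.rpow_nonneg hu0.le _)
  induction n with
  | zero =>
    intro v huv hv _
    have hv' : v = u := by
      apply le_antisymm _ huv
      simpa using hv
    subst hv'
    have : (Icc 1 ⌊v⌋₊).filter (fun p : ℕ => p ∈ S ∧ v < (p : ℝ)) = ∅ := by
      apply Finset.filter_eq_empty_iff.2
      intro p hp h
      have h4 := (Finset.mem_Icc.1 hp).2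
      have h5 : (p : ℝ) ≤ v := (Nat.cast_le.2 h4).trans (Nat.floor_le hu0.le)
      linarith [h.2]
    rw [this]
    simp
  | succ n ih =>
    intro v huv hv hNS
    by_cases hcase : v ≤ 2 ^ n * u
    · refine (ih v huv hcase hNS).trans ?_
      push_cast
      nlinarith
    · push Not at hcase
      set w : ℝ := 2 ^ n * u with hw
      have hp1 : (1 : ℝ) ≤ 2 ^ n := one_le_pow₀ (by norm_num)
      have huw : u ≤ w := by rw [hw]; nlinarith
      have hw1 : 1 ≤ w := hu.trans huw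
      have hw0 : 0 < w := by linarith
      have hv2 : v ≤ 2 * w := by
        rw [hw]
        calc v ≤ 2 ^ (n + 1) * u := hv
          _ = 2 * (2 ^ n * u) := by ring
      have hv0 : 0 < v := by linarith
      have h1 := ih w huw le_rfl (fun t ht1 ht2 => hNS t ht1 (ht2.trans hcase.le))
      have h2 := block S w v hw1 hcase.le
      have h3 : ∑ p ∈ (Icc 1 ⌊v⌋₊).filter (fun p : ℕ => p ∈ S ∧ u < (p : ℝ)), 1 / Real.sqrt p ≤
          ∑ p ∈ (Icc 1 ⌊w⌋₊).filter (fun p : ℕ => p ∈ S ∧ u < (p : ℝ)), 1 / Real.sqrt p +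
          ∑ p ∈ (Icc 1 ⌊v⌋₊).filter (fun p : ℕ => p ∈ S ∧ w < (p : ℝ)), 1 / Real.sqrt p := by
        have hsub : (Icc 1 ⌊v⌋₊).filter (fun p : ℕ => p ∈ S ∧ u < (p : ℝ)) ⊆
            (Icc 1 ⌊w⌋₊).filter (fun p : ℕ => p ∈ S ∧ u < (p : ℝ)) ∪
            (Icc 1 ⌊v⌋₊).filter (fun p : ℕ => p ∈ S ∧ w < (p : ℝ)) := by
          intro p hp
          have hp' := Finset.mem_filter.1 hp
          have hpI := Finset.mem_Icc.1 hp'.1
          rw [Finset.mem_union, Finset.mem_filter, Finset.mem_filter]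
          rcases le_or_gt (p : ℝ) w with h | h
          · left
            exact ⟨Finset.mem_Icc.2 ⟨hpI.1, Nat.le_floor h⟩, hp'.2⟩
          · right
            exact ⟨hp'.1, hp'.2.1, h⟩
        refine (Finset.sum_le_sum_of_subset_of_nonneg hsub
          (fun p _ _ => by positivity)).trans ?_
        rw [← Finset.sum_union_inter]
        have : 0 ≤ ∑ x ∈ (Icc 1 ⌊w⌋₊).filter (fun p : ℕ => p ∈ S ∧ u < (p : ℝ)) ∩
            (Icc 1 ⌊v⌋₊).filter (fun p : ℕ => p ∈ S ∧ w < (p : ℝ)), 1 / Real.sqrt x :=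
          Finset.sum_nonneg (fun p _ => by positivity)
        linarith
      have h4 : NS S v * (1 / Real.sqrt w) ≤ Real.sqrt 2 * u ^ (-ε) := by
        have h5 := hNS v huv le_rfl
        have h6 : NS S v * (1 / Real.sqrt w) ≤ v ^ (1 / 2 - ε) * (1 / Real.sqrt w) :=
          mul_le_mul_of_nonneg_right h5 (by positivity)
        refine h6.trans ?_
        have h7 : v ^ (1 / 2 - ε) = Real.sqrt v * v ^ (-ε) := by
          rw [Real.sqrt_eq_rpow, ← Real.rpow_add hv0]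
          congr 1
        have h8 : Real.sqrt v ≤ Real.sqrt 2 * Real.sqrt w := by
          rw [← Real.sqrt_mul (by norm_num)]
          exact Real.sqrt_le_sqrt hv2
        have h9 : v ^ (-ε) ≤ u ^ (-ε) :=
          Real.rpow_le_rpow_of_nonpos hu0 huv (by linarith)
        have hsw : 0 < Real.sqrt w := Real.sqrt_pos.2 hw0
        rw [h7]
        have h10 : Real.sqrt v * v ^ (-ε) * (1 / Real.sqrt w) =
            (Real.sqrt v / Real.sqrt w) * v ^ (-ε) := by ring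
        rw [h10]
        have h11 : Real.sqrt v / Real.sqrt w ≤ Real.sqrt 2 := by
          rw [div_le_iff₀ hsw]
          exact h8
        exact mul_le_mul h11 h9 (Real.rpow_nonneg hv0.le _) (Real.sqrt_nonneg 2)
      push_cast
      linarith

end DYA_

theorem p_DYA : T_DYA := by
  intro S ε u v hε hε2 hu huv hNS
  have hu0 : 0 < u := by linarith
  have hv0 : 0 < v := by linarith
  have hr1 : 1 ≤ v / u := by rw [le_div_iff₀ hu0]; linarith
  have hl0 : 0 ≤ Real.log (v / u) := Real.log_nonneg hr1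
  set n : ℕ := ⌈Real.log (v / u) / Real.log 2⌉₊ with hn
  have hlog2 : 0.69 < Real.log 2 := by linarith [Real.log_two_gt_d9]
  have hlog2' : 0 < Real.log 2 := by linarith
  have hn1 : Real.log (v / u) / Real.log 2 ≤ n := Nat.le_ceil _
  have hn2 : (n : ℝ) < Real.log (v / u) / Real.log 2 + 1 :=
    Nat.ceil_lt_add_one (div_nonneg hl0 hlog2'.le)
  have hvn : v ≤ 2 ^ n * u := by
    have h1 : Real.log (v / u) ≤ n * Real.log 2 := by
      rwa [div_le_iff₀ hlog2'] at hn1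
    have h2 : v / u ≤ 2 ^ n := by
      rw [← Real.log_le_log_iff (by linarith) (by positivity), Real.log_pow]
      exact h1
    rwa [div_le_iff₀ hu0] at h2
  have h := DYA_.ind S ε u hε hε2 hu n v huv hvn hNS
  refine h.trans ?_
  have hue : 0 ≤ u ^ (-ε) := Real.rpow_nonneg hu0.le _
  have hs2 : Real.sqrt 2 ≤ 1.5 := by
    rw [Real.sqrt_le_left (by norm_num)]
    norm_num
  have h3 : Real.log (v / u) / Real.log 2 ≤ 1.5 * Real.log (v / u) := by
    rw [div_le_iff₀ hlog2']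
    nlinarith
  have h4 : (n : ℝ) * Real.sqrt 2 ≤ 4 * (Real.log (v / u) + 1) := by
    have h5 : (n : ℝ) ≤ 1.5 * Real.log (v / u) + 1 := by linarith
    calc (n : ℝ) * Real.sqrt 2 ≤ (1.5 * Real.log (v / u) + 1) * 1.5 :=
          mul_le_mul h5 hs2 (Real.sqrt_nonneg 2) (by positivity)
      _ ≤ 4 * (Real.log (v / u) + 1) := by linarith
  calc (n : ℝ) * (Real.sqrt 2 * u ^ (-ε)) = ((n : ℝ) * Real.sqrt 2) * u ^ (-ε) := by ring
    _ ≤ 4 * (Real.log (v / u) + 1) * u ^ (-ε) := mul_le_mul_of_nonneg_right h4 hue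

end SSX
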