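import Pool.Agent.SSX.Targets

/-!
# MP_d74fca_nt, project SSX: exceptional numbers repel each other (job SSX-EXC)
-/

set_option autoImplicit false

open scoped BigOperators Classical
open Finset

namespace SSX

open SSC SSD

theorem p_EXC : T_EXC := by
  intro N hN hLD ε η hε hη
  obtain ⟨x₀, hx₀⟩ := hLD ε (1 / 20) ((2 + η) / 2) hε (by norm_num) (by norm_num) (by linarith)
  have hc : 0 < η - (2 + η) / 2 := by linarith
  set η₁ : ℝ := (2 + η) / 2 with hη₁
  set c : ℝ := η - η₁ with hcdef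
  set Lm : ℝ := max 1 ((5 : ℝ) ^ (1 / c)) with hLm
  refine ⟨max x₀ (Real.exp (Real.exp (Real.exp Lm))), ?_⟩
  intro x z hx hNx hz1 hz2
  have hx1 : x₀ ≤ x := (le_max_left _ _).trans hx
  have hx2 : Real.exp (Real.exp (Real.exp Lm)) ≤ x := (le_max_right _ _).trans hx
  rcases hx₀ x hx1 with h | ⟨t, ht1, ht2, ht3⟩
  · exact absurd hNx (not_lt.2 h)
  have hxpos : 0 < x := (Real.exp_pos _).trans_le hx2
  have l1 : Real.exp (Real.exp Lm) ≤ Real.log x := (Real.le_log_iff_exp_le hxpos).2 hx2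
  have l1p : 0 < Real.log x := (Real.exp_pos _).trans_le l1
  have l2 : Real.exp Lm ≤ Real.log (Real.log x) := (Real.le_log_iff_exp_le l1p).2 l1
  have l2p : 0 < Real.log (Real.log x) := (Real.exp_pos _).trans_le l2
  have l3 : Lm ≤ Real.log (Real.log (Real.log x)) := (Real.le_log_iff_exp_le l2p).2 l2
  set u : ℝ := Real.log (Real.log x) with hu
  set w : ℝ := Real.log u with hw
  have hL1 : 1 ≤ Lm := le_max_left _ _
  have hw1 : 1 ≤ w := hL1.trans l3
  have hw0 : 0 < w := by linarith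
  have h5 : 5 ≤ w ^ c := by
    calc (5 : ℝ) = ((5 : ℝ) ^ (1 / c)) ^ c := by
          rw [← Real.rpow_mul (by norm_num), one_div, inv_mul_cancel₀ hc.ne', Real.rpow_one]
      _ ≤ w ^ c := Real.rpow_le_rpow (Real.rpow_nonneg (by norm_num) _)
          ((le_max_right _ _).trans l3) hc.le
  have hwη : w ^ η = w ^ η₁ * w ^ c := by
    rw [← Real.rpow_add hw0]
    congr 1
    rw [hcdef]
    ring
  have hp1 : 0 < w ^ η₁ := Real.rpow_pos_of_pos hw0 _
  have hkey : 2 * (u / w ^ η) ≤ (u / w ^ η₁) * (1 / 2 - 1 / 20) := by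
    have h6 : 0 ≤ u / w ^ η₁ := div_nonneg l2p.le hp1.le
    have h7 : u / w ^ η = (u / w ^ η₁) / w ^ c := by
      rw [hwη, div_div]
    have h8 : (u / w ^ η₁) / w ^ c ≤ (u / w ^ η₁) / 5 :=
      div_le_div_of_nonneg_left h6 (by norm_num) h5
    rw [h7]
    linarith
  have hlx1 : Real.exp 1 ≤ Real.log x := by
    refine le_trans (Real.exp_le_exp.2 ?_) l1
    have := Real.add_one_le_exp Lm
    linarith
  have hlx2 : 1 ≤ Real.log x := by
    have := Real.add_one_le_exp (1 : ℝ)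
    linarith
  have hz3 : Real.exp 1 ≤ z := by
    refine le_trans hlx1 (le_trans ?_ hz1)
    exact le_self_pow₀ hlx2 (by norm_num)
  have hzpos : 0 < z := (Real.exp_pos _).trans_le hz3
  have hlz1 : 1 ≤ Real.log z := (Real.le_log_iff_exp_le hzpos).2 hz3
  have hlz2 : Real.log z ≤ Real.exp (u / w ^ η) := (Real.log_le_iff_le_exp hzpos).2 hz2
  calc (Real.log z) ^ (2 - ε) ≤ (Real.log z) ^ (2 : ℝ) :=
        Real.rpow_le_rpow_of_exponent_le hlz1 (by linarith)
    _ = (Real.log z) ^ 2 := by rw [← Real.rpow_natCast]; norm_num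
    _ ≤ (Real.exp (u / w ^ η)) ^ 2 := by
        exact pow_le_pow_left₀ (by linarith) hlz2 2
    _ = Real.exp (2 * (u / w ^ η)) := by
        rw [← Real.exp_nat_mul]
        norm_num
    _ ≤ Real.exp ((u / w ^ η₁) * (1 / 2 - 1 / 20)) := Real.exp_le_exp.2 hkey
    _ = (Real.exp (u / w ^ η₁)) ^ (1 / 2 - 1 / 20 : ℝ) := Real.exp_mul _ _
    _ ≤ t ^ (1 / 2 - 1 / 20 : ℝ) := Real.rpow_le_rpow (Real.exp_pos _).le ht1 (by norm_num)
    _ ≤ N t := ht3
    _ ≤ N z := hN (ht2.trans hz1)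

end SSX
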