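import Pool.Agent.SSX.Targets
import Pool.Agent.SSD.FML

/-!
# SSX-FM4: the family of the factors
-/

set_option autoImplicit false

open scoped BigOperators Classical
open Finset

namespace SSX

open SSC SSD

namespace FM4_

open SSD.FML_

/-- lower bound for the total weight -/
theorem low {S Q : Set ℕ} {A δ θ ε L : ℝ} {k : ℕ → ℕ} {J : ℕ} (hP : SSD.T_PRD) (hR : SSD.T_RAT)
    (hC : ClsT S Q A θ) (hL : 3 ≤ L) (hs : ∀ j, 2 ≤ sj A δ L j)
    (h2 : ∑ j ∈ range (J + 1), (k j : ℝ) * sj A δ L (j + 1) ≤ L / 16)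
    (h7 : (8 * L) ^ (4 * KK k J) ≤ Real.exp (ε * L))
    (h8 : ∀ j ∈ range (J + 1), 4 * (k j : ℝ) ^ 2 ≤ Real.exp (sj A δ L j)) :
    Real.exp (-(ε * L)) ≤ ∑ U ∈ FF (Wj Q A δ L) k J, wt U := by
  obtain ⟨hA, hQ, hM⟩ := hC
  rw [(hP _ k J (disj (by linarith) (by linarith [hs 0]))).2.1]
  have hlog : 0 ≤ Real.log L := Real.log_nonneg (by linarith)
  have hstep : ∀ j ∈ range (J + 1),
      Real.exp (-(k j * (Real.log L + 1))) ≤ em (Wj Q A δ L j) (k j) := by
    intro j hj
    have h3 : 1 ≤ ∑ l ∈ Wj Q A δ L j, 1 / (l : ℝ) := by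
      have h4 := (hM (sj A δ L j) (hs j)).1
      unfold Wj
      rw [sj_succ]
      exact h4
    have h5 := (hR (Wj Q A δ L j) ∅ (k j) (sj A δ L j) (empty_subset _)
      (fun l hl => (mem_Wj hl).2.2.1) h3 (h8 j hj)).2
    refine le_trans (Real.exp_le_exp.2 ?_) h5
    have h6 : Real.log ((k j : ℝ) + 1) ≤ Real.log L := by
      refine Real.log_le_log (by positivity) ?_
      have := kj_le hs h2 j hj
      linarith
    have h9 : (k j : ℝ) * (Real.log ((k j : ℝ) + 1) + 1) ≤ (k j : ℝ) * (Real.log L + 1) :=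
      mul_le_mul_of_nonneg_left (by linarith) (Nat.cast_nonneg _)
    linarith
  calc Real.exp (-(ε * L)) ≤ Real.exp (∑ j ∈ range (J + 1), -(k j * (Real.log L + 1))) := by
        refine Real.exp_le_exp.2 ?_
        rw [sum_neg_distrib, ← sum_mul]
        have h10 : (∑ j ∈ range (J + 1), (k j : ℝ)) = (KK k J : ℝ) := by
          unfold KK
          push_cast
          rfl
        rw [h10]
        have h11 : ((4 * KK k J : ℕ) : ℝ) * Real.log (8 * L) ≤ ε * L := by
          have h12 := Real.log_le_log (by positivity) h7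
          rw [Real.log_exp, Real.log_pow] at h12
          exact h12
        have h13 : Real.log L + 1 ≤ Real.log (8 * L) := by
          rw [Real.log_mul (by norm_num) (by linarith)]
          have h14 : (1 : ℝ) ≤ Real.log 8 := by
            rw [Real.le_log_iff_exp_le (by norm_num)]
            linarith [Real.exp_one_lt_d9]
          linarith
        have h15 : (KK k J : ℝ) * (Real.log L + 1) ≤ (KK k J : ℝ) * Real.log (8 * L) :=
          mul_le_mul_of_nonneg_left h13 (Nat.cast_nonneg _)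
        have h16 : 0 ≤ (KK k J : ℝ) * (Real.log L + 1) :=
          mul_nonneg (Nat.cast_nonneg _) (by linarith)
        push_cast at h11
        linarith
    _ = ∏ j ∈ range (J + 1), Real.exp (-(k j * (Real.log L + 1))) := by rw [Real.exp_sum]
    _ ≤ ∏ j ∈ range (J + 1), em (Wj Q A δ L j) (k j) :=
        prod_le_prod (fun j _ => (Real.exp_pos _).le) hstep

end FM4_

open SSD.FML_ in
/-- FM4 -/
theorem p_FM4 (hP : SSD.T_PRD) (hR : SSD.T_RAT) : T_FM4 := by
  intro S Q A δ θ κ Y J k hC _hδ _hθ _hκ hκ1 hY hPrm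
  have hA : (1 : ℝ) ≤ A := by linarith [hC.1]
  obtain ⟨-, h2, -, -, -, -, -, h7, h8, -, h10, hL⟩ := hPrm
  have hmono : Monotone (sj A δ (Real.log Y)) := sj_mono hA (by linarith)
  have hs : ∀ j, 2 ≤ sj A δ (Real.log Y) j := fun j => h10.trans (hmono (Nat.zero_le j))
  have hκL : κ * Real.log Y ≤ Real.log Y / 16 := by
    have := mul_le_mul_of_nonneg_right hκ1 (by linarith : (0 : ℝ) ≤ Real.log Y)
    linarith
  have hY1 : 1 ≤ Y := by
    by_contra hcon
    have h := Real.log_nonpos hY.le (not_le.1 hcon).le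
    linarith
  have hpr : ∀ U ∈ FF (Wj Q A δ (Real.log Y)) k J,
      ((∏ l ∈ U, l : ℕ) : ℝ) ≤ Y ^ κ := by
    intro U hU
    push_cast
    refine (prod_le hA (by linarith) hU).trans ?_
    rw [Real.rpow_def_of_pos hY]
    refine Real.exp_le_exp.2 (h2.trans (le_of_eq ?_))
    ring
  have hpr' : ∀ U ∈ FF (Wj Q A δ (Real.log Y)) k J,
      ((∏ l ∈ U, l : ℕ) : ℝ) ≤ Y ^ (1 / 16 : ℝ) := fun U hU =>
    (hpr U hU).trans (Real.rpow_le_rpow_of_exponent_le hY1 hκ1)
  refine ⟨?_, ?_, ?_, ?_⟩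
  · intro U hU
    refine ⟨(hP _ k J (disj hA (by linarith))).1 U hU, ?_, hpr' U hU⟩
    intro l hl
    exact hC.2.1 l (prime_of_mem hU hl).1
  · intro U hU l hl
    obtain ⟨-, -, j, -, hj⟩ := prime_of_mem hU hl
    refine lt_of_le_of_lt (Real.exp_le_exp.2 ?_) hj
    have h0 : sj A δ (Real.log Y) 0 = (Real.log (Real.log Y)) ^ (1 + δ) := by unfold sj; simp
    rw [← h0]
    exact hmono (Nat.zero_le j)
  · exact card_le hpr (Real.rpow_nonneg hY.le _)
  · have h := FM4_.low hP hR hC (by linarith) hs (h2.trans hκL) h7 h8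
    rw [Real.rpow_def_of_pos hY]
    refine le_trans (le_of_eq ?_) h
    congr 1
    ring

end SSX
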