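import Pool.Agent.SSX.Targets
import Pool.Agent.SSD.FML

/-!
# MP_d74fca_nt, project SSX: target KSA, primes which are not bad
-/

set_option autoImplicit false

open scoped BigOperators Classical
open Finset

namespace SSX

open SSC SSD

namespace KSA_

theorem wt_nonneg (U : Finset ℕ) : 0 ≤ wt U := by
  unfold wt
  exact Finset.prod_nonneg fun l _ => by positivity

/-- the allowed elements of the window -/
noncomputable def Aj (Q : Set ℕ) (A δ L : ℝ) (B : ℕ → Finset ℕ) (p j : ℕ) : Finset ℕ :=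
  (Wj Q A δ L j).filter fun l => SSN.ch p l = 1 ∨ l ∈ B p

theorem sg_eq {Q : Set ℕ} {A δ L : ℝ} {J : ℕ} {k : ℕ → ℕ} {B : ℕ → Finset ℕ} (p : ℕ) :
    sg (FF (Wj Q A δ L) k J) (B p) p =
      ∑ U ∈ (FF (Wj Q A δ L) k J).filter
        (fun U => ∀ j ∈ range (J + 1), U ∩ Wj Q A δ L j ⊆ Aj Q A δ L B p j), wt U := by
  unfold sg
  refine Finset.sum_congr ?_ fun _ _ => rfl
  ext U
  simp only [Finset.mem_filter]
  constructor
  · rintro ⟨hU, h⟩
    refine ⟨hU, fun j _ l hl => ?_⟩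
    obtain ⟨hl1, hl2⟩ := Finset.mem_inter.1 hl
    exact Finset.mem_filter.2 ⟨hl2, h l hl1⟩
  · rintro ⟨hU, h⟩
    refine ⟨hU, fun l hl => ?_⟩
    obtain ⟨j, hj, hlj⟩ := Finset.mem_biUnion.1 ((SSD.FML_.mem_FF.1 hU).1 hl)
    exact (Finset.mem_filter.1 (h j hj (Finset.mem_inter.2 ⟨hl, hlj⟩))).2

end KSA_

open KSA_

theorem p_KSA (h1 : T_SIG) : T_KSA := by
  intro S Q A δ θ κ L J k B hC hδ hθ hθ1 hP p
  obtain ⟨hA3, -, hCs⟩ := hC
  obtain ⟨-, -, -, -, -, -, -, -, p9, -, p11, -⟩ := hP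
  have hA1 : (1 : ℝ) ≤ A := by linarith
  have hs0 : 0 ≤ sj A δ L 0 := by linarith
  have hd := SSD.FML_.disj (Q := Q) hA1 hs0
  have hE0 : 0 ≤ ∑ U ∈ FF (Wj Q A δ L) k J, wt U := Finset.sum_nonneg fun U _ => wt_nonneg U
  have hw : ∀ j ∈ range (J + 1), (∀ l ∈ Wj Q A δ L j, Real.exp (sj A δ L j) < (l : ℝ)) ∧
      1 ≤ ∑ l ∈ Wj Q A δ L j, 1 / (l : ℝ) ∧ 4 * (k j : ℝ) ^ 2 ≤ Real.exp (sj A δ L j) := by
    intro j hj
    refine ⟨fun l hl => (SSD.FML_.mem_Wj hl).2.2.1, ?_, p9 j hj⟩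
    have h2 : 2 ≤ sj A δ L j := p11.trans (SSD.FML_.sj_mono hA1 hs0 (Nat.zero_le j))
    have h3 := (hCs (sj A δ L j) h2).1
    unfold Wj
    rw [SSD.FML_.sj_succ]
    exact h3
  have key : ∀ I ⊆ range (J + 1), (∀ j ∈ I, ¬ Bd Q A δ θ L B j p) →
      sg (FF (Wj Q A δ L) k J) (B p) p ≤
        (∏ j ∈ I, 2 * (1 / 2 + θ) ^ (k j)) * ∑ U ∈ FF (Wj Q A δ L) k J, wt U := by
    intro I hI hb
    rw [sg_eq]
    refine h1 (Wj Q A δ L) (Aj Q A δ L B p) k J (sj A δ L) (1 / 2 + θ) I hd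
      (fun j => Finset.filter_subset _ _) hI (by linarith) hw fun j hj => ?_
    exact not_lt.1 (hb j hj)
  refine ⟨fun hb => ?_, fun j hj hb => ?_, ?_⟩
  · refine (key (range (J + 1)) (Finset.Subset.refl _) hb).trans (le_of_eq ?_)
    rw [Finset.prod_mul_distrib, Finset.prod_const, Finset.card_range,
      Finset.prod_pow_eq_pow_sum]
    rfl
  · refine (key {j} (Finset.singleton_subset_iff.2 hj) fun i hi => ?_).trans ?_
    · rw [Finset.mem_singleton.1 hi]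
      exact hb
    · rw [Finset.prod_singleton]
      refine mul_le_mul_of_nonneg_right ?_ hE0
      refine mul_le_mul_of_nonneg_left ?_ (by norm_num)
      exact pow_le_pow_left₀ (by linarith) (by linarith) _
  · unfold sg
    exact Finset.sum_le_sum_of_subset_of_nonneg (Finset.filter_subset _ _)
      fun U _ _ => wt_nonneg U

end SSX
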