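import Pool.Agent.SSX.Targets

/-!
# KSC: bad primes are rare
-/

set_option autoImplicit false

open scoped BigOperators Classical
open Finset

namespace SSX

open SSC SSD

namespace KSC_

theorem e3 : (16 : ℝ) ≤ Real.exp 3 := by
  have h : Real.exp 3 = Real.exp 1 ^ 3 := by
    rw [← Real.exp_nat_mul]
    norm_num
  have h1 : (2.7182818283 : ℝ) < Real.exp 1 := Real.exp_one_gt_d9
  rw [h]
  calc (16 : ℝ) ≤ 2.7182818283 ^ 3 := by norm_num
    _ ≤ _ := pow_le_pow_left₀ (by norm_num) h1.le 3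

/-- the sets `B p` are small -/
theorem cardB (n : ℕ) (Y θ E : ℝ) (hY : 0 < Y) (hL : 100 ≤ Real.log Y) (hθ : 0 < θ)
    (hn : (2 : ℝ) ^ n ≤ 4 * Y ^ 4) (hE : 100 / θ * Real.log Y ≤ E) : (n : ℝ) ≤ θ / 4 * E := by
  have h1 : (n : ℝ) * Real.log 2 ≤ 2 * Real.log 2 + 4 * Real.log Y := by
    have h2 := Real.log_le_log (by positivity) hn
    rw [Real.log_pow, Real.log_mul (by norm_num) (by positivity), Real.log_pow] at h2
    have h3 : Real.log 4 = 2 * Real.log 2 := by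
      have h4 : (4 : ℝ) = 2 ^ 2 := by norm_num
      rw [h4, Real.log_pow]
      norm_num
    rw [h3] at h2
    push_cast at h2
    exact h2
  have h5 := Real.log_two_gt_d9
  have h6 : (n : ℝ) ≤ 8 * Real.log Y := by
    by_contra hc
    push Not at hc
    have h7 : 8 * Real.log Y * Real.log 2 < n * Real.log 2 :=
      mul_lt_mul_of_pos_right hc (by linarith)
    have h8 : 8 * Real.log Y * 0.69 ≤ 8 * Real.log Y * Real.log 2 :=
      mul_le_mul_of_nonneg_left (by linarith) (by linarith)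
    have h9 := Real.log_two_lt_d9
    linarith
  have h10 : θ / 4 * (100 / θ * Real.log Y) ≤ θ / 4 * E :=
    mul_le_mul_of_nonneg_left hE (by positivity)
  have h11 : θ / 4 * (100 / θ * Real.log Y) = 25 * Real.log Y := by
    field_simp
    norm_num
  linarith

theorem splitB (W Bp : Finset ℕ) (P : ℕ → Prop) [DecidablePred P] (s θ : ℝ)
    (hW : ∀ l ∈ W, Real.exp s < (l : ℝ)) (hB : (Bp.card : ℝ) ≤ θ / 4 * Real.exp s) :
    ∑ l ∈ W.filter (fun l => P l ∨ l ∈ Bp), 1 / (l : ℝ) ≤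
      ∑ l ∈ W.filter P, 1 / (l : ℝ) + θ / 4 := by
  have hs : 0 < Real.exp s := Real.exp_pos _
  have h1 : ∑ l ∈ W.filter (fun l => P l ∨ l ∈ Bp), 1 / (l : ℝ) ≤
      ∑ l ∈ W.filter P, 1 / (l : ℝ) + ∑ l ∈ W.filter (fun l => l ∈ Bp), 1 / (l : ℝ) := by
    rw [Finset.filter_or, ← Finset.sum_union_inter]
    have h2 : (0 : ℝ) ≤ ∑ l ∈ W.filter P ∩ W.filter (fun l => l ∈ Bp), 1 / (l : ℝ) :=
      Finset.sum_nonneg fun l _ => by positivity
    linarith
  have h3 : ∑ l ∈ W.filter (fun l => l ∈ Bp), 1 / (l : ℝ) ≤ θ / 4 := by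
    calc ∑ l ∈ W.filter (fun l => l ∈ Bp), 1 / (l : ℝ)
        ≤ ∑ l ∈ W.filter (fun l => l ∈ Bp), 1 / Real.exp s := by
          refine Finset.sum_le_sum fun l hl => ?_
          exact one_div_le_one_div_of_le hs (hW l (Finset.mem_filter.1 hl).1).le
      _ = ((W.filter (fun l => l ∈ Bp)).card : ℝ) * (1 / Real.exp s) := by
          rw [Finset.sum_const, nsmul_eq_mul]
      _ ≤ (Bp.card : ℝ) * (1 / Real.exp s) := by
          apply mul_le_mul_of_nonneg_right _ (by positivity)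
          exact_mod_cast Finset.card_le_card fun l hl => (Finset.mem_filter.1 hl).2
      _ ≤ θ / 4 * Real.exp s * (1 / Real.exp s) := by
          apply mul_le_mul_of_nonneg_right hB (by positivity)
      _ = θ / 4 := by
          field_simp
  linarith

theorem sj_succ (A δ L : ℝ) (j : ℕ) : sj A δ L (j + 1) = A * sj A δ L j := by
  unfold sj
  rw [pow_succ]
  ring

theorem sj_ge (A δ L : ℝ) (j : ℕ) (hA : 1 ≤ A) (h0 : 0 ≤ sj A δ L 0) :
    sj A δ L 0 ≤ sj A δ L j := by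
  induction j with
  | zero => exact le_rfl
  | succ j ih =>
    rw [sj_succ]
    exact ih.trans (le_mul_of_one_le_left (h0.trans ih) hA)

theorem mem_W (Q : Set ℕ) (A δ L : ℝ) (j l : ℕ) (hl : l ∈ Wj Q A δ L j) :
    l.Prime ∧ Real.exp (sj A δ L j) < (l : ℝ) ∧ (l : ℝ) ≤ Real.exp (A * sj A δ L j) ∧ l ∈ Q := by
  unfold Wj pri at hl
  rw [Finset.mem_filter, Finset.mem_filter, Finset.mem_Icc] at hl
  refine ⟨hl.1.2.1, hl.1.2.2, ?_, hl.2⟩
  rw [← sj_succ]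
  exact (Nat.le_floor_iff (Real.exp_pos _).le).1 hl.1.1.2

theorem count (h1 : T_BDC) (S Q : Set ℕ) (A δ θ Y v : ℝ) (j m : ℕ) (B : ℕ → Finset ℕ)
    (hC : ClsT S Q A θ) (hS : ∀ p ∈ S, p.Prime ∧ p ≠ 2) (hθ : 0 < θ) (hθ2 : θ ≤ 1 / 20)
    (hY : 0 < Y) (hL : 100 ≤ Real.log Y)
    (hB : ∀ p, (2 : ℝ) ^ (B p).card ≤ 4 * Y ^ 4)
    (hE : 100 / θ * Real.log Y ≤ Real.exp (sj A δ (Real.log Y) 0))
    (hs2 : 2 ≤ sj A δ (Real.log Y) 0) (hm : 1 ≤ m)
    (hv : 3 * v + 3 ≤ m * sj A δ (Real.log Y) j) :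
    ((((Icc 1 ⌊Real.exp v⌋₊).filter fun p : ℕ => p ∈ S ∧
      Bd Q A δ θ (Real.log Y) B j p).card : ℕ) : ℝ) ≤
      m.factorial * (1 / θ ^ 2) ^ m * (A * m * sj A δ (Real.log Y) j + 3) := by
  obtain ⟨hA, hQ, hCs⟩ := hC
  have hsj := sj_ge A δ (Real.log Y) j (by linarith) (by linarith)
  have hEj : 100 / θ * Real.log Y ≤ Real.exp (sj A δ (Real.log Y) j) :=
    hE.trans (Real.exp_le_exp.2 hsj)
  refine h1 (Wj Q A δ (Real.log Y) j) _ B (Real.exp v) (sj A δ (Real.log Y) j) A θ m hm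
    (by linarith) (by linarith) hθ (by linarith) ?_ ?_ ?_ ?_ ?_
  · intro l hl
    obtain ⟨a1, a2, a3, a4⟩ := mem_W Q A δ (Real.log Y) j l hl
    exact ⟨a1, (hQ l a4).2.1, a2, a3⟩
  · intro p hp
    rw [Finset.mem_filter, Finset.mem_Icc] at hp
    refine ⟨(hS p hp.2.1).1, (hS p hp.2.1).2, ?_, ?_⟩
    · exact (Nat.le_floor_iff (Real.exp_pos _).le).1 hp.1.2
    · exact cardB _ Y θ _ hY hL hθ (hB p) hEj
  · calc 16 * Real.exp v ^ 3 ≤ Real.exp 3 * Real.exp v ^ 3 := by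
          apply mul_le_mul_of_nonneg_right e3 (by positivity)
      _ = Real.exp (3 + (3 : ℕ) * v) := by
          rw [Real.exp_add, Real.exp_nat_mul]
      _ ≤ _ := by
          apply Real.exp_le_exp.2
          push_cast
          linarith
  · have h2 := (hCs (sj A δ (Real.log Y) j) (by linarith)).1
    rw [← sj_succ] at h2
    exact h2
  · intro p hp
    rw [Finset.mem_filter] at hp
    exact hp.2.2

end KSC_

open KSC_ in
theorem p_KSC (h1 : T_BDC) : T_KSC := by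
  intro S Q A δ θ κ Y J k B hC hS hδ hθ hθ2 hY hP hB
  obtain ⟨q1, q2, q3, q4, q5, q6, q7, q8, q9, q10, q11, q12⟩ := hP
  refine ⟨?_, ?_, ?_⟩
  · intro p hp hpK hBd
    obtain ⟨hA, hQ, hCs⟩ := hC
    have hsj := sj_ge A δ (Real.log Y) J (by linarith) (by linarith)
    have hEj : 100 / θ * Real.log Y ≤ Real.exp (sj A δ (Real.log Y) J) :=
      q10.trans (Real.exp_le_exp.2 hsj)
    obtain ⟨c1, c2⟩ := hCs (sj A δ (Real.log Y) J) (by linarith)
    have c3 := c2 p hp (hpK.trans (Real.exp_le_exp.2 q1))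
    rw [← sj_succ] at c1 c3
    have c4 := splitB (Wj Q A δ (Real.log Y) J) (B p) (fun l => SSN.ch p l = 1)
      (sj A δ (Real.log Y) J) θ (fun l hl => (mem_W Q A δ (Real.log Y) J l hl).2.1)
      (cardB _ Y θ _ hY q12 hθ (hB p) hEj)
    have c5 : ∑ l ∈ (Wj Q A δ (Real.log Y) J).filter (fun l => SSN.ch p l = 1), 1 / (l : ℝ) ≤
        (1 / 2 + θ / 2) * ∑ l ∈ Wj Q A δ (Real.log Y) J, 1 / (l : ℝ) := by
      refine le_trans (le_of_eq ?_) c3
      unfold Wj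
      rw [Finset.filter_filter]
    have c6 : 1 ≤ ∑ l ∈ Wj Q A δ (Real.log Y) J, 1 / (l : ℝ) := c1
    unfold Bd at hBd
    have c7 : (1 / 2 + θ) * ∑ l ∈ Wj Q A δ (Real.log Y) J, 1 / (l : ℝ) <
        ∑ l ∈ (Wj Q A δ (Real.log Y) J).filter (fun l => SSN.ch p l = 1), 1 / (l : ℝ) + θ / 4 := by
      exact lt_of_lt_of_le hBd c4
    have c8 : θ ≤ θ * ∑ l ∈ Wj Q A δ (Real.log Y) J, 1 / (l : ℝ) :=
      le_mul_of_one_le_right hθ.le c6
    have c9 : (1 / 2 + θ) * ∑ l ∈ Wj Q A δ (Real.log Y) J, 1 / (l : ℝ) <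
        (1 / 2 + θ / 2) * ∑ l ∈ Wj Q A δ (Real.log Y) J, 1 / (l : ℝ) + θ / 4 := by linarith
    generalize ∑ l ∈ Wj Q A δ (Real.log Y) J, 1 / (l : ℝ) = w at c8 c9
    have c10 : (1 / 2 + θ) * w = (1 / 2 + θ / 2) * w + (θ * w) / 2 := by ring
    linarith
  · intro j hj
    obtain ⟨m, m1, m2, m3⟩ := q6 j hj
    have h2 := count h1 S Q A δ θ Y (4 * (KK k J : ℝ)) j m B hC hS hθ hθ2 hY q12 hB q10 q11 m1
      (by linarith)
    have hL8 : 0 < (Real.log Y) ^ 8 := by positivity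
    rw [le_div_iff₀ hL8]
    refine le_trans ?_ m3
    apply mul_le_mul_of_nonneg_right _ hL8.le
    exact mul_le_mul_of_nonneg_right h2 (by positivity)
  · intro j hj v hv1 hv2
    obtain ⟨m, m1, m2, m3⟩ := q7 j hj v hv1 hv2
    exact (count h1 S Q A δ θ Y v j m B hC hS hθ hθ2 hY q12 hB q10 q11 m1 m2).trans m3

end SSX
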