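import Pool.Agent.SSX.Targets

/-!
# Project SSX, lemma LD4: the local dichotomy (from DI4)
-/

set_option autoImplicit false
set_option maxHeartbeats 4000000

open scoped BigOperators Classical
open Finset

namespace SSX

open SSC SSD

namespace LD4_

/-- the conditions on `x` -/
lemma ev (Y₀ e η : ℝ) (he : 0 < e) (hη : 2 < η) : ∀ᶠ x : ℝ in Filter.atTop,
    1 < x ∧ 16 ≤ Real.log x ∧ Y₀ ≤ (Real.log x) ^ (1 / (1 + e)) ∧ 4 ≤ Real.log (Real.log x) ∧
    1 ≤ Real.log (Real.log (Real.log x)) ∧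
    2 ≤ (Real.log (Real.log (Real.log x))) ^ ((η - 2) / 2) := by
  have h1 : Filter.Tendsto Real.log Filter.atTop Filter.atTop := Real.tendsto_log_atTop
  have h2 : Filter.Tendsto (fun x : ℝ => Real.log (Real.log x)) Filter.atTop Filter.atTop :=
    h1.comp h1
  have h3 : Filter.Tendsto (fun x : ℝ => Real.log (Real.log (Real.log x))) Filter.atTop
    Filter.atTop := h1.comp h2
  have h4 : Filter.Tendsto (fun x : ℝ => (Real.log x) ^ (1 / (1 + e))) Filter.atTop
    Filter.atTop := (tendsto_rpow_atTop (by positivity)).comp h1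
  have h5 : Filter.Tendsto (fun x : ℝ => (Real.log (Real.log (Real.log x))) ^ ((η - 2) / 2))
    Filter.atTop Filter.atTop := (tendsto_rpow_atTop (by linarith)).comp h3
  filter_upwards [Filter.eventually_gt_atTop 1, h1.eventually_ge_atTop 16,
    h4.eventually_ge_atTop Y₀, h2.eventually_ge_atTop 4, h3.eventually_ge_atTop 1,
    h5.eventually_ge_atTop 2] with x a b c d f g
  exact ⟨a, b, c, d, f, g⟩

/-- comparison of the lower ends of the ranges of `t` -/
lemma low (u e δ η : ℝ) (he : 0 < e) (he1 : e ≤ 1 / 4) (hδ : 0 < δ) (_hη : 2 < η)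
    (hδη : 3 * δ ≤ (η - 2) / 2) (hu : 4 ≤ u) (hl : 1 ≤ Real.log u)
    (hl2 : 2 ≤ (Real.log u) ^ ((η - 2) / 2)) :
    u / (Real.log u) ^ η ≤ (u / (1 + e)) / (Real.log (u / (1 + e))) ^ (2 + 3 * δ) := by
  have hL : 1 < u / (1 + e) := by
    rw [lt_div_iff₀ (by linarith)]
    linarith
  have hL2 : u / 2 ≤ u / (1 + e) := by
    apply div_le_div_of_nonneg_left (by linarith) (by linarith) (by linarith)
  have hLu : u / (1 + e) ≤ u := by
    apply div_le_self (by linarith) (by linarith)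
  have hlam : 0 < Real.log (u / (1 + e)) := Real.log_pos hL
  have hlam2 : Real.log (u / (1 + e)) ≤ Real.log u := Real.log_le_log (by linarith) hLu
  have hpow : 0 < (Real.log (u / (1 + e))) ^ (2 + 3 * δ) := Real.rpow_pos_of_pos hlam _
  have hpow2 : (Real.log (u / (1 + e))) ^ (2 + 3 * δ) ≤ (Real.log u) ^ (2 + 3 * δ) :=
    Real.rpow_le_rpow hlam.le hlam2 (by linarith)
  have hlp : 0 < Real.log u := by linarith
  have h1 : (Real.log u) ^ η = (Real.log u) ^ (2 + 3 * δ) * (Real.log u) ^ (η - (2 + 3 * δ)) := by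
    rw [← Real.rpow_add hlp]
    congr 1
    ring
  have h2 : 2 ≤ (Real.log u) ^ (η - (2 + 3 * δ)) :=
    hl2.trans (Real.rpow_le_rpow_of_exponent_le hl (by linarith))
  have h3 : 0 < (Real.log u) ^ (2 + 3 * δ) := Real.rpow_pos_of_pos hlp _
  calc u / (Real.log u) ^ η ≤ u / ((Real.log u) ^ (2 + 3 * δ) * 2) := by
        apply div_le_div_of_nonneg_left (by linarith) (by positivity)
        rw [h1]
        exact mul_le_mul_of_nonneg_left h2 h3.le
    _ = (u / 2) / (Real.log u) ^ (2 + 3 * δ) := by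
        rw [div_div, mul_comm]
    _ ≤ (u / (1 + e)) / (Real.log u) ^ (2 + 3 * δ) :=
        div_le_div_of_nonneg_right hL2 h3.le
    _ ≤ (u / (1 + e)) / (Real.log (u / (1 + e))) ^ (2 + 3 * δ) :=
        div_le_div_of_nonneg_left (by linarith) hpow hpow2

end LD4_

open LD4_

theorem p_LD4 (h : T_DI4) : T_LD4 := by
  intro S Kl M ρ hD hC ε ε' η hε hε' hε'4 hη
  obtain ⟨δ, hδ⟩ : ∃ δ, δ = min 1 ((η - 2) / 6) := ⟨_, rfl⟩
  have hδ0 : 0 < δ := by
    rw [hδ]
    exact lt_min one_pos (by linarith)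
  have hδ1 : δ ≤ 1 := by
    rw [hδ]
    exact min_le_left _ _
  have hδη : 3 * δ ≤ (η - 2) / 2 := by
    have : δ ≤ (η - 2) / 6 := by
      rw [hδ]
      exact min_le_right _ _
    linarith
  obtain ⟨e, hedef⟩ : ∃ e, e = min (ε / 3) (1 / 4) := ⟨_, rfl⟩
  have he0 : 0 < e := by
    rw [hedef]
    exact lt_min (by linarith) (by norm_num)
  have he4 : e ≤ 1 / 4 := by
    rw [hedef]
    exact min_le_right _ _
  have he3 : 3 * e ≤ ε := by
    have : e ≤ ε / 3 := by
      rw [hedef]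
      exact min_le_left _ _
    linarith
  obtain ⟨Y₀, -, hY₀⟩ := h S Kl M ρ hD hC δ ε' e hδ0 hδ1 hε' hε'4 he0 (by linarith)
  obtain ⟨x₀, hx₀⟩ := Filter.eventually_atTop.1 (ev Y₀ e η he0 hη)
  refine ⟨x₀, fun x hx => ?_⟩
  obtain ⟨hx1, hlx, hYx, hllx, hl3, hl3'⟩ := hx₀ x hx
  have hlx0 : 0 < Real.log x := by linarith
  have hlx1 : 1 ≤ Real.log x := by linarith
  obtain ⟨Y, hYdef⟩ : ∃ Y, Y = (Real.log x) ^ (1 / (1 + e)) := ⟨_, rfl⟩
  rw [← hYdef] at hYx
  have hY0 : 0 < Y := by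
    rw [hYdef]
    exact Real.rpow_pos_of_pos hlx0 _
  have hYe : Y ^ (1 + e) = Real.log x := by
    rw [hYdef, ← Real.rpow_mul hlx0.le, one_div, inv_mul_cancel₀ (by linarith), Real.rpow_one]
  have hYle : Y ≤ Real.log x := by
    rw [hYdef]
    calc (Real.log x) ^ (1 / (1 + e)) ≤ (Real.log x) ^ (1 : ℝ) := by
          apply Real.rpow_le_rpow_of_exponent_le hlx1
          rw [div_le_one (by linarith)]
          linarith
      _ = Real.log x := Real.rpow_one _
  have hlY : Real.log Y = Real.log (Real.log x) / (1 + e) := by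
    rw [hYdef, Real.log_rpow hlx0]
    ring
  by_cases hUB : UB S ε' (2 + 3 * δ) Y
  · left
    have h1 := hY₀ Y hYx hUB
    rw [hYe, Real.exp_log (by linarith)] at h1
    refine le_trans ?_ h1
    rw [hYdef, ← Real.rpow_mul hlx0.le]
    apply Real.rpow_le_rpow_of_exponent_le hlx1
    rw [one_div, inv_mul_eq_div, le_div_iff₀ (by linarith)]
    nlinarith [mul_pos hε he0]
  · right
    unfold UB at hUB
    push Not at hUB
    obtain ⟨t, ht1, ht2, ht3⟩ := hUB
    refine ⟨t, ?_, ?_, ht3.le⟩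
    · refine le_trans ?_ ht1
      apply Real.exp_le_exp.2
      rw [hlY]
      exact low _ e δ η he0 he4 hδ0 hη hδη hllx hl3 hl3'
    · calc t ≤ 16 * Y ^ 4 := ht2
        _ ≤ Real.log x * (Real.log x) ^ 4 := by
            apply mul_le_mul hlx _ (by positivity) hlx0.le
            exact pow_le_pow_left₀ hY0.le hYle 4
        _ = (Real.log x) ^ 5 := by ring

end SSX
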