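import Pool.Agent.SSX.Targets

/-!
# MP_d74fca_nt, project SSX, target LO4: the number of tuples
-/

set_option autoImplicit false

open scoped BigOperators Classical
open Finset

namespace SSX

open SSC SSD

namespace LO4_

theorem sqf_prod (T : Finset ℕ) (hT : ∀ l ∈ T, l.Prime) : Squarefree (∏ l ∈ T, l) := by
  induction T using Finset.induction_on with
  | empty => simp
  | insert a s ha ih =>
    rw [Finset.prod_insert ha, Nat.squarefree_mul_iff]
    refine ⟨?_, (hT a (mem_insert_self a s)).prime.squarefree,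
      ih fun l hl => hT l (mem_insert_of_mem hl)⟩
    apply Nat.Coprime.prod_right
    intro l hl
    rw [Nat.coprime_primes (hT a (mem_insert_self a s)) (hT l (mem_insert_of_mem hl))]
    rintro rfl
    exact ha hl

end LO4_

open LO4_ in
theorem p_LO4 (h1 : T_HL4) : T_LO4 := by
  intro M ρ δ ε η hM hρ hρ2 hδ hε hε2 hη
  obtain ⟨Y₁, hY₁, H⟩ := h1 M ρ δ ε η hM hρ hρ2 hδ hε hε2 hη
  refine ⟨Y₁, hY₁, ?_⟩
  intro Y S K F hY hS hUB hF hFl
  have hY32 : 32 ≤ Y := hY₁.trans hY
  have hY0 : 0 < Y := by linarith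
  -- the number of tuples as a double sum
  have hcard : ((UG S M ρ Y F).card : ℝ) =
      ∑ a ∈ AA S Y, ∑ T ∈ F,
        (((Icc 1 (2 * ⌊Y⌋₊)).filter fun h => h ∈ HH S M ρ a (∏ l ∈ T, l)).card : ℝ) := by
    rw [UG, Finset.card_filter, Finset.sum_product]
    push_cast
    apply Finset.sum_congr rfl
    intro a _
    rw [Finset.sum_product]
    apply Finset.sum_congr rfl
    intro T _
    rw [Finset.card_filter]
    push_cast
    rfl
  rw [hcard, RR, Finset.sum_div, Finset.sum_mul]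
  apply Finset.sum_le_sum
  intro a ha
  rw [Finset.mul_sum]
  apply Finset.sum_le_sum
  intro T hT
  obtain ⟨-, hTl, hTY⟩ := hF T hT
  have haf := (Finset.mem_filter.1 ha).1
  obtain ⟨ha1, hap, ha16⟩ := Finset.mem_filter.1 haf
  have haY : a ≤ ⌊Y⌋₊ := (Finset.mem_Icc.1 ha1).2
  have haY' : (a : ℝ) ≤ Y := (Nat.le_floor_iff hY0.le).1 haY
  have hΛ : ((∏ l ∈ T, l : ℕ) : ℝ) ≤ Y ^ (1 / 4 : ℝ) := by
    refine hTY.trans ?_
    apply Real.rpow_le_rpow_of_exponent_le (by linarith) (by norm_num)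
  have hH := H Y S a (∏ l ∈ T, l) hY hS hUB hap ha16 haY'
    (sqf_prod T fun l hl => (hTl l hl).1) hΛ (by
      intro l hl hld
      obtain ⟨l', hl', hll⟩ := (hl.prime.dvd_finsetProd_iff _).1 hld
      have : l = l' := (Nat.prime_dvd_prime_iff_eq hl (hTl l' hl').1).1 hll
      subst this
      exact ⟨hFl T hT l hl', (hTl l hl').2.2⟩)
  have hsub : (HH S M ρ a (∏ l ∈ T, l)).card ≤
      ((Icc 1 (2 * ⌊Y⌋₊)).filter fun h => h ∈ HH S M ρ a (∏ l ∈ T, l)).card := by
    apply Finset.card_le_card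
    intro h hh
    rw [Finset.mem_filter]
    refine ⟨?_, hh⟩
    have h7 := (Finset.mem_filter.1 hh).1
    rw [Finset.mem_Icc] at h7 ⊢
    omega
  have e1 : (a : ℝ) / (Real.log Y) ^ 3 * wt T =
      (a : ℝ) / ((∏ l ∈ T, l : ℕ) : ℝ) / (Real.log Y) ^ 3 := by
    rw [wt]
    push_cast
    rw [Finset.prod_div_distrib]
    simp only [Finset.prod_const_one]
    ring
  rw [e1]
  exact hH.trans (by exact_mod_cast hsub)

end SSX
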