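import Pool.Agent.SSX.Targets

set_option autoImplicit false
set_option maxHeartbeats 4000000

open scoped BigOperators Classical
open Finset

namespace SSX

open SSC SSD

namespace MEA_

/-- an exceptional number `v` is far below `v₁` or close to `v₁` -/
theorem step (N : ℝ → ℝ) (ε x₀ v v₁ : ℝ)
    (h : ∀ x z : ℝ, x₀ ≤ x → N x < (Real.log x) ^ (2 - ε) → (Real.log x) ^ 5 ≤ z →
      z ≤ Real.exp (Real.exp (Real.log (Real.log x) /
        (Real.log (Real.log (Real.log x))) ^ (3 : ℝ))) →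
      (Real.log z) ^ (2 - ε) ≤ N z)
    (hx : x₀ ≤ Real.exp (Real.exp (Real.exp v₁))) (hv1 : 1 ≤ v₁)
    (h1 : N (Real.exp (Real.exp (Real.exp v₁))) <
      (Real.log (Real.exp (Real.exp (Real.exp v₁)))) ^ (2 - ε))
    (h2 : N (Real.exp (Real.exp (Real.exp v))) <
      (Real.log (Real.exp (Real.exp (Real.exp v)))) ^ (2 - ε)) :
    v ≤ Real.log (v₁ + 2) ∨ v₁ - 3 * Real.log v₁ ≤ v := by
  by_contra hc
  push Not at hc
  obtain ⟨ha, hb⟩ := hc
  have hlow : (Real.log (Real.exp (Real.exp (Real.exp v₁)))) ^ 5 ≤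
      Real.exp (Real.exp (Real.exp v)) := by
    rw [Real.log_exp]
    have e1 : Real.exp (Real.exp v₁) ^ 5 = Real.exp (5 * Real.exp v₁) := by
      rw [← Real.exp_nat_mul]
      norm_num
    rw [e1]
    apply Real.exp_le_exp.mpr
    have h5 : (5 : ℝ) ≤ Real.exp 2 := by
      have h271 : (2.7182818283 : ℝ) < Real.exp 1 := Real.exp_one_gt_d9
      have e2 : Real.exp 2 = Real.exp 1 * Real.exp 1 := by
        rw [← Real.exp_add]
        norm_num
      rw [e2]
      nlinarith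
    have h6 : v₁ + 2 ≤ Real.exp v := by
      have h7 : Real.exp (Real.log (v₁ + 2)) ≤ Real.exp v := Real.exp_le_exp.mpr ha.le
      rwa [Real.exp_log (by linarith)] at h7
    calc 5 * Real.exp v₁ ≤ Real.exp 2 * Real.exp v₁ :=
          mul_le_mul_of_nonneg_right h5 (Real.exp_pos _).le
      _ = Real.exp (v₁ + 2) := by rw [← Real.exp_add, add_comm]
      _ ≤ Real.exp (Real.exp v) := Real.exp_le_exp.mpr h6
  have hup : Real.exp (Real.exp (Real.exp v)) ≤
      Real.exp (Real.exp (Real.log (Real.log (Real.exp (Real.exp (Real.exp v₁)))) /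
        (Real.log (Real.log (Real.log (Real.exp (Real.exp (Real.exp v₁)))))) ^ (3 : ℝ))) := by
    rw [Real.log_exp, Real.log_exp, Real.log_exp]
    apply Real.exp_le_exp.mpr
    apply Real.exp_le_exp.mpr
    have hp : 0 < v₁ := by linarith
    rw [le_div_iff₀ (Real.rpow_pos_of_pos hp _), Real.rpow_def_of_pos hp, ← Real.exp_add]
    apply Real.exp_le_exp.mpr
    linarith
  exact absurd h2 (not_lt.mpr (h _ _ hx h1 hlow hup))

/-- the final inequality -/
theorem fin_ineq (v₀ V v₁ : ℝ) (h0 : 1 ≤ v₀) (hV : Real.exp 1 ≤ V) (hv1 : 1 ≤ v₁)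
    (hv1V : v₁ ≤ V) :
    v₀ + (Real.log (v₁ + 2) + (3 * Real.log v₁ + 1)) ≤ (v₀ + 6) * Real.log V := by
  have h271 : (2.7182818283 : ℝ) < Real.exp 1 := Real.exp_one_gt_d9
  have hV2 : 2 ≤ V := by linarith
  have hl : 1 ≤ Real.log V := by
    rw [Real.le_log_iff_exp_le (by linarith)]
    exact hV
  have h1 : Real.log v₁ ≤ Real.log V := Real.log_le_log (by linarith) hv1V
  have h2 : Real.log (v₁ + 2) ≤ 2 * Real.log V := by
    have h3 : Real.log (v₁ + 2) ≤ Real.log (V ^ 2) := by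
      apply Real.log_le_log (by linarith)
      nlinarith
    rw [Real.log_pow] at h3
    push_cast at h3
    exact h3
  nlinarith

end MEA_

theorem p_MEA : T_MEA := by
  intro N hN ε hε
  obtain ⟨x₀, hx₀⟩ := hN ε 3 hε (by norm_num)
  -- the number `v₀`
  obtain ⟨v₀, hv₀, hv₀x⟩ : ∃ v₀ : ℝ, 1 ≤ v₀ ∧ ∀ v : ℝ, v₀ ≤ v →
      x₀ ≤ Real.exp (Real.exp (Real.exp v)) := by
    refine ⟨max 1 x₀, le_max_left _ _, fun v hv => ?_⟩
    have h1 : x₀ ≤ v := (le_max_right _ _).trans hv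
    have h2 : v ≤ Real.exp v := by linarith [Real.add_one_le_exp v]
    have h3 : Real.exp v ≤ Real.exp (Real.exp v) := by
      linarith [Real.add_one_le_exp (Real.exp v)]
    have h4 : Real.exp (Real.exp v) ≤ Real.exp (Real.exp (Real.exp v)) := by
      linarith [Real.add_one_le_exp (Real.exp (Real.exp v))]
    linarith
  refine ⟨v₀ + 6, Real.exp 1, fun V hV => ?_⟩
  set F : Set ℝ := {v : ℝ | 0 ≤ v ∧ v ≤ V ∧ N (Real.exp (Real.exp (Real.exp v))) <
    (Real.log (Real.exp (Real.exp (Real.exp v)))) ^ (2 - ε)} with hF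
  have h271 : (2.7182818283 : ℝ) < Real.exp 1 := Real.exp_one_gt_d9
  have hV1 : 1 ≤ V := by linarith
  by_cases hne : ∃ v ∈ F, v₀ ≤ v
  · obtain ⟨w, hwF, hw⟩ := hne
    have hbdd : BddAbove F := ⟨V, fun v hv => hv.2.1⟩
    have hws : w ≤ sSup F := le_csSup hbdd hwF
    obtain ⟨v₁, hv₁F, hv₁, hv₁s⟩ : ∃ v₁ ∈ F, v₀ ≤ v₁ ∧ sSup F - 1 ≤ v₁ := by
      by_cases hs : sSup F - 1 < v₀
      · exact ⟨w, hwF, hw, by linarith⟩
      · push Not at hs
        obtain ⟨v₁, hv₁F, h1⟩ := exists_lt_of_lt_csSup ⟨w, hwF⟩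
          (show sSup F - 1 < sSup F by linarith)
        exact ⟨v₁, hv₁F, by linarith, h1.le⟩
    have hv₁1 : 1 ≤ v₁ := hv₀.trans hv₁
    have hsub : F ⊆ Set.Icc 0 v₀ ∪ (Set.Icc 0 (Real.log (v₁ + 2)) ∪
        Set.Icc (v₁ - 3 * Real.log v₁) (v₁ + 1)) := by
      intro v hv
      have hv0 : 0 ≤ v := hv.1
      have hvs : v ≤ v₁ + 1 := by linarith [le_csSup hbdd hv]
      rcases MEA_.step N ε x₀ v v₁ hx₀ (hv₀x v₁ hv₁) hv₁1 hv₁F.2.2 hv.2.2 with h | h
      · exact Or.inr (Or.inl ⟨hv0, h⟩)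
      · exact Or.inr (Or.inr ⟨h, hvs⟩)
    have hlog1 : 0 ≤ Real.log (v₁ + 2) := Real.log_nonneg (by linarith)
    have hlog2 : 0 ≤ Real.log v₁ := Real.log_nonneg (by linarith)
    calc MeasureTheory.volume F
        ≤ MeasureTheory.volume (Set.Icc 0 v₀ ∪ (Set.Icc 0 (Real.log (v₁ + 2)) ∪
          Set.Icc (v₁ - 3 * Real.log v₁) (v₁ + 1))) := MeasureTheory.measure_mono hsub
      _ ≤ MeasureTheory.volume (Set.Icc 0 v₀) + (MeasureTheory.volume
            (Set.Icc 0 (Real.log (v₁ + 2))) +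
            MeasureTheory.volume (Set.Icc (v₁ - 3 * Real.log v₁) (v₁ + 1))) := by
          refine (MeasureTheory.measure_union_le _ _).trans ?_
          gcongr
          exact MeasureTheory.measure_union_le _ _
      _ = ENNReal.ofReal (v₀ + (Real.log (v₁ + 2) + (3 * Real.log v₁ + 1))) := by
          rw [Real.volume_Icc, Real.volume_Icc, Real.volume_Icc,
            ← ENNReal.ofReal_add (by linarith) (by linarith),
            ← ENNReal.ofReal_add (by linarith) (by linarith)]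
          congr 1
          ring
      _ ≤ ENNReal.ofReal ((v₀ + 6) * Real.log V) :=
          ENNReal.ofReal_le_ofReal (MEA_.fin_ineq v₀ V v₁ hv₀ hV hv₁1 hv₁F.2.1)
  · push Not at hne
    have hsub : F ⊆ Set.Icc 0 v₀ := fun v hv => ⟨hv.1, (hne v hv).le⟩
    calc MeasureTheory.volume F ≤ MeasureTheory.volume (Set.Icc 0 v₀) :=
          MeasureTheory.measure_mono hsub
      _ = ENNReal.ofReal v₀ := by rw [Real.volume_Icc, sub_zero]
      _ ≤ ENNReal.ofReal ((v₀ + 6) * Real.log V) := by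
          apply ENNReal.ofReal_le_ofReal
          have h1 := MEA_.fin_ineq v₀ V 1 hv₀ hV le_rfl hV1
          have hlog1 : 0 ≤ Real.log ((1 : ℝ) + 2) := Real.log_nonneg (by norm_num)
          have hlog2 : 0 ≤ Real.log (1 : ℝ) := by simp
          linarith

end SSX
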