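import Pool.Agent.SSX.Targets

/-!
# MP_d74fca_nt, project SSX: the parameters exist (job PA4)
-/

set_option autoImplicit false
set_option maxHeartbeats 4000000

open scoped BigOperators Classical
open Finset

namespace SSX

open SSC SSD

namespace PA4_

/-- all the size conditions on `L`, `l = log L` -/
def Good (δ θ κ L : ℝ) : Prop :=
  100 ≤ L ∧ 2 ≤ Real.log L ∧ 8 ≤ (Real.log L) ^ δ ∧ 32 / κ ≤ Real.log L ∧
  Real.log (100 / θ) ≤ Real.log L ∧ 13 * (Real.log L) ^ 5 ≤ θ * L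

theorem ev_good (δ θ κ : ℝ) (hδ : 0 < δ) (hθ : 0 < θ) :
    ∃ L₁ : ℝ, ∀ L : ℝ, L₁ ≤ L → Good δ θ κ L := by
  have hlog := Real.tendsto_log_atTop
  have h1 : ∀ᶠ L : ℝ in Filter.atTop, 100 ≤ L := Filter.eventually_ge_atTop 100
  have h2 : ∀ᶠ L : ℝ in Filter.atTop, 2 ≤ Real.log L := hlog.eventually_ge_atTop 2
  have h3 : ∀ᶠ L : ℝ in Filter.atTop, 8 ≤ (Real.log L) ^ δ :=
    ((tendsto_rpow_atTop hδ).comp hlog).eventually_ge_atTop 8
  have h4 : ∀ᶠ L : ℝ in Filter.atTop, 32 / κ ≤ Real.log L := hlog.eventually_ge_atTop _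
  have h5 : ∀ᶠ L : ℝ in Filter.atTop, Real.log (100 / θ) ≤ Real.log L :=
    hlog.eventually_ge_atTop _
  have h6 : ∀ᶠ L : ℝ in Filter.atTop, 13 * (Real.log L) ^ 5 ≤ θ * L := by
    have h := (Real.isLittleO_pow_log_id_atTop (n := 5)).bound (show (0 : ℝ) < θ / 13 by positivity)
    filter_upwards [h, h1] with L hL hL1
    simp only [id, Real.norm_eq_abs] at hL
    have hx : Real.log L ^ 5 ≤ |Real.log L ^ 5| := le_abs_self _
    have hL0 : |L| = L := abs_of_nonneg (by linarith)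
    rw [hL0] at hL
    have : Real.log L ^ 5 ≤ θ / 13 * L := le_trans hx hL
    linarith
  have hall := h1.and (h2.and (h3.and (h4.and (h5.and h6))))
  obtain ⟨L₁, hL₁⟩ := Filter.eventually_atTop.1 hall
  exact ⟨L₁, fun L hL => hL₁ L hL⟩

theorem kj_le (k : ℕ → ℕ) (J j : ℕ) (hj : j ∈ range (J + 1)) : k j ≤ KK k J := by
  unfold KK
  exact Finset.single_le_sum (f := fun j => k j) (fun i _ => Nat.zero_le _) hj

theorem sj_zero_le (A δ L : ℝ) (hA : 3 ≤ A) (hl : 0 ≤ Real.log L) (j : ℕ) :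
    sj A δ L 0 ≤ sj A δ L j := by
  unfold sj
  have h1 : (1 : ℝ) ≤ A ^ j := one_le_pow₀ (by linarith)
  have h2 : 0 ≤ (Real.log L) ^ (1 + δ) := Real.rpow_nonneg hl _
  simp only [pow_zero, one_mul]
  nlinarith

end PA4_

open PA4_

theorem p_PA4 (h1 : T_PB) (h2 : T_PF) (h3 : T_PG) : T_PA4 := by
  intro A δ θ κ hA hδ hδ1 hθ hθ1 hκ hκ1
  obtain ⟨L1, hL1, H1⟩ := h1 A δ κ hA hδ hδ1 hκ
  obtain ⟨L2, hL2, H2⟩ := h2 A δ θ κ hA hδ hδ1 hθ hθ1 hκ hκ1
  obtain ⟨L3, hL3, H3⟩ := h3 A δ θ κ hA hδ hδ1 hθ hθ1 hκ hκ1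
  obtain ⟨L4, H4⟩ := ev_good δ θ κ hδ hθ
  refine ⟨max L1 (max L2 (max L3 L4)), le_trans hL1 (le_max_left _ _), ?_⟩
  intro L hL
  have hL_1 : L1 ≤ L := le_trans (le_max_left _ _) hL
  have hL_2 : L2 ≤ L := le_trans (le_trans (le_max_left _ _) (le_max_right _ _)) hL
  have hL_3 : L3 ≤ L := le_trans (le_trans (le_trans (le_max_left _ _) (le_max_right _ _))
    (le_max_right _ _)) hL
  have hL_4 : L4 ≤ L := le_trans (le_trans (le_trans (le_max_right _ _) (le_max_right _ _))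
    (le_max_right _ _)) hL
  obtain ⟨J, hPB⟩ := H1 L hL_1
  have hPF := H2 L hL_2 J hPB
  have hPG := H3 L hL_3 J hPB
  obtain ⟨g1, g2, g3, g4, g5, g6⟩ := H4 L hL_4
  refine ⟨J, kx A δ L, ?_⟩
  obtain ⟨b1, b2, b3, b4, b5, b6⟩ := hPB
  set l : ℝ := Real.log L with hldef
  have hl0 : 0 < l := by linarith
  have hl1 : 1 ≤ l := by linarith
  have hLpos : 0 < L := by linarith
  set K : ℝ := (KK (kx A δ L) J : ℝ) with hKdef
  have hK0 : 0 ≤ K := Nat.cast_nonneg _
  -- powers of l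
  have hp2 : l ^ (2 + 2 * δ) = l ^ (2 + δ) * l ^ δ := by
    rw [← Real.rpow_add hl0]; congr 1; ring
  have hp2pos : 0 < l ^ (2 + δ) := Real.rpow_pos_of_pos hl0 _
  have hp22pos : 0 < l ^ (2 + 2 * δ) := Real.rpow_pos_of_pos hl0 _
  have hge1 : 1 ≤ l ^ (2 + 2 * δ) := Real.one_le_rpow hl1 (by linarith)
  have hsq : l ^ 2 ≤ l ^ (2 + 2 * δ) := by
    rw [← Real.rpow_natCast l 2]
    exact Real.rpow_le_rpow_of_exponent_le hl1 (by push_cast; linarith)
  have hle4 : l ^ (2 + 2 * δ) ≤ l ^ 4 := by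
    rw [← Real.rpow_natCast l 4]
    exact Real.rpow_le_rpow_of_exponent_le hl1 (by push_cast; linarith)
  have hs0 : l ^ (1 + δ) = l * l ^ δ := by
    rw [Real.rpow_add hl0, Real.rpow_one]
  have hs0ge : 8 * l ≤ l ^ (1 + δ) := by
    rw [hs0]; nlinarith
  have hsj0 : sj A δ L 0 = l ^ (1 + δ) := by
    unfold sj; simp [hldef]
  have hKL : K ≤ 2 * L / l ^ 2 := by
    refine le_trans b5 ?_
    exact div_le_div_of_nonneg_left (by positivity) (by positivity) hsq
  have hKlb : L / l ^ 4 ≤ K := by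
    refine le_trans ?_ b4
    exact div_le_div_of_nonneg_left hLpos.le hp22pos hle4
  have hKleL : K ≤ L := by
    refine le_trans hKL ?_
    rw [div_le_iff₀ (by positivity)]
    nlinarith [sq_nonneg (l - 2), mul_pos hLpos hl0]
  have hlog2 : Real.log 2 ≤ 1 := by
    have := Real.log_two_lt_d9; linarith
  have hlog2' : 0 ≤ Real.log 2 := Real.log_nonneg (by norm_num)
  refine ⟨?_, b6, ?_, ?_, ?_, hPF, hPG, ?_, ?_, ?_, ?_, g1⟩
  · -- 4 K <= s_J
    refine le_trans ?_ b1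
    have : 4 * K ≤ 8 * L / l ^ (2 + 2 * δ) := by
      have := mul_le_mul_of_nonneg_left b5 (show (0 : ℝ) ≤ 4 by norm_num)
      calc 4 * K ≤ 4 * (2 * L / l ^ (2 + 2 * δ)) := this
        _ = 8 * L / l ^ (2 + 2 * δ) := by ring
    refine le_trans this ?_
    rw [hp2, div_le_div_iff₀ (by positivity) hp2pos]
    have h8 : 8 * (L * l ^ (2 + δ)) ≤ l ^ δ * (L * l ^ (2 + δ)) :=
      mul_le_mul_of_nonneg_right g3 (by positivity)
    calc 8 * L * l ^ (2 + δ) = 8 * (L * l ^ (2 + δ)) := by ring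
      _ ≤ l ^ δ * (L * l ^ (2 + δ)) := h8
      _ = L * (l ^ (2 + δ) * l ^ δ) := by ring
  · -- J <= 2 l
    linarith
  · -- L / l^(2+3δ) <= K
    refine le_trans ?_ b4
    refine div_le_div_of_nonneg_left hLpos.le hp22pos ?_
    exact Real.rpow_le_rpow_of_exponent_le hl1 (by linarith)
  · -- the exponential condition
    have hJ : ((J : ℝ) + 1) * Real.log 2 ≤ l + 2 := by
      have hJ0 : (0 : ℝ) ≤ (J : ℝ) + 1 := by positivity
      nlinarith
    have hkey : ((J : ℝ) + 1) * Real.log 2 + 10 * l ≤ θ * K := by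
      have hA1 : l + 2 + 10 * l ≤ 13 * l := by linarith
      have hB1 : 13 * l ≤ θ * (L / l ^ 4) := by
        rw [← mul_div_assoc, le_div_iff₀ (by positivity)]
        calc 13 * l * l ^ 4 = 13 * l ^ 5 := by ring
          _ ≤ θ * L := g6
      have hC1 : θ * (L / l ^ 4) ≤ θ * K := mul_le_mul_of_nonneg_left hKlb hθ.le
      linarith
    have e1 : (2 : ℝ) ^ (J + 1) = Real.exp (((J : ℝ) + 1) * Real.log 2) := by
      rw [mul_comm, Real.exp_mul, Real.exp_log (by norm_num)]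
      rw [← Real.rpow_natCast]; push_cast; rfl
    have e2 : L ^ 10 = Real.exp (10 * l) := by
      rw [mul_comm, Real.exp_mul, hldef, Real.exp_log hLpos]
      rw [← Real.rpow_natCast]; norm_num
    rw [e1, e2, ← Real.exp_add, ← Real.exp_add]
    apply Real.exp_le_one_iff.2 _ |> fun h => h
    linarith
  · -- (8L)^(4K) <= exp (κ L)
    have hlog8 : Real.log (8 * L) ≤ l + 3 := by
      rw [Real.log_mul (by norm_num) hLpos.ne']
      have : Real.log 8 = 3 * Real.log 2 := by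
        rw [show (8 : ℝ) = 2 ^ (3 : ℕ) by norm_num, Real.log_pow]; norm_num
      rw [this]
      linarith
    have hkey : 4 * K * Real.log (8 * L) ≤ κ * L := by
      have h01 : 0 ≤ 4 * K := by positivity
      have hA1 : 4 * K * Real.log (8 * L) ≤ 4 * K * (l + 3) :=
        mul_le_mul_of_nonneg_left hlog8 h01
      have hB1 : 4 * K * (l + 3) ≤ 4 * (2 * L / l ^ 2) * (l + 3) := by
        have : 0 ≤ l + 3 := by linarith
        have h4 : 4 * K ≤ 4 * (2 * L / l ^ 2) := by linarith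
        exact mul_le_mul_of_nonneg_right h4 this
      have hC1 : 4 * (2 * L / l ^ 2) * (l + 3) ≤ κ * L := by
        have hk : 32 ≤ κ * l := by
          have := (div_le_iff₀ hκ).1 g4
          linarith
        have e : 4 * (2 * L / l ^ 2) * (l + 3) = (8 * L * (l + 3)) / l ^ 2 := by
          field_simp; ring
        rw [e, div_le_iff₀ (by positivity)]
        have h8 : 8 * (l + 3) ≤ 32 * l := by linarith
        have h9 : 32 * l ≤ κ * l * l := by nlinarith
        calc 8 * L * (l + 3) = L * (8 * (l + 3)) := by ring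
          _ ≤ L * (κ * l * l) := mul_le_mul_of_nonneg_left (le_trans h8 h9) hLpos.le
          _ = κ * L * l ^ 2 := by ring
      linarith
    have h8L : 0 < 8 * L := by positivity
    have e1 : (8 * L) ^ (4 * KK (kx A δ L) J) = Real.exp (4 * K * Real.log (8 * L)) := by
      rw [mul_comm (4 * K), Real.exp_mul, Real.exp_log h8L]
      rw [← Real.rpow_natCast]; push_cast; rfl
    rw [e1]
    exact Real.exp_le_exp.2 hkey
  · -- 4 k_j^2 <= exp s_j
    intro j hj
    have hkj : (kx A δ L j : ℝ) ≤ L := by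
      refine le_trans ?_ hKleL
      rw [hKdef]
      exact Nat.cast_le.2 (kj_le (kx A δ L) J j hj)
    have hkj0 : (0 : ℝ) ≤ (kx A δ L j : ℝ) := Nat.cast_nonneg _
    have hs : 8 * l ≤ sj A δ L j := by
      refine le_trans hs0ge ?_
      rw [← hsj0]
      exact sj_zero_le A δ L hA hl0.le j
    have e2 : L ^ 2 = Real.exp (2 * l) := by
      rw [mul_comm, Real.exp_mul, hldef, Real.exp_log hLpos]
      rw [← Real.rpow_natCast]; norm_num
    have e4 : (4 : ℝ) ≤ Real.exp (6 * l) := by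
      have := Real.add_one_le_exp (6 * l)
      linarith
    calc 4 * (kx A δ L j : ℝ) ^ 2 ≤ 4 * L ^ 2 := by nlinarith
      _ ≤ Real.exp (6 * l) * Real.exp (2 * l) := by
          rw [e2]; exact mul_le_mul_of_nonneg_right e4 (Real.exp_pos _).le
      _ = Real.exp (8 * l) := by rw [← Real.exp_add]; congr 1; ring
      _ ≤ Real.exp (sj A δ L j) := Real.exp_le_exp.2 hs
  · -- 100 / θ * L <= exp s_0
    rw [hsj0]
    have h0 : 0 < 100 / θ := by positivity
    have eL : L = Real.exp l := by rw [hldef, Real.exp_log hLpos]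
    have e1 : 100 / θ = Real.exp (Real.log (100 / θ)) := (Real.exp_log h0).symm
    have : 100 / θ * L = Real.exp (Real.log (100 / θ) + l) := by
      rw [Real.exp_add, ← e1, ← eL]
    rw [this]
    apply Real.exp_le_exp.2
    linarith
  · -- 2 <= s_0
    rw [hsj0]
    linarith

end SSX
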