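import Pool.Agent.SSX.Targets

/-!
# PB: basic facts on the parameters
-/

set_option autoImplicit false

open scoped BigOperators Classical
open Finset

namespace SSX

open SSC SSD

namespace PB_

theorem geom1 (A : ℝ) (hA : 3 ≤ A) (n : ℕ) :
    ∑ j ∈ range n, 1 / A ^ j ≤ 3 / 2 * (1 - 1 / A ^ n) := by
  induction n with
  | zero => simp
  | succ n ih =>
    rw [Finset.sum_range_succ]
    have hA0 : 0 < A := by linarith
    have h1 : 0 < A ^ n := by positivity
    have h2 : 1 / A ^ (n + 1) ≤ 1 / 3 * (1 / A ^ n) := by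
      rw [pow_succ, one_div_mul_one_div]
      exact one_div_le_one_div_of_le (by positivity) (by nlinarith)
    linarith

theorem geom2 (A : ℝ) (hA : 3 ≤ A) (J : ℕ) : ∑ j ∈ range (J + 1), A ^ j ≤ 3 / 2 * A ^ J := by
  induction J with
  | zero => norm_num
  | succ J ih =>
    rw [Finset.sum_range_succ]
    have h1 : 0 < A ^ J := by positivity
    have h2 : 3 * A ^ J ≤ A ^ (J + 1) := by
      rw [pow_succ]
      nlinarith
    linarith

theorem aux1 (t : ℝ) (ht : 450 ≤ t) : (t + 2) * (40 * t + 2) ≤ 100 * t ^ 2 := by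
  nlinarith

/-- the parameters, all conditions -/
theorem core (A κ t x L : ℝ) (hA : 3 ≤ A) (hκ : 0 < κ) (hx : 150 * A ≤ x) (hxκ : 150 * A ≤ κ * x)
    (hxt : x ≤ t) (hL : L = Real.exp t) (hL2 : 200 * t ^ 6 ≤ L) (k : ℕ → ℕ)
    (hk : ∀ j, k j = ⌈L / (t ^ 2 * x ^ 2 * A ^ j)⌉₊ + ⌈40 * t⌉₊) :
    ∃ J : ℕ,
      L / (t ^ 2 * x) ≤ A ^ J * (t * x) ∧ A ^ J * (t * x) ≤ A * L / (t ^ 2 * x) ∧
      (J : ℝ) ≤ t + 1 ∧
      L / (t ^ 2 * x ^ 2) ≤ (KK k J : ℝ) ∧ (KK k J : ℝ) ≤ 2 * L / (t ^ 2 * x ^ 2) ∧
      ∑ j ∈ range (J + 1), (k j : ℝ) * (A ^ (j + 1) * (t * x)) ≤ κ * L := by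
  have hA0 : 0 < A := by linarith
  have hA1 : 1 < A := by linarith
  have hx450 : 450 ≤ x := by linarith
  have hx0 : 0 < x := by linarith
  have ht450 : 450 ≤ t := by linarith
  have ht0 : 0 < t := by linarith
  have htx : 0 < t * x := by positivity
  have hL0 : 0 < L := by rw [hL]; exact Real.exp_pos _
  have ht2 : 450 * t ≤ t ^ 2 := by
    rw [sq]
    gcongr
  have htx1 : 202500 ≤ t * x := by
    calc (202500 : ℝ) = 450 * 450 := by norm_num
      _ ≤ t * x := by gcongr
  have htx3 : 202500 ≤ t ^ 2 * x := by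
    calc (202500 : ℝ) ≤ 450 * 202500 := by norm_num
      _ ≤ t * (t * x) := by gcongr
      _ = t ^ 2 * x := by ring
  have hxt2 : x ^ 2 ≤ t ^ 2 := pow_le_pow_left₀ hx0.le hxt 2
  -- the number `u`
  set u : ℝ := L / (t ^ 2 * x ^ 2) with hu
  have hden : 0 < t ^ 2 * x ^ 2 := by positivity
  have hu0 : 0 < u := by positivity
  have hLu : L = u * (t ^ 2 * x ^ 2) := by
    rw [hu]
    field_simp
  have hu200 : 200 * t ^ 2 ≤ u := by
    rw [hu, le_div_iff₀ hden]
    calc 200 * t ^ 2 * (t ^ 2 * x ^ 2) ≤ 200 * t ^ 2 * (t ^ 2 * t ^ 2) := by gcongr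
      _ = 200 * t ^ 6 := by ring
      _ ≤ L := hL2
  -- the number `J`
  have hex : ∃ j : ℕ, L / (t ^ 2 * x) ≤ A ^ j * (t * x) := by
    obtain ⟨j, hj⟩ := pow_unbounded_of_one_lt (L / (t ^ 2 * x)) hA1
    refine ⟨j, hj.le.trans ?_⟩
    have h2 : 0 < A ^ j := by positivity
    exact le_mul_of_one_le_right h2.le (by linarith)
  set J := Nat.find hex with hJ
  have hJ1 : L / (t ^ 2 * x) ≤ A ^ J * (t * x) := Nat.find_spec hex
  have hJlt : ∀ j : ℕ, j < J → A ^ j * (t * x) < L / (t ^ 2 * x) := by
    intro j hj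
    exact not_le.1 (Nat.find_min hex hj)
  have hJpos : 1 ≤ J := by
    rw [Nat.one_le_iff_ne_zero]
    intro h0
    rw [h0, pow_zero, one_mul, div_le_iff₀ (by positivity)] at hJ1
    have h3 : t * x * (t ^ 2 * x) ≤ t ^ 5 := by
      calc t * x * (t ^ 2 * x) = t ^ 3 * x ^ 2 := by ring
        _ ≤ t ^ 3 * t ^ 2 := by gcongr
        _ = t ^ 5 := by ring
    have h4 : t ^ 5 * 450 ≤ t ^ 6 := by
      have : 0 < t ^ 5 := by positivity
      calc t ^ 5 * 450 ≤ t ^ 5 * t := by gcongr
        _ = t ^ 6 := by ring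
    have h5 : 0 < t ^ 5 := by positivity
    linarith
  obtain ⟨J', hJ'⟩ : ∃ J', J = J' + 1 := ⟨J - 1, by omega⟩
  have hJ'lt := hJlt J' (by omega)
  have hsJ : A ^ J * (t * x) ≤ A * (L / (t ^ 2 * x)) := by
    rw [hJ', pow_succ]
    calc A ^ J' * A * (t * x) = A * (A ^ J' * (t * x)) := by ring
      _ ≤ _ := by gcongr
  have hJt : (J : ℝ) ≤ t + 1 := by
    have h1 : A ^ J' < L := by
      have h2 : 0 < A ^ J' := by positivity
      have h3 : A ^ J' ≤ A ^ J' * (t * x) := le_mul_of_one_le_right h2.le (by linarith)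
      have h4 : L / (t ^ 2 * x) ≤ L := div_le_self hL0.le (by linarith)
      linarith
    have h2 : Real.exp 1 ^ J' ≤ A ^ J' := by
      apply pow_le_pow_left₀ (Real.exp_pos _).le
      have := Real.exp_one_lt_d9
      linarith
    have h3 : Real.exp (J' : ℝ) < Real.exp t := by
      rw [← hL]
      refine lt_of_le_of_lt ?_ h1
      refine le_trans (le_of_eq ?_) h2
      rw [← Real.exp_nat_mul, mul_one]
    have h4 := Real.exp_lt_exp.1 h3
    rw [hJ']
    push_cast
    linarith
  -- the numbers `k j`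
  have huj : ∀ j : ℕ, L / (t ^ 2 * x ^ 2 * A ^ j) = u / A ^ j := by
    intro j
    rw [hu, div_div]
  have hk1 : ∀ j : ℕ, u / A ^ j + 40 * t ≤ k j := by
    intro j
    rw [hk, huj]
    push_cast
    exact add_le_add (Nat.le_ceil _) (Nat.le_ceil _)
  have hk2 : ∀ j : ℕ, (k j : ℝ) ≤ u / A ^ j + (40 * t + 2) := by
    intro j
    rw [hk, huj]
    push_cast
    have h1 := (Nat.ceil_lt_add_one (show 0 ≤ u / A ^ j by positivity)).le
    have h2 := (Nat.ceil_lt_add_one (show 0 ≤ 40 * t by positivity)).le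
    linarith
  have hKu : u ≤ (KK k J : ℝ) := by
    have h1 : k 0 ≤ KK k J := by
      unfold KK
      exact Finset.single_le_sum (f := k) (fun i _ => Nat.zero_le _) (Finset.mem_range.2 (by omega))
    have h2 : (k 0 : ℝ) ≤ (KK k J : ℝ) := by exact_mod_cast h1
    have h3 := hk1 0
    rw [pow_zero, div_one] at h3
    linarith
  have hK2 : (KK k J : ℝ) ≤ 2 * u := by
    unfold KK
    push_cast
    calc ∑ j ∈ range (J + 1), (k j : ℝ)
        ≤ ∑ j ∈ range (J + 1), (u * (1 / A ^ j) + (40 * t + 2)) := by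
          refine Finset.sum_le_sum fun j _ => ?_
          refine (hk2 j).trans (le_of_eq ?_)
          ring
      _ = u * ∑ j ∈ range (J + 1), 1 / A ^ j + (J + 1) * (40 * t + 2) := by
          rw [Finset.sum_add_distrib, ← Finset.mul_sum, Finset.sum_const, Finset.card_range,
            nsmul_eq_mul]
          push_cast
          ring
      _ ≤ u * (3 / 2) + (t + 2) * (40 * t + 2) := by
          have h1 := geom1 A hA (J + 1)
          have h2 : 0 < 1 / A ^ (J + 1) := by positivity
          apply add_le_add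
          · apply mul_le_mul_of_nonneg_left _ hu0.le
            linarith
          · apply mul_le_mul_of_nonneg_right _ (by positivity)
            linarith
      _ ≤ 2 * u := by
          have h3 := aux1 t ht450
          linarith
  refine ⟨J, hJ1, ?_, hJt, hKu, ?_, ?_⟩
  · rw [mul_div_assoc]
    exact hsJ
  · rw [mul_div_assoc]
    exact hK2
  · calc ∑ j ∈ range (J + 1), (k j : ℝ) * (A ^ (j + 1) * (t * x))
        ≤ ∑ j ∈ range (J + 1), (u * A * (t * x) + (40 * t + 2) * (A * (t * x)) * A ^ j) := by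
          refine Finset.sum_le_sum fun j _ => ?_
          have hAj : 0 < A ^ j := by positivity
          calc (k j : ℝ) * (A ^ (j + 1) * (t * x))
              ≤ (u / A ^ j + (40 * t + 2)) * (A ^ (j + 1) * (t * x)) := by
                gcongr
                exact hk2 j
            _ = (u / A ^ j * A ^ j) * A * (t * x) + (40 * t + 2) * (A * (t * x)) * A ^ j := by
                rw [pow_succ]
                ring
            _ = _ := by rw [div_mul_cancel₀ _ hAj.ne']
      _ = (J + 1) * (u * A * (t * x)) + (40 * t + 2) * (A * (t * x)) * ∑ j ∈ range (J + 1), A ^ j := by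
          rw [Finset.sum_add_distrib, Finset.sum_const, Finset.card_range, nsmul_eq_mul,
            ← Finset.mul_sum]
          push_cast
          ring
      _ ≤ (t + 2) * (u * A * (t * x)) + (40 * t + 2) * (A * (t * x)) * (3 / 2 * A ^ J) := by
          apply add_le_add
          · apply mul_le_mul_of_nonneg_right _ (by positivity)
            linarith
          · apply mul_le_mul_of_nonneg_left (geom2 A hA J) (by positivity)
      _ = (t + 2) * (u * A * (t * x)) + (40 * t + 2) * A * (3 / 2) * (A ^ J * (t * x)) := by ring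
      _ ≤ (t + 2) * (u * A * (t * x)) + (40 * t + 2) * A * (3 / 2) * (A * (L / (t ^ 2 * x))) := by
          gcongr
      _ ≤ κ * L / 2 + κ * L / 2 := by
          apply add_le_add
          · rw [le_div_iff₀ (by norm_num)]
            conv_rhs => rw [hLu]
            have h1 : (t + 2) * A * 2 ≤ κ * (t * x) := by
              calc (t + 2) * A * 2 ≤ (2 * t) * A * 2 := by
                    gcongr
                    linarith
                _ = t * (4 * A) := by ring
                _ ≤ t * (κ * x) := mul_le_mul_of_nonneg_left (by linarith) ht0.le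
                _ = κ * (t * x) := by ring
            calc (t + 2) * (u * A * (t * x)) * 2 = u * (t * x) * ((t + 2) * A * 2) := by ring
              _ ≤ u * (t * x) * (κ * (t * x)) := by gcongr
              _ = κ * (u * (t ^ 2 * x ^ 2)) := by ring
          · have h1 : (40 * t + 2) * A * (3 / 2) * (A * (L / (t ^ 2 * x))) =
                L * ((40 * t + 2) * A * (3 / 2) * A / (t ^ 2 * x)) := by ring
            rw [h1, show κ * L / 2 = L * (κ / 2) by ring]
            apply mul_le_mul_of_nonneg_left _ hL0.le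
            rw [div_le_div_iff₀ (by positivity) (by norm_num)]
            have h2 : (40 * t + 2) ≤ 42 * t := by linarith
            have h3 : 150 * A ≤ t := by linarith
            calc (40 * t + 2) * A * (3 / 2) * A * 2 = (40 * t + 2) * (3 * A * A) := by ring
              _ ≤ (42 * t) * (3 * A * A) := by gcongr
              _ = t * (126 * (A * A)) := by ring
              _ ≤ t * (22500 * (A * A)) := by gcongr; norm_num
              _ = t * ((150 * A) * (150 * A)) := by ring
              _ ≤ t * (t * (κ * x)) := by gcongr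
              _ = κ * (t ^ 2 * x) := by ring
      _ = κ * L := by ring

end PB_

open Filter in
theorem p_PB : T_PB := by
  intro A δ κ hA hδ hδ1' hκ
  have hx1 : Tendsto (fun t : ℝ => t ^ δ) atTop atTop := tendsto_rpow_atTop hδ
  have h1 : ∀ᶠ t : ℝ in atTop, 150 * A + 150 * A / κ ≤ t ^ δ := hx1.eventually_ge_atTop _
  have h2 : ∀ᶠ t : ℝ in atTop, 200 * t ^ 6 ≤ Real.exp t := by
    have h := (Real.isLittleO_pow_exp_atTop (n := 6)).def (show (0 : ℝ) < 1 / 200 by norm_num)
    filter_upwards [h, eventually_ge_atTop 0] with t ht ht0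
    rw [Real.norm_eq_abs, Real.norm_eq_abs, abs_of_nonneg (by positivity), Real.abs_exp] at ht
    linarith
  obtain ⟨t₀, ht₀⟩ := (h1.and (h2.and (eventually_ge_atTop (2 : ℝ)))).exists_forall_of_atTop
  refine ⟨max 3 (Real.exp t₀), le_max_left _ _, fun L hL => ?_⟩
  have hL0 : 0 < L := lt_of_lt_of_le (by norm_num) ((le_max_left _ _).trans hL)
  have hLt : Real.exp (Real.log L) = L := Real.exp_log hL0
  have ht : t₀ ≤ Real.log L := by
    rw [← Real.exp_le_exp, hLt]
    exact (le_max_right _ _).trans hL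
  obtain ⟨e1, e2, e3⟩ := ht₀ _ ht
  have hA0 : 0 < A := by linarith
  have hp2 : (Real.log L) ^ (2 + 2 * δ) = (Real.log L) ^ 2 * ((Real.log L) ^ δ) ^ 2 := by
    have ht0 : 0 < Real.log L := by linarith
    rw [Real.rpow_add ht0, mul_comm 2 δ, Real.rpow_mul ht0.le]
    norm_cast
  have hp1 : (Real.log L) ^ (2 + δ) = (Real.log L) ^ 2 * (Real.log L) ^ δ := by
    have ht0 : 0 < Real.log L := by linarith
    rw [Real.rpow_add ht0]
    norm_cast
  have hs : ∀ j : ℕ, sj A δ L j = A ^ j * (Real.log L * (Real.log L) ^ δ) := by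
    intro j
    have ht0 : 0 < Real.log L := by linarith
    unfold sj
    rw [Real.rpow_add ht0, Real.rpow_one]
  have hkx : ∀ j : ℕ, kx A δ L j =
      ⌈L / ((Real.log L) ^ 2 * ((Real.log L) ^ δ) ^ 2 * A ^ j)⌉₊ + ⌈40 * Real.log L⌉₊ := by
    intro j
    unfold kx
    rw [hp2]
  have hδ1 : (Real.log L) ^ δ ≤ Real.log L := by
    calc (Real.log L) ^ δ ≤ (Real.log L) ^ (1 : ℝ) :=
          Real.rpow_le_rpow_of_exponent_le (by linarith) hδ1'
      _ = Real.log L := Real.rpow_one _
  have hq : 0 < 150 * A / κ := by positivity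
  obtain ⟨J, h⟩ := PB_.core A κ (Real.log L) ((Real.log L) ^ δ) L hA hκ (by linarith)
    (by
      have : 150 * A / κ ≤ (Real.log L) ^ δ := by linarith
      rw [div_le_iff₀ hκ] at this
      linarith) hδ1 hLt.symm (by
        rw [hLt] at e2
        exact e2) (kx A δ L) hkx
  refine ⟨J, ?_⟩
  unfold PB
  simp only [hs, hp1, hp2]
  exact h

end SSX
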