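import Pool.Agent.SSX.Targets

/-!
# PG: the large sieve bound for large primes
-/

set_option autoImplicit false

open scoped BigOperators Classical
open Finset

namespace SSX

open SSC SSD

namespace PG_

theorem core (A q t x L K s v : ℝ) (j : ℕ) (hA : 3 ≤ A) (hx : 150 * A ≤ x) (hxt : x ≤ t)
    (hL : L = Real.exp t) (hL2 : 200 * t ^ 6 ≤ L) (hq0 : 0 ≤ q) (hq : q ≤ Real.exp t)
    (hK1 : L / (t ^ 2 * x ^ 2) ≤ K)
    (hsdef : s = A ^ j * (t * x)) (hsL : s ≤ A * (L / (t ^ 2 * x)))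
    (hv1 : 4 * K ≤ v) (hv2 : v ≤ 5 * L) :
    ∃ m : ℕ, 1 ≤ m ∧ 3 * v + 3 ≤ m * s ∧
      m.factorial * q ^ m * (A * m * s + 3) ≤ Real.exp (v / 8) := by
  have hA0 : 0 < A := by linarith
  have hA1 : 1 < A := by linarith
  have hx450 : 450 ≤ x := by linarith
  have hx0 : 0 < x := by linarith
  have ht450 : 450 ≤ t := by linarith
  have ht0 : 0 < t := by linarith
  have htx : 0 < t * x := by positivity
  have hL0 : 0 < L := by rw [hL]; exact Real.exp_pos _
  have ht2 : 450 * t ≤ t ^ 2 := by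
    rw [sq]
    gcongr
  have htx1 : 202500 ≤ t * x := by
    calc (202500 : ℝ) = 450 * 450 := by norm_num
      _ ≤ t * x := by gcongr
  have htx2 : 202500 ≤ t ^ 2 * x ^ 2 := by
    calc (202500 : ℝ) ≤ 202500 * 202500 := by norm_num
      _ ≤ (t * x) * (t * x) := by gcongr
      _ = t ^ 2 * x ^ 2 := by ring
  have hxt2 : x ^ 2 ≤ t ^ 2 := pow_le_pow_left₀ hx0.le hxt 2
  -- the number `u`
  set u : ℝ := L / (t ^ 2 * x ^ 2) with hu
  have hden : 0 < t ^ 2 * x ^ 2 := by positivity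
  have hu0 : 0 < u := by positivity
  have hLu : L = u * (t ^ 2 * x ^ 2) := by
    rw [hu]
    field_simp
  have hu200 : 200 * t ^ 2 ≤ u := by
    rw [hu, le_div_iff₀ hden]
    calc 200 * t ^ 2 * (t ^ 2 * x ^ 2) ≤ 200 * t ^ 2 * (t ^ 2 * t ^ 2) := by gcongr
      _ = 200 * t ^ 6 := by ring
      _ ≤ L := hL2
  have huL : 202500 * u ≤ L := by
    conv_rhs => rw [hLu]
    rw [mul_comm u]
    gcongr
  have hLt : 200 * t ≤ L := by linarith
  have hL8 : (90000 : ℝ) ≤ L := by linarith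
  have hpowL : ∀ n : ℕ, L ^ n = Real.exp (n * t) := by
    intro n
    rw [hL, ← Real.exp_nat_mul]
  have hAj : 0 < A ^ j := by positivity
  have hs1 : t * x ≤ s := by
    rw [hsdef]
    exact le_mul_of_one_le_left htx.le (one_le_pow₀ hA1.le)
  have hs0 : 0 < s := by linarith
  have hsL2 : s ≤ L / 2 := by
    refine hsL.trans ?_
    rw [mul_div_assoc', div_le_div_iff₀ (by positivity) (by norm_num)]
    have h1 : 2 * A ≤ t ^ 2 * x := by
      have h2 : 1 * x ≤ t ^ 2 * x := by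
        gcongr
        linarith
      linarith
    calc A * L * 2 = L * (2 * A) := by ring
      _ ≤ L * (t ^ 2 * x) := by gcongr
  have hv0 : 0 < v := by linarith
  have hK0 : 0 < 3 * v + 3 := by linarith
  have hm1 : (3 * v + 3) / s ≤ (⌈(3 * v + 3) / s⌉₊ : ℝ) := Nat.le_ceil _
  have hm2 : (⌈(3 * v + 3) / s⌉₊ : ℝ) ≤ (3 * v + 3) / s + 1 :=
    (Nat.ceil_lt_add_one (by positivity)).le
  have hm0 : 1 ≤ ⌈(3 * v + 3) / s⌉₊ := Nat.ceil_pos.2 (by positivity)
  refine ⟨⌈(3 * v + 3) / s⌉₊, hm0, ?_, ?_⟩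
  · rwa [div_le_iff₀ hs0] at hm1
  · set m := ⌈(3 * v + 3) / s⌉₊ with hm
    have hm3 : (m : ℝ) ≤ (3 * v + 3) / (t * x) + 1 := by
      refine hm2.trans ?_
      have : (3 * v + 3) / s ≤ (3 * v + 3) / (t * x) := by gcongr
      linarith
    have hms : (m : ℝ) * s ≤ 3 * v + 3 + s := by
      calc (m : ℝ) * s ≤ ((3 * v + 3) / s + 1) * s := by gcongr
        _ = 3 * v + 3 + s := by
            rw [add_mul, div_mul_cancel₀ _ hs0.ne', one_mul]
    have hmsL : (m : ℝ) * s ≤ 16 * L := by linarith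
    have hmL : (m : ℝ) ≤ L := by
      have h2 : (3 * v + 3) / (t * x) ≤ (3 * v + 3) / 202500 :=
        div_le_div_of_nonneg_left hK0.le (by norm_num) htx1
      linarith
    have hfac : (m.factorial : ℝ) ≤ Real.exp (m * t) := by
      calc (m.factorial : ℝ) ≤ (m : ℝ) ^ m := by exact_mod_cast Nat.factorial_le_pow m
        _ ≤ L ^ m := by gcongr
        _ = _ := hpowL m
    have h12 : q ^ m ≤ Real.exp (m * t) := by
      rw [Real.exp_nat_mul]
      exact pow_le_pow_left₀ hq0 hq m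
    have hAL : A * m * s + 3 ≤ Real.exp ((2 : ℕ) * t) := by
      rw [← hpowL]
      calc A * m * s + 3 = A * (m * s) + 3 := by ring
        _ ≤ A * (16 * L) + 3 := by gcongr
        _ ≤ A * (16 * L) + L := by linarith
        _ = (16 * A + 1) * L := by ring
        _ ≤ L * L := by
            gcongr
            linarith
        _ = L ^ 2 := by ring
    have hAms : 0 ≤ A * m * s + 3 := by positivity
    calc (m.factorial : ℝ) * q ^ m * (A * m * s + 3)
        ≤ Real.exp (m * t) * Real.exp (m * t) * Real.exp ((2 : ℕ) * t) := by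
          gcongr
      _ = Real.exp (m * t + m * t + (2 : ℕ) * t) := by
          rw [Real.exp_add, Real.exp_add]
      _ ≤ Real.exp (v / 8) := by
          apply Real.exp_le_exp.2
          push_cast
          have h1 : (m : ℝ) * t + m * t = m * (2 * t) := by ring
          have h2 : (m : ℝ) * (2 * t) ≤ ((3 * v + 3) / (t * x) + 1) * (2 * t) := by gcongr
          have h3 : ((3 * v + 3) / (t * x) + 1) * (2 * t) = (6 * v + 6) / x + 2 * t := by
            field_simp
            ring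
          have h4 : (6 * v + 6) / x ≤ (6 * v + 6) / 450 :=
            div_le_div_of_nonneg_left (by linarith) (by norm_num) hx450
          linarith

end PG_

open Filter in
theorem p_PG : T_PG := by
  intro A δ θ κ hA hδ hδ1 hθ _ _ _
  have hx1 : Tendsto (fun t : ℝ => t ^ δ) atTop atTop := tendsto_rpow_atTop hδ
  have h1 : ∀ᶠ t : ℝ in atTop, 150 * A ≤ t ^ δ := hx1.eventually_ge_atTop _
  have h2 : ∀ᶠ t : ℝ in atTop, 200 * t ^ 6 ≤ Real.exp t := by
    have h := (Real.isLittleO_pow_exp_atTop (n := 6)).def (show (0 : ℝ) < 1 / 200 by norm_num)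
    filter_upwards [h, eventually_ge_atTop 0] with t ht ht0
    rw [Real.norm_eq_abs, Real.norm_eq_abs, abs_of_nonneg (by positivity), Real.abs_exp] at ht
    linarith
  obtain ⟨t₀, ht₀⟩ := (h1.and (h2.and (eventually_ge_atTop
    (max 2 (1 / θ ^ 2))))).exists_forall_of_atTop
  refine ⟨max 3 (Real.exp t₀), le_max_left _ _, fun L hL J hPB j hj v hv1 hv2 => ?_⟩
  have hL0 : 0 < L := lt_of_lt_of_le (by norm_num) ((le_max_left _ _).trans hL)
  have hLt : Real.exp (Real.log L) = L := Real.exp_log hL0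
  have ht : t₀ ≤ Real.log L := by
    rw [← Real.exp_le_exp, hLt]
    exact (le_max_right _ _).trans hL
  obtain ⟨e1, e2, e3⟩ := ht₀ _ ht
  have e4 : 2 ≤ Real.log L := (le_max_left _ _).trans e3
  have e5 : 1 / θ ^ 2 ≤ Real.log L := (le_max_right _ _).trans e3
  set t := Real.log L with htdef
  have ht0 : 0 < t := by linarith
  have hδt : t ^ δ ≤ t := by
    calc t ^ δ ≤ t ^ (1 : ℝ) := Real.rpow_le_rpow_of_exponent_le (by linarith) hδ1
      _ = t := Real.rpow_one t
  have hs : ∀ i : ℕ, sj A δ L i = A ^ i * (t * t ^ δ) := by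
    intro i
    unfold sj
    rw [Real.rpow_add ht0, Real.rpow_one]
  have hp2 : (Real.log L) ^ (2 + 2 * δ) = t ^ 2 * (t ^ δ) ^ 2 := by
    rw [← htdef, Real.rpow_add ht0, mul_comm 2 δ, Real.rpow_mul ht0.le]
    norm_cast
  have hp1 : (Real.log L) ^ (2 + δ) = t ^ 2 * (t ^ δ) := by
    rw [← htdef, Real.rpow_add ht0]
    norm_cast
  obtain ⟨b1, b2, b3, b4, b5, b6⟩ := hPB
  rw [hp1] at b2
  rw [hp2] at b4
  have hx0 : 0 < t ^ δ := Real.rpow_pos_of_pos ht0 _
  have hA0 : 0 < A := by linarith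
  have hjJ : j ≤ J := Nat.lt_succ_iff.1 (Finset.mem_range.1 hj)
  have hsj : sj A δ L j ≤ sj A δ L J := by
    rw [hs, hs]
    have : A ^ j ≤ A ^ J := pow_le_pow_right₀ (by linarith) hjJ
    gcongr
  have hq : 1 / θ ^ 2 ≤ Real.exp t := by
    have := Real.add_one_le_exp t
    linarith
  exact PG_.core A (1 / θ ^ 2) t (t ^ δ) L _ _ v j hA e1 hδt hLt.symm (by rw [← hLt]; exact e2)
    (by positivity) hq b4 (hs j) ((hsj.trans b2).trans (le_of_eq (by ring))) hv1 hv2

end SSX
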