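import Pool.Agent.SSD.Targets

/-!
# MP_d74fca_nt, project SSX (helper22): almost all `x`

For every `E : y ^ 2 = x ^ 3 + A x + B` and all large `x` either the number `N(x)` of supersingular
primes `≤ x` is at least `(log x) ^ (2 - ε)`, or `N(t) > t ^ (1/2 - ε')` for some `t` between
`exp (log log x / (log log log x) ^ η)` and `(log x) ^ 5`. Consequence: the `x` with
`N(x) < (log x) ^ (2 - ε)` are very rare.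

New against SSD: killers `p` are counted with the weight `min (σ p) (2 ^ K σ p / √p)`, where
`σ p ≤ 2 ^ (J + 1) (1 / 2 + θ) ^ K E` unless `p` is bad for some window.
-/

set_option autoImplicit false

open scoped BigOperators Classical
open Finset

namespace SSX

open SSC SSD

/-- upper bounds for the counting function of `S` in the relevant range -/
def UB (S : Set ℕ) (ε η Y : ℝ) : Prop := ∀ t : ℝ,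
  Real.exp (Real.log Y / (Real.log (Real.log Y)) ^ η) ≤ t → t ≤ 16 * Y ^ 4 →
    NS S t ≤ t ^ (1 / 2 - ε)

/-- a class `Q` of primes outside `S`, in windows `(e^s, e^(A s)]` -/
def ClsT (S Q : Set ℕ) (A θ : ℝ) : Prop := 3 ≤ A ∧ (∀ l ∈ Q, l.Prime ∧ l ≠ 2 ∧ l ∉ S) ∧
  ∀ s : ℝ, 2 ≤ s →
    1 ≤ ∑ l ∈ (pri (Real.exp s) (Real.exp (A * s))).filter fun l : ℕ => l ∈ Q, 1 / (l : ℝ) ∧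
    ∀ p ∈ S, (p : ℝ) ≤ Real.exp s →
      ∑ l ∈ (pri (Real.exp s) (Real.exp (A * s))).filter fun l : ℕ => l ∈ Q ∧ SSN.ch p l = 1,
          1 / (l : ℝ) ≤
        (1 / 2 + θ / 2) *
          ∑ l ∈ (pri (Real.exp s) (Real.exp (A * s))).filter fun l : ℕ => l ∈ Q, 1 / (l : ℝ)

/-- CLT (from SSD.QCL, SSD.NSS) -/
def T_CLT : Prop := ∀ A B : ℤ, 4 * A ^ 3 + 27 * B ^ 2 ≠ 0 → ∀ θ : ℝ, 0 < θ →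
  ∃ (Q : Set ℕ) (A' : ℝ), ClsT (SSF.SS A B) Q A' θ

/-- DYA: dyadic summation -/
def T_DYA : Prop := ∀ (S : Set ℕ) (ε u v : ℝ), 0 < ε → ε ≤ 1 / 2 → 1 ≤ u → u ≤ v →
  (∀ t : ℝ, u ≤ t → t ≤ v → NS S t ≤ t ^ (1 / 2 - ε)) →
  ∑ p ∈ (Icc 1 ⌊v⌋₊).filter (fun p : ℕ => p ∈ S ∧ u < (p : ℝ)), 1 / Real.sqrt p ≤
    4 * (Real.log (v / u) + 1) * u ^ (-ε)

/-! ## The numbers `h`, the tuples -/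

/-- HL4 (from SSC.BRU, SSC.MER, DYA): many `h` -/
def T_HL4 : Prop := ∀ (M : ℕ) (ρ δ ε η : ℝ), 0 < M → 1 < ρ → ρ ≤ 2 → 0 < δ → 0 < ε → ε ≤ 1 / 4 →
  1 < η → ∃ Y₀ : ℝ, 32 ≤ Y₀ ∧ ∀ (Y : ℝ) (S : Set ℕ) (a Λ : ℕ), Y₀ ≤ Y → (∀ p ∈ S, p.Prime) →
    UB S ε η Y → a.Prime → Y / 16 < a → (a : ℝ) ≤ Y → Squarefree Λ → (Λ : ℝ) ≤ Y ^ (1 / 4 : ℝ) →
    (∀ l : ℕ, l.Prime → l ∣ Λ →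
      Real.exp ((Real.log (Real.log Y)) ^ (1 + δ)) < l ∧ l ∉ S) →
    (a : ℝ) / Λ / (Real.log Y) ^ 3 ≤ ((HH S M ρ a Λ).card : ℝ)

/-- LO4 (from HL4): the number of tuples -/
def T_LO4 : Prop := ∀ (M : ℕ) (ρ δ ε η : ℝ), 0 < M → 1 < ρ → ρ ≤ 2 → 0 < δ → 0 < ε → ε ≤ 1 / 4 →
  1 < η → ∃ Y₀ : ℝ, 32 ≤ Y₀ ∧ ∀ (Y : ℝ) (S : Set ℕ) (K : ℕ) (F : Finset (Finset ℕ)), Y₀ ≤ Y →
    (∀ p ∈ S, p.Prime) → UB S ε η Y → Fam S Y K F →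
    (∀ U ∈ F, ∀ l ∈ U, Real.exp ((Real.log (Real.log Y)) ^ (1 + δ)) < (l : ℝ)) →
    RR S Y / (Real.log Y) ^ 3 * ∑ U ∈ F, wt U ≤ ((UG S M ρ Y F).card : ℝ)

/-- RR4 (from SSC.CHEB) -/
def T_RR4 : Prop := ∀ ε η : ℝ, 0 < ε → ε ≤ 1 / 4 → 0 < η → ∃ Y₀ : ℝ, 32 ≤ Y₀ ∧
  ∀ (Y : ℝ) (S : Set ℕ), Y₀ ≤ Y → UB S ε η Y → Y ^ 2 / (Real.log Y) ^ 2 ≤ RR S Y

/-- the weight of the `U` all of whose elements split in `ℚ(√-p)` or lie in `B` -/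
noncomputable def sg (F : Finset (Finset ℕ)) (B : Finset ℕ) (p : ℕ) : ℝ :=
  ∑ U ∈ F.filter fun U => ∀ l ∈ U, SSN.ch p l = 1 ∨ l ∈ B, wt U

/-- AS4 (from SSD.TU2, SSC.KIL, SSD.KI3): the killed tuples -/
def T_AS4 : Prop := ∀ (S : Set ℕ) (Kl : ℕ → ℕ → Prop) (M : ℕ) (ρ ε Y : ℝ) (K : ℕ)
  (F : Finset (Finset ℕ)), Data S Kl M ρ → 32 ≤ Y → Fam S Y K F → 0 < ε →
  (∀ t ∈ UG S M ρ Y F, ∃ p ∈ S, ¬ p ∣ dd t ∧ Kl (dd t) p ∧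
    (p : ℝ) ≤ Real.exp ((2 * Y ^ 2) ^ (1 / 2 + ε))) →
  ∃ B : ℕ → Finset ℕ, (∀ p, (2 : ℝ) ^ (B p).card ≤ 4 * Y ^ 4) ∧ ∀ T : Set ℕ,
  ((UG S M ρ Y F).card : ℝ) ≤
    (∑ p ∈ (Icc 1 ⌊16 * Y ^ 4⌋₊).filter (fun p : ℕ => p ∈ S ∧ p ∈ T),
      2 * RR S Y * sg F (B p) p) +
    (∑ p ∈ (Icc 1 ⌊16 * Y ^ 4⌋₊).filter (fun p : ℕ => p ∈ S ∧ p ∉ T),
      2 ^ K * (F.card + 14 * Y ^ 2 / Real.sqrt p * sg F (B p) p)) +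
    NS S (16 * Y ^ 4) * (4 * Real.log Y) ^ K +
    (4 * Real.log Y) ^ K * NS S (Real.exp ((2 * Y ^ 2) ^ (1 / 2 + ε)))

/-! ## Weights in windows -/

/-- SIG (from SSD.RAT) -/
def T_SIG : Prop := ∀ (W A : ℕ → Finset ℕ) (k : ℕ → ℕ) (J : ℕ) (s : ℕ → ℝ) (c : ℝ) (I : Finset ℕ),
  (∀ i j, i ≠ j → Disjoint (W i) (W j)) → (∀ j, A j ⊆ W j) → I ⊆ range (J + 1) → 0 ≤ c →
  (∀ j ∈ range (J + 1), (∀ l ∈ W j, Real.exp (s j) < (l : ℝ)) ∧ 1 ≤ ∑ l ∈ W j, 1 / (l : ℝ) ∧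
    4 * (k j : ℝ) ^ 2 ≤ Real.exp (s j)) →
  (∀ j ∈ I, ∑ l ∈ A j, 1 / (l : ℝ) ≤ c * ∑ l ∈ W j, 1 / (l : ℝ)) →
  ∑ U ∈ (FF W k J).filter (fun U => ∀ j ∈ range (J + 1), U ∩ W j ⊆ A j), wt U ≤
    (∏ j ∈ I, 2 * c ^ (k j)) * ∑ U ∈ FF W k J, wt U

/-- BDC (from SSD.LV): the number of bad primes -/
def T_BDC : Prop := ∀ (Λ G : Finset ℕ) (B : ℕ → Finset ℕ) (P s A θ : ℝ) (m : ℕ), 1 ≤ m → 0 < s →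
  1 ≤ A → 0 < θ → θ ≤ 1 / 2 →
  (∀ l ∈ Λ, l.Prime ∧ l ≠ 2 ∧ Real.exp s < l ∧ (l : ℝ) ≤ Real.exp (A * s)) →
  (∀ p ∈ G, p.Prime ∧ p ≠ 2 ∧ (p : ℝ) ≤ P ∧ ((B p).card : ℝ) ≤ θ / 4 * Real.exp s) →
  16 * P ^ 3 ≤ Real.exp (m * s) → 1 ≤ ∑ l ∈ Λ, 1 / (l : ℝ) →
  (∀ p ∈ G, (1 / 2 + θ) * ∑ l ∈ Λ, 1 / (l : ℝ) <
    ∑ l ∈ Λ.filter (fun l => SSN.ch p l = 1 ∨ l ∈ B p), 1 / (l : ℝ)) →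
  (G.card : ℝ) ≤ m.factorial * (1 / θ ^ 2) ^ m * (A * m * s + 3)

/-! ## Parameters -/

/-- the numbers of factors -/
noncomputable def kx (A δ L : ℝ) (j : ℕ) : ℕ :=
  ⌈L / ((Real.log L) ^ (2 + 2 * δ) * A ^ j)⌉₊ + ⌈40 * Real.log L⌉₊

/-- basic facts on the parameters -/
def PB (A δ κ L : ℝ) (J : ℕ) : Prop :=
  L / (Real.log L) ^ (2 + δ) ≤ sj A δ L J ∧ sj A δ L J ≤ A * L / (Real.log L) ^ (2 + δ) ∧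
  (J : ℝ) ≤ Real.log L + 1 ∧
  L / (Real.log L) ^ (2 + 2 * δ) ≤ (KK (kx A δ L) J : ℝ) ∧
  (KK (kx A δ L) J : ℝ) ≤ 2 * L / (Real.log L) ^ (2 + 2 * δ) ∧
  ∑ j ∈ range (J + 1), (kx A δ L j : ℝ) * sj A δ L (j + 1) ≤ κ * L

/-- PB -/
def T_PB : Prop := ∀ A δ κ : ℝ, 3 ≤ A → 0 < δ → δ ≤ 1 → 0 < κ → ∃ L₀ : ℝ, 3 ≤ L₀ ∧
  ∀ L : ℝ, L₀ ≤ L → ∃ J : ℕ, PB A δ κ L J

/-- PF -/
def T_PF : Prop := ∀ A δ θ κ : ℝ, 3 ≤ A → 0 < δ → δ ≤ 1 → 0 < θ → θ ≤ 1 / 20 → 0 < κ → κ ≤ 1 →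
  ∃ L₀ : ℝ, 3 ≤ L₀ ∧ ∀ L : ℝ, L₀ ≤ L → ∀ J : ℕ, PB A δ κ L J → ∀ j ∈ range J, ∃ m : ℕ, 1 ≤ m ∧
    12 * (KK (kx A δ L) J : ℝ) + 3 ≤ m * sj A δ L j ∧
    m.factorial * (1 / θ ^ 2) ^ m * (A * m * sj A δ L j + 3) * (7 / 10) ^ (kx A δ L (j + 1)) *
      L ^ 8 ≤ 1

/-- PG -/
def T_PG : Prop := ∀ A δ θ κ : ℝ, 3 ≤ A → 0 < δ → δ ≤ 1 → 0 < θ → θ ≤ 1 / 20 → 0 < κ → κ ≤ 1 →
  ∃ L₀ : ℝ, 3 ≤ L₀ ∧ ∀ L : ℝ, L₀ ≤ L → ∀ J : ℕ, PB A δ κ L J → ∀ j ∈ range (J + 1), ∀ v : ℝ,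
    4 * (KK (kx A δ L) J : ℝ) ≤ v → v ≤ 5 * L → ∃ m : ℕ, 1 ≤ m ∧ 3 * v + 3 ≤ m * sj A δ L j ∧
      m.factorial * (1 / θ ^ 2) ^ m * (A * m * sj A δ L j + 3) ≤ Real.exp (v / 8)

/-- conditions on the parameters -/
def Prm (A δ θ κ L : ℝ) (J : ℕ) (k : ℕ → ℕ) : Prop :=
  4 * (KK k J : ℝ) ≤ sj A δ L J ∧
  ∑ j ∈ range (J + 1), (k j : ℝ) * sj A δ L (j + 1) ≤ κ * L ∧
  (J : ℝ) ≤ 2 * Real.log L ∧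
  L / (Real.log L) ^ (2 + 3 * δ) ≤ (KK k J : ℝ) ∧
  2 ^ (J + 1) * Real.exp (-(θ * (KK k J : ℝ))) * L ^ 10 ≤ 1 ∧
  (∀ j ∈ range J, ∃ m : ℕ, 1 ≤ m ∧ 12 * (KK k J : ℝ) + 3 ≤ m * sj A δ L j ∧
    m.factorial * (1 / θ ^ 2) ^ m * (A * m * sj A δ L j + 3) * (7 / 10) ^ (k (j + 1)) *
      L ^ 8 ≤ 1) ∧
  (∀ j ∈ range (J + 1), ∀ v : ℝ, 4 * (KK k J : ℝ) ≤ v → v ≤ 5 * L → ∃ m : ℕ, 1 ≤ m ∧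
    3 * v + 3 ≤ m * sj A δ L j ∧
    m.factorial * (1 / θ ^ 2) ^ m * (A * m * sj A δ L j + 3) ≤ Real.exp (v / 8)) ∧
  (8 * L) ^ (4 * KK k J) ≤ Real.exp (κ * L) ∧
  (∀ j ∈ range (J + 1), 4 * (k j : ℝ) ^ 2 ≤ Real.exp (sj A δ L j)) ∧
  100 / θ * L ≤ Real.exp (sj A δ L 0) ∧ 2 ≤ sj A δ L 0 ∧ 100 ≤ L

/-- PA4 (from PB, PF, PG): the parameters exist -/
def T_PA4 : Prop := ∀ A δ θ κ : ℝ, 3 ≤ A → 0 < δ → δ ≤ 1 → 0 < θ → θ ≤ 1 / 20 → 0 < κ → κ ≤ 1 →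
  ∃ L₀ : ℝ, 3 ≤ L₀ ∧ ∀ L : ℝ, L₀ ≤ L → ∃ (J : ℕ) (k : ℕ → ℕ), Prm A δ θ κ L J k

/-- FM4 (from SSD.PRD, SSD.RAT): the family of the factors -/
def T_FM4 : Prop := ∀ (S Q : Set ℕ) (A δ θ κ Y : ℝ) (J : ℕ) (k : ℕ → ℕ), ClsT S Q A θ → 0 < δ →
  0 < θ → 0 < κ → κ ≤ 1 / 16 → 0 < Y → Prm A δ θ κ (Real.log Y) J k →
  Fam S Y (KK k J) (FF (Wj Q A δ (Real.log Y)) k J) ∧
  (∀ U ∈ FF (Wj Q A δ (Real.log Y)) k J, ∀ l ∈ U,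
    Real.exp ((Real.log (Real.log Y)) ^ (1 + δ)) < (l : ℝ)) ∧
  ((FF (Wj Q A δ (Real.log Y)) k J).card : ℝ) ≤ Y ^ κ ∧
  Y ^ (-κ) ≤ ∑ U ∈ FF (Wj Q A δ (Real.log Y)) k J, wt U

/-! ## The sum over the killers -/

/-- `p` is bad for the window `j` -/
def Bd (Q : Set ℕ) (A δ θ L : ℝ) (B : ℕ → Finset ℕ) (j p : ℕ) : Prop :=
  (1 / 2 + θ) * ∑ l ∈ Wj Q A δ L j, 1 / (l : ℝ) <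
    ∑ l ∈ (Wj Q A δ L j).filter (fun l => SSN.ch p l = 1 ∨ l ∈ B p), 1 / (l : ℝ)

/-- KSA (from SIG): primes which are not bad -/
def T_KSA : Prop := ∀ (S Q : Set ℕ) (A δ θ κ L : ℝ) (J : ℕ) (k : ℕ → ℕ) (B : ℕ → Finset ℕ),
  ClsT S Q A θ → 0 < δ → 0 < θ → θ ≤ 1 / 20 → Prm A δ θ κ L J k → ∀ p : ℕ,
  ((∀ j ∈ range (J + 1), ¬ Bd Q A δ θ L B j p) → sg (FF (Wj Q A δ L) k J) (B p) p ≤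
    2 ^ (J + 1) * (1 / 2 + θ) ^ (KK k J) * ∑ U ∈ FF (Wj Q A δ L) k J, wt U) ∧
  (∀ j ∈ range (J + 1), ¬ Bd Q A δ θ L B j p → sg (FF (Wj Q A δ L) k J) (B p) p ≤
    2 * (7 / 10) ^ (k j) * ∑ U ∈ FF (Wj Q A δ L) k J, wt U) ∧
  sg (FF (Wj Q A δ L) k J) (B p) p ≤ ∑ U ∈ FF (Wj Q A δ L) k J, wt U

/-- KSC (from BDC): bad primes are rare -/
def T_KSC : Prop := ∀ (S Q : Set ℕ) (A δ θ κ Y : ℝ) (J : ℕ) (k : ℕ → ℕ) (B : ℕ → Finset ℕ),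
  ClsT S Q A θ → (∀ p ∈ S, p.Prime ∧ p ≠ 2) → 0 < δ → 0 < θ → θ ≤ 1 / 20 → 0 < Y →
  Prm A δ θ κ (Real.log Y) J k → (∀ p, (2 : ℝ) ^ (B p).card ≤ 4 * Y ^ 4) →
  (∀ p ∈ S, (p : ℝ) ≤ Real.exp (4 * (KK k J : ℝ)) → ¬ Bd Q A δ θ (Real.log Y) B J p) ∧
  (∀ j ∈ range J, ((((Icc 1 ⌊Real.exp (4 * (KK k J : ℝ))⌋₊).filter fun p : ℕ => p ∈ S ∧
      Bd Q A δ θ (Real.log Y) B j p).card : ℕ) : ℝ) * (7 / 10) ^ (k (j + 1)) ≤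
    1 / (Real.log Y) ^ 8) ∧
  ∀ j ∈ range (J + 1), ∀ v : ℝ, 4 * (KK k J : ℝ) ≤ v → v ≤ 5 * Real.log Y →
    ((((Icc 1 ⌊Real.exp v⌋₊).filter fun p : ℕ => p ∈ S ∧
      Bd Q A δ θ (Real.log Y) B j p).card : ℕ) : ℝ) ≤ Real.exp (v / 8)

/-- KS4 (from KSA, KSC, DYA): the sum over the killers -/
def T_KS4 : Prop := ∀ (S Q : Set ℕ) (A δ θ ε κ Y : ℝ) (J : ℕ) (k : ℕ → ℕ) (B : ℕ → Finset ℕ),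
  ClsT S Q A θ → (∀ p ∈ S, p.Prime ∧ p ≠ 2) → 0 < δ → 0 < θ → θ ≤ 1 / 20 → 3 * θ ≤ ε →
  ε ≤ 1 / 4 → 0 < κ → κ ≤ 1 / 16 → 0 < Y → Prm A δ θ κ (Real.log Y) J k →
  UB S ε (2 + 3 * δ) Y → (∀ p, (2 : ℝ) ^ (B p).card ≤ 4 * Y ^ 4) → ∃ T : Set ℕ,
  (∑ p ∈ (Icc 1 ⌊16 * Y ^ 4⌋₊).filter (fun p : ℕ => p ∈ S ∧ p ∈ T),
      sg (FF (Wj Q A δ (Real.log Y)) k J) (B p) p) +
    2 ^ (KK k J) * (∑ p ∈ (Icc 1 ⌊16 * Y ^ 4⌋₊).filter (fun p : ℕ => p ∈ S ∧ p ∉ T),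
      sg (FF (Wj Q A δ (Real.log Y)) k J) (B p) p / Real.sqrt p) ≤
    (∑ U ∈ FF (Wj Q A δ (Real.log Y)) k J, wt U) / (Real.log Y) ^ 6

/-! ## The result -/

/-- DI4 (from PA4, FM4, KS4, RR4, LO4, AS4, SSD.TU2) -/
def T_DI4 : Prop := ∀ (S : Set ℕ) (Kl : ℕ → ℕ → Prop) (M : ℕ) (ρ : ℝ), Data S Kl M ρ →
  (∀ θ : ℝ, 0 < θ → ∃ (Q : Set ℕ) (A : ℝ), ClsT S Q A θ) → ∀ δ ε ε' : ℝ, 0 < δ → δ ≤ 1 →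
  0 < ε → ε ≤ 1 / 4 → 0 < ε' → ε' < 1 → ∃ Y₀ : ℝ, 1 ≤ Y₀ ∧ ∀ Y : ℝ, Y₀ ≤ Y →
    UB S ε (2 + 3 * δ) Y → Y ^ (2 - ε') ≤ NS S (Real.exp (Y ^ (1 + ε')))

/-- the local dichotomy for a function `N` -/
def LD (N : ℝ → ℝ) : Prop := ∀ ε ε' η : ℝ, 0 < ε → 0 < ε' → ε' ≤ 1 / 4 → 2 < η →
  ∃ x₀ : ℝ, ∀ x : ℝ, x₀ ≤ x → (Real.log x) ^ (2 - ε) ≤ N x ∨ ∃ t : ℝ,
    Real.exp (Real.log (Real.log x) / (Real.log (Real.log (Real.log x))) ^ η) ≤ t ∧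
    t ≤ (Real.log x) ^ 5 ∧ t ^ (1 / 2 - ε') ≤ N t

/-- LD4 (from DI4) -/
def T_LD4 : Prop := ∀ (S : Set ℕ) (Kl : ℕ → ℕ → Prop) (M : ℕ) (ρ : ℝ), Data S Kl M ρ →
  (∀ θ : ℝ, 0 < θ → ∃ (Q : Set ℕ) (A : ℝ), ClsT S Q A θ) → LD (NS S)

/-- exceptional numbers repel each other -/
def RP (N : ℝ → ℝ) : Prop := ∀ ε η : ℝ, 0 < ε → 2 < η → ∃ x₀ : ℝ, ∀ x z : ℝ, x₀ ≤ x →
  N x < (Real.log x) ^ (2 - ε) → (Real.log x) ^ 5 ≤ z →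
  z ≤ Real.exp (Real.exp (Real.log (Real.log x) / (Real.log (Real.log (Real.log x))) ^ η)) →
  (Real.log z) ^ (2 - ε) ≤ N z

/-- EXC -/
def T_EXC : Prop := ∀ N : ℝ → ℝ, Monotone N → LD N → RP N

/-- MEA: the exceptional set is small -/
def T_MEA : Prop := ∀ N : ℝ → ℝ, RP N → ∀ ε : ℝ, 0 < ε → ∃ C V₀ : ℝ, ∀ V : ℝ, V₀ ≤ V →
  MeasureTheory.volume {v : ℝ | 0 ≤ v ∧ v ≤ V ∧ N (Real.exp (Real.exp (Real.exp v))) <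
    (Real.log (Real.exp (Real.exp (Real.exp v)))) ^ (2 - ε)} ≤ ENNReal.ofReal (C * Real.log V)

end SSX
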