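import Mathlib
import Pool.Agent.SSX.Targets

/-!
SIG: weights of families contained in given parts of the windows
-/

set_option autoImplicit false

open scoped BigOperators Classical
open Finset

namespace SSX

open SSC SSD

namespace SIG_

theorem wt_nonneg (U : Finset ℕ) : 0 ≤ wt U := by
  unfold wt
  exact prod_nonneg fun l _ => by positivity

theorem em_nonneg (A : Finset ℕ) (m : ℕ) : 0 ≤ em A m := by
  unfold SSD.em
  exact sum_nonneg fun T _ => wt_nonneg T

theorem em_mono {A W : Finset ℕ} (h : A ⊆ W) (m : ℕ) : em A m ≤ em W m := by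
  unfold SSD.em
  exact sum_le_sum_of_subset_of_nonneg (powersetCard_mono h) fun T _ _ => wt_nonneg T

/-- the filtered family is the family of the parts -/
theorem filter_eq (W A : ℕ → Finset ℕ) (k : ℕ → ℕ) (J : ℕ)
    (hW : ∀ i j, i ≠ j → Disjoint (W i) (W j)) (hA : ∀ j, A j ⊆ W j) :
    (FF W k J).filter (fun U => ∀ j ∈ range (J + 1), U ∩ W j ⊆ A j) = FF A k J := by
  have key : ∀ (U : Finset ℕ) (j : ℕ), U ∩ W j ⊆ A j → U ∩ W j = U ∩ A j := by
    intro U j h
    ext x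
    rw [mem_inter, mem_inter]
    constructor
    · rintro ⟨h1, h2⟩
      exact ⟨h1, h (mem_inter.2 ⟨h1, h2⟩)⟩
    · rintro ⟨h1, h2⟩
      exact ⟨h1, hA j h2⟩
  ext U
  simp only [FF, mem_filter, mem_powerset]
  constructor
  · rintro ⟨⟨h1, h2⟩, h3⟩
    refine ⟨fun x hx => ?_, fun j hj => ?_⟩
    · obtain ⟨j, hj, hxj⟩ := mem_biUnion.1 (h1 hx)
      exact mem_biUnion.2 ⟨j, hj, h3 j hj (mem_inter.2 ⟨hx, hxj⟩)⟩
    · rw [← key U j (h3 j hj)]
      exact h2 j hj
  · rintro ⟨h1, h2⟩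
    have h3 : ∀ j ∈ range (J + 1), U ∩ W j ⊆ A j := by
      intro j _ x hx
      rw [mem_inter] at hx
      obtain ⟨i, _, hxi⟩ := mem_biUnion.1 (h1 hx.1)
      by_cases hij : i = j
      · rw [← hij]
        exact hxi
      · exact absurd hx.2 (Finset.disjoint_left.1 (hW i j hij) (hA i hxi))
    refine ⟨⟨fun x hx => ?_, fun j hj => ?_⟩, h3⟩
    · obtain ⟨j, hj, hxj⟩ := mem_biUnion.1 (h1 hx)
      exact mem_biUnion.2 ⟨j, hj, hA j hxj⟩
    · rw [key U j (h3 j hj)]
      exact h2 j hj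

end SIG_

open SIG_ in
theorem p_SIG (h1 : SSD.T_RAT) (h2 : SSD.T_PRD) : T_SIG := by
  intro W A k J s c I hW hA hI hc hj hcA
  have hAd : ∀ i j, i ≠ j → Disjoint (A i) (A j) := fun i j hij =>
    (hW i j hij).mono (hA i) (hA j)
  have hF : ∑ U ∈ (FF W k J).filter (fun U => ∀ j ∈ range (J + 1), U ∩ W j ⊆ A j), wt U =
      ∑ U ∈ FF A k J, wt U := by
    refine sum_congr ?_ fun _ _ => rfl
    rw [← filter_eq W A k J hW hA]
  rw [hF, (h2 A k J hAd).2.1, (h2 W k J hW).2.1]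
  have h3 : ∀ j ∈ range (J + 1), em (A j) (k j) ≤
      (if j ∈ I then 2 * c ^ (k j) else 1) * em (W j) (k j) := by
    intro j hjr
    by_cases hjI : j ∈ I
    · rw [if_pos hjI]
      obtain ⟨e1, e2, e3⟩ := hj j hjr
      exact (h1 (W j) (A j) (k j) (s j) (hA j) e1 e2 e3).1 c hc (hcA j hjI)
    · rw [if_neg hjI, one_mul]
      exact em_mono (hA j) (k j)
  calc ∏ j ∈ range (J + 1), em (A j) (k j) ≤
      ∏ j ∈ range (J + 1), ((if j ∈ I then 2 * c ^ (k j) else 1) * em (W j) (k j)) :=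
        prod_le_prod (fun j _ => em_nonneg _ _) h3
    _ = (∏ j ∈ I, 2 * c ^ (k j)) * ∏ j ∈ range (J + 1), em (W j) (k j) := by
        rw [prod_mul_distrib, prod_ite_mem, inter_eq_right.mpr hI]

end SSX
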