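import Pool.Agent.SSX.Targets
import Pool.Agent.SSF.WEI

/-!
# MP_d74fca_nt, project SSX (helper22): transfer to integral Weierstrass equations
-/

set_option autoImplicit false

namespace SSX

theorem cnt_mono (W : WeierstrassCurve ℤ) : Monotone fun x : ℝ => (SSF.cnt W 0 x : ℝ) := by
  intro x y hxy
  have hfin : {p : ℕ | p.Prime ∧ (p : ℝ) ≤ y ∧ ¬ (p : ℤ) ∣ W.Δ ∧ SSF.ap W p = 0}.Finite := by
    apply (Set.finite_Iic ⌊y⌋₊).subset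
    rintro p ⟨-, hx, -⟩
    exact Nat.le_floor hx
  have := Set.ncard_le_ncard (s := {p : ℕ | p.Prime ∧ (p : ℝ) ≤ x ∧ ¬ (p : ℤ) ∣ W.Δ ∧
    SSF.ap W p = 0}) (t := {p : ℕ | p.Prime ∧ (p : ℝ) ≤ y ∧ ¬ (p : ℤ) ∣ W.Δ ∧ SSF.ap W p = 0}) (by
      rintro p ⟨h1, h2, h3⟩
      exact ⟨h1, h2.trans hxy, h3⟩) hfin
  show ((SSF.cnt W 0 x : ℕ) : ℝ) ≤ ((SSF.cnt W 0 y : ℕ) : ℝ)
  unfold SSF.cnt
  exact_mod_cast this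

/-- the local dichotomy for `a_p = 0` -/
theorem ld_cnt (hD : SSF.T_DATA) (hC : T_CLT) (hL : T_LD4) (W : WeierstrassCurve ℤ) (hΔ : W.Δ ≠ 0)
    (h4 : W.c₄ ≠ 0) (h6 : W.c₆ ≠ 0) : LD fun x : ℝ => (SSF.cnt W 0 x : ℝ) := by
  obtain ⟨M, ρ, hM⟩ := hD (-27 * W.c₄) (-54 * W.c₆) (mul_ne_zero (by norm_num) h4)
    (mul_ne_zero (by norm_num) h6) (SSF.p_WEK W hΔ)
  have h := hL _ _ M ρ hM (hC _ _ (SSF.p_WEK W hΔ))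
  intro ε ε' η h1 h2 h3 h5
  obtain ⟨x₀, hx⟩ := h ε ε' η h1 h2 h3 h5
  refine ⟨x₀, fun x hxx => ?_⟩
  rcases hx x hxx with h7 | ⟨t, h7, h8, h9⟩
  · exact Or.inl (h7.trans (SSF.p_WEJ W x))
  · exact Or.inr ⟨t, h7, h8, h9.trans (SSF.p_WEJ W t)⟩

/-- the final statement -/
theorem p_FIN (hD : SSF.T_DATA) (hC : T_CLT) (hL : T_LD4) (hE : T_EXC) (hM : T_MEA)
    (W : WeierstrassCurve ℤ) (hΔ : W.Δ ≠ 0) (h4 : W.c₄ ≠ 0) (h6 : W.c₆ ≠ 0) (ε : ℝ) (hε : 0 < ε) :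
    ∃ C V₀ : ℝ, ∀ V : ℝ, V₀ ≤ V → MeasureTheory.volume {v : ℝ | 0 ≤ v ∧ v ≤ V ∧
      (SSF.cnt W 0 (Real.exp (Real.exp (Real.exp v))) : ℝ) <
        (Real.log (Real.exp (Real.exp (Real.exp v)))) ^ (2 - ε)} ≤ ENNReal.ofReal (C * Real.log V) :=
  hM _ (hE _ (cnt_mono W) (ld_cnt hD hC hL W hΔ h4 h6)) ε hε

end SSX
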