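import Pool.Agent.SSD.All
import Pool.Agent.SSX.CLT
import Pool.Agent.SSX.DYA
import Pool.Agent.SSX.HL4
import Pool.Agent.SSX.LO4
import Pool.Agent.SSX.RR4
import Pool.Agent.SSX.AS4
import Pool.Agent.SSX.SIG
import Pool.Agent.SSX.BDC
import Pool.Agent.SSX.PB
import Pool.Agent.SSX.PF
import Pool.Agent.SSX.PG
import Pool.Agent.SSX.PA4
import Pool.Agent.SSX.FM4
import Pool.Agent.SSX.KSA
import Pool.Agent.SSX.KSC
import Pool.Agent.SSX.KS4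
import Pool.Agent.SSX.DI4
import Pool.Agent.SSX.LD4
import Pool.Agent.SSX.EXC
import Pool.Agent.SSX.MEA
import Pool.Agent.SSX.Transfer

/-!
# MP_d74fca_nt, project SSX: the unconditional theorem (helper22)
-/

set_option autoImplicit false

namespace SSX.All

open SSF.All SSD.All

theorem CLT : T_CLT := p_CLT SSD_QCL SSD_NSS
theorem DYA : T_DYA := p_DYA
theorem HL4 : T_HL4 := p_HL4 SSC_BRU SSC_MER DYA
theorem LO4 : T_LO4 := p_LO4 HL4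
theorem RR4 : T_RR4 := p_RR4 SSC_CHEB
theorem AS4 : T_AS4 := p_AS4 SSD_TU2 SSC_KIL SSD_KI3
theorem SIG : T_SIG := p_SIG SSD_RAT SSD_PRD
theorem BDC : T_BDC := p_BDC SSD_LV
theorem PA4 : T_PA4 := p_PA4 p_PB p_PF p_PG
theorem FM4 : T_FM4 := p_FM4 SSD_PRD SSD_RAT
theorem KSA : T_KSA := p_KSA SIG
theorem KSC : T_KSC := p_KSC BDC
theorem KS4 : T_KS4 := p_KS4 KSA KSC DYA
theorem DI4 : T_DI4 := p_DI4 PA4 FM4 KS4 RR4 LO4 AS4 SSD_TU2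
theorem LD4 : T_LD4 := p_LD4 DI4

/-- the local dichotomy, unconditionally -/
theorem ld (W : WeierstrassCurve ℤ) (hΔ : W.Δ ≠ 0) (h4 : W.c₄ ≠ 0) (h6 : W.c₆ ≠ 0) :
    LD fun x : ℝ => (SSF.cnt W 0 x : ℝ) :=
  ld_cnt SSF_DATA CLT LD4 W hΔ h4 h6

/-- the unconditional theorem -/
theorem final (W : WeierstrassCurve ℤ) (hΔ : W.Δ ≠ 0) (h4 : W.c₄ ≠ 0) (h6 : W.c₆ ≠ 0) (ε : ℝ)
    (hε : 0 < ε) :
    ∃ C V₀ : ℝ, ∀ V : ℝ, V₀ ≤ V → MeasureTheory.volume {v : ℝ | 0 ≤ v ∧ v ≤ V ∧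
      (SSF.cnt W 0 (Real.exp (Real.exp (Real.exp v))) : ℝ) <
        (Real.log (Real.exp (Real.exp (Real.exp v)))) ^ (2 - ε)} ≤ ENNReal.ofReal (C * Real.log V) :=
  p_FIN SSF_DATA CLT LD4 p_EXC p_MEA W hΔ h4 h6 ε hε

end SSX.All
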