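import Pool.Agent.SSX.Targets

/-!
# KS4: the sum over the killers
-/

set_option autoImplicit false
set_option maxHeartbeats 4000000

open scoped BigOperators Classical
open Finset

namespace SSX

open SSC SSD

namespace KS4_

lemma exp_eleven : Real.exp (11 / 20) ≤ 9 / 5 := by
  have h1 : Real.exp (11 / 20) * Real.exp (11 / 20) = Real.exp 1 * Real.exp (1 / 10) := by
    rw [← Real.exp_add, ← Real.exp_add]; norm_num
  have h2 : 1 - (1 / 10 : ℝ) ≤ Real.exp (-(1 / 10)) := Real.one_sub_le_exp_neg _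
  have h3 : Real.exp (1 / 10) * Real.exp (-(1 / 10)) = 1 := by
    rw [← Real.exp_add]; norm_num
  have h4 : Real.exp (1 / 10) ≤ 10 / 9 := by
    have := Real.exp_pos (1 / 10)
    nlinarith
  have h5 := Real.exp_one_lt_d9
  have h6 := Real.exp_pos (11 / 20)
  by_contra hc
  push Not at hc
  have h7 : Real.exp 1 * Real.exp (1 / 10) ≤ 2.7182818286 * (10 / 9) := by
    have := Real.exp_pos 1
    have := Real.exp_pos (1 / 10)
    gcongr
  nlinarith

lemma base_le {θ : ℝ} (h0 : 0 < θ) (h1 : θ ≤ 1 / 20) :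
    (1 / 2 + θ) * Real.exp (1 / 2) ≤ Real.exp (-θ) := by
  have h2 : Real.exp (1 / 2 + θ) ≤ 9 / 5 := by
    refine le_trans (Real.exp_le_exp.2 ?_) exp_eleven
    linarith
  have h3 : (1 / 2 + θ) * Real.exp (1 / 2 + θ) ≤ 1 := by
    calc (1 / 2 + θ) * Real.exp (1 / 2 + θ) ≤ (1 / 2 + 1 / 20) * (9 / 5) := by
          gcongr
      _ ≤ 1 := by norm_num
  have h4 : (1 / 2 + θ) * Real.exp (1 / 2) = ((1 / 2 + θ) * Real.exp (1 / 2 + θ)) * Real.exp (-θ) := by
    rw [mul_assoc, ← Real.exp_add]; congr 2; ring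
  rw [h4]
  have := Real.exp_pos (-θ)
  nlinarith

lemma card_le_NS (S : Set ℕ) (x : ℝ) (G : Finset ℕ)
    (h : ∀ p ∈ G, p ∈ S ∧ (p : ℝ) ≤ x) : (G.card : ℝ) ≤ NS S x := by
  unfold NS
  have hf : {p : ℕ | p ∈ S ∧ (p : ℝ) ≤ x}.Finite := by
    apply Set.Finite.subset (Set.finite_Iic ⌊x⌋₊)
    intro p hp
    exact Nat.le_floor hp.2
  rw [← Set.ncard_coe_finset G]
  exact_mod_cast Set.ncard_le_ncard (fun p hp => h p hp) hf

lemma partA (S : Set ℕ) (f : ℕ → ℝ) (P : Finset ℕ) (a x : ℝ) (ha : 0 ≤ a)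
    (hP : ∀ p ∈ P, p ∈ S ∧ (p : ℝ) ≤ x) (hf : ∀ p ∈ P, f p ≤ a) :
    ∑ p ∈ P, f p ≤ NS S x * a := by
  calc ∑ p ∈ P, f p ≤ ∑ p ∈ P, a := sum_le_sum hf
    _ = P.card * a := by rw [sum_const, nsmul_eq_mul]
    _ ≤ NS S x * a := by
        gcongr
        exact card_le_NS S x P hP

lemma union_le {ι : Type} (P : Finset ℕ) (I : Finset ι) (g : ℕ → ℝ) (h : ι → ℝ)
    (R : ι → ℕ → Prop) [∀ i, DecidablePred (R i)] (hh : ∀ i ∈ I, 0 ≤ h i)
    (hg : ∀ p ∈ P, ∃ i ∈ I, R i p ∧ g p ≤ h i) :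
    ∑ p ∈ P, g p ≤ ∑ i ∈ I, ((P.filter (R i)).card : ℝ) * h i := by
  calc ∑ p ∈ P, g p ≤ ∑ p ∈ P, ∑ i ∈ I, (if R i p then h i else 0) := by
        apply sum_le_sum
        intro p hp
        obtain ⟨i, hi, hR, hle⟩ := hg p hp
        refine le_trans hle ?_
        have := single_le_sum (f := fun i => if R i p then h i else 0)
          (fun j hj => by
            show (0 : ℝ) ≤ if R j p then h j else 0
            split_ifs
            · exact hh j hj
            · exact le_refl _) hi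
        simpa [hR] using this
    _ = ∑ i ∈ I, ∑ p ∈ P, (if R i p then h i else 0) := sum_comm
    _ = _ := by
        apply sum_congr rfl
        intro i _
        rw [← sum_filter, sum_const, nsmul_eq_mul]

lemma last_bad (bad : ℕ → Prop) (J : ℕ) (hJ : ¬ bad J) (h : ∃ j ∈ range (J + 1), bad j) :
    ∃ j ∈ range J, bad j ∧ ¬ bad (j + 1) := by
  by_contra hc
  push Not at hc
  obtain ⟨j0, hj0, hb⟩ := h
  have h1 : j0 ≤ J := by
    have := mem_range.1 hj0
    omega
  have key : ∀ n, j0 + n ≤ J → bad (j0 + n) := by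
    intro n
    induction n with
    | zero => intro _; exact hb
    | succ n ih =>
        intro hn
        exact hc (j0 + n) (mem_range.2 (by omega)) (ih (by omega))
  have := key (J - j0) (by omega)
  rw [show j0 + (J - j0) = J by omega] at this
  exact hJ this

lemma geo_le (N : ℕ) : Real.exp (1 / 8) * ∑ i ∈ range N, Real.exp (-(3 / 8)) ^ i ≤ 4 := by
  set r := Real.exp (-(3 / 8)) with hr
  have hr0 : 0 < r := Real.exp_pos _
  have h1 : 1 + 3 / 8 + (3 / 8 : ℝ) ^ 2 / 2 ≤ Real.exp (3 / 8) :=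
    Real.quadratic_le_exp_of_nonneg (by norm_num)
  have h2 : r * Real.exp (3 / 8) = 1 := by
    rw [hr, ← Real.exp_add]; norm_num
  have h3 : r ≤ 7 / 10 := by nlinarith
  have h4 : 1 - (1 / 8 : ℝ) ≤ Real.exp (-(1 / 8)) := Real.one_sub_le_exp_neg _
  have h5 : Real.exp (1 / 8) * Real.exp (-(1 / 8)) = 1 := by
    rw [← Real.exp_add]; norm_num
  have h6 : Real.exp (1 / 8) ≤ 8 / 7 := by
    have := Real.exp_pos (1 / 8)
    nlinarith
  have h7 : (∑ i ∈ range N, r ^ i) * (1 - r) ≤ 1 := by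
    have h8 := mul_neg_geom_sum r N
    have h9 : 0 ≤ r ^ N := by positivity
    nlinarith
  have h8 : ∑ i ∈ range N, r ^ i ≤ 10 / 3 := by
    have : 0 ≤ ∑ i ∈ range N, r ^ i := sum_nonneg fun i _ => by positivity
    nlinarith
  have h9 : 0 ≤ ∑ i ∈ range N, r ^ i := sum_nonneg fun i _ => by positivity
  calc Real.exp (1 / 8) * ∑ i ∈ range N, r ^ i ≤ (8 / 7) * (10 / 3) := by gcongr
    _ ≤ 4 := by norm_num

lemma inv_sqrt_le {v : ℝ} {p : ℕ} (h : Real.exp v < (p : ℝ)) :
    1 / Real.sqrt p ≤ Real.exp (-(v / 2)) := by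
  have h1 : Real.exp (v / 2) ≤ Real.sqrt p := by
    apply Real.le_sqrt_of_sq_le
    rw [← Real.exp_nat_mul]
    refine le_trans (le_of_eq ?_) h.le
    congr 1
    push_cast
    ring
  rw [Real.exp_neg, ← one_div]
  exact one_div_le_one_div_of_le (Real.exp_pos _) h1

lemma partD (S : Set ℕ) (bad : ℕ → ℕ → Prop) (J K : ℕ) (L : ℝ) (P : Finset ℕ)
    (hP : ∀ p ∈ P, p ∈ S ∧ Real.exp (4 * (K : ℝ)) < (p : ℝ) ∧ Real.log p ≤ 4 * L + 3 ∧
      ∃ j ∈ range (J + 1), bad j p) (hL : 4 ≤ L)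
    (hC : ∀ j ∈ range (J + 1), ∀ v : ℝ, 4 * (K : ℝ) ≤ v → v ≤ 5 * L →
      ((((Icc 1 ⌊Real.exp v⌋₊).filter fun p : ℕ => p ∈ S ∧ bad j p).card : ℕ) : ℝ) ≤
        Real.exp (v / 8)) :
    ∑ p ∈ P, 1 / Real.sqrt p ≤ ((J : ℝ) + 1) * (4 * Real.exp (-(3 / 2 * (K : ℝ)))) := by
  set N : ℕ := ⌊5 * L - 4 * (K : ℝ)⌋₊ with hN
  have hpos : ∀ p ∈ P, (0 : ℝ) < p := fun p hp => lt_trans (Real.exp_pos _) (hP p hp).2.1
  have h1 : ∑ p ∈ P, 1 / Real.sqrt p ≤ ∑ x ∈ range (J + 1) ×ˢ range N,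
      ((P.filter (fun p : ℕ => bad x.1 p ∧ Real.exp (4 * (K : ℝ) + x.2) < (p : ℝ) ∧
        (p : ℝ) ≤ Real.exp (4 * (K : ℝ) + x.2 + 1))).card : ℝ) *
        Real.exp (-((4 * (K : ℝ) + x.2) / 2)) := by
    apply union_le P (range (J + 1) ×ˢ range N) (fun p => 1 / Real.sqrt p)
      (fun x => Real.exp (-((4 * (K : ℝ) + x.2) / 2)))
      (fun (x : ℕ × ℕ) (p : ℕ) => bad x.1 p ∧ Real.exp (4 * (K : ℝ) + x.2) < (p : ℝ) ∧
        (p : ℝ) ≤ Real.exp (4 * (K : ℝ) + x.2 + 1))
    · intro x _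
      exact (Real.exp_pos _).le
    · intro p hp
      obtain ⟨hpS, hpK, hpL, j, hj, hb⟩ := hP p hp
      have hp0 := hpos p hp
      have hx0 : 0 < Real.log p - 4 * (K : ℝ) := by
        have := (Real.lt_log_iff_exp_lt hp0).2 hpK
        linarith
      set x := Real.log p - 4 * (K : ℝ) with hx
      have hc1 : 0 < ⌈x⌉₊ := Nat.ceil_pos.2 hx0
      have hc2 : (⌈x⌉₊ : ℝ) < x + 1 := Nat.ceil_lt_add_one hx0.le
      have hc3 : x ≤ (⌈x⌉₊ : ℝ) := Nat.le_ceil x
      obtain ⟨i, hi⟩ : ∃ i, ⌈x⌉₊ = i + 1 := ⟨⌈x⌉₊ - 1, by omega⟩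
      rw [hi] at hc2 hc3
      push_cast at hc2 hc3
      have hiN : i < N := by
        have : i + 1 ≤ N := by
          rw [hN]
          apply Nat.le_floor
          push_cast
          linarith
        omega
      have hlow : Real.exp (4 * (K : ℝ) + (i : ℝ)) < (p : ℝ) := by
        rw [← Real.lt_log_iff_exp_lt hp0]
        linarith
      refine ⟨(j, i), mem_product.2 ⟨hj, mem_range.2 hiN⟩, ⟨hb, hlow, ?_⟩, ?_⟩
      · rw [← Real.log_le_iff_le_exp hp0]
        show Real.log p ≤ 4 * (K : ℝ) + (i : ℝ) + 1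
        linarith
      · exact inv_sqrt_le hlow
  refine le_trans h1 ?_
  rw [sum_product]
  have h2 : ∀ j ∈ range (J + 1), ∑ i ∈ range N,
      ((P.filter (fun p : ℕ => bad j p ∧ Real.exp (4 * (K : ℝ) + i) < (p : ℝ) ∧
        (p : ℝ) ≤ Real.exp (4 * (K : ℝ) + i + 1))).card : ℝ) *
        Real.exp (-((4 * (K : ℝ) + i) / 2)) ≤ 4 * Real.exp (-(3 / 2 * (K : ℝ))) := by
    intro j hj
    calc _ ≤ ∑ i ∈ range N, Real.exp ((4 * (K : ℝ) + i + 1) / 8) *
          Real.exp (-((4 * (K : ℝ) + i) / 2)) := by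
          apply sum_le_sum
          intro i hi
          have hiN := mem_range.1 hi
          have hN1 : (i : ℝ) + 1 ≤ N := by exact_mod_cast hiN
          have hNpos : 0 < N := by omega
          have hN2 : (N : ℝ) ≤ 5 * L - 4 * (K : ℝ) := by
            apply Nat.floor_le
            by_contra hneg
            push Not at hneg
            rw [hN, Nat.floor_of_nonpos hneg.le] at hNpos
            exact lt_irrefl 0 hNpos
          have hi0 : (0 : ℝ) ≤ i := Nat.cast_nonneg i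
          have h3 := hC j hj (4 * (K : ℝ) + i + 1) (by linarith) (by linarith)
          gcongr
          refine le_trans ?_ h3
          exact_mod_cast card_le_card (by
            intro p hp
            obtain ⟨hp1, hp2, hp3, hp4⟩ := mem_filter.1 hp
            refine mem_filter.2 ⟨mem_Icc.2 ⟨?_, Nat.le_floor hp4⟩, (hP p hp1).1, hp2⟩
            have := hpos p hp1
            exact_mod_cast this)
      _ = Real.exp (-(3 / 2 * (K : ℝ))) *
          (Real.exp (1 / 8) * ∑ i ∈ range N, Real.exp (-(3 / 8)) ^ i) := by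
          rw [mul_sum, mul_sum]
          apply sum_congr rfl
          intro i _
          rw [← Real.exp_nat_mul, ← Real.exp_add, ← Real.exp_add, ← Real.exp_add]
          congr 1
          ring
      _ ≤ Real.exp (-(3 / 2 * (K : ℝ))) * 4 := by
          have := geo_le N
          have := Real.exp_pos (-(3 / 2 * (K : ℝ)))
          gcongr
      _ = _ := mul_comm _ _
  calc _ ≤ ∑ j ∈ range (J + 1), 4 * Real.exp (-(3 / 2 * (K : ℝ))) := sum_le_sum h2
    _ = _ := by
        rw [sum_const, card_range, nsmul_eq_mul]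
        push_cast
        ring

end KS4_

open KS4_

theorem p_KS4 (h1 : T_KSA) (h2 : T_KSC) (h3 : T_DYA) : T_KS4 := by
  intro S Q A δ θ ε κ Y J k B hcls hS hδ hθ hθ1 hθε hε hκ hκ1 hY hprm hUB hB
  obtain ⟨c1, c2, c3⟩ := h2 S Q A δ θ κ Y J k B hcls hS hδ hθ hθ1 hY hprm hB
  have hA := h1 S Q A δ θ κ (Real.log Y) J k B hcls hδ hθ hθ1 hprm
  obtain ⟨hA3, -, -⟩ := hcls
  obtain ⟨pm1, pm2, pm3, pm4, pm5, pm6, pm7, pm8, pm9, pm10, pm11, pm12⟩ := hprm
  set L := Real.log Y with hL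
  set F := FF (Wj Q A δ L) k J with hF
  set E := ∑ U ∈ F, wt U with hE
  set K := KK k J with hK
  have hwt : ∀ U : Finset ℕ, 0 ≤ wt U := fun U => prod_nonneg fun l _ => by positivity
  have hE0 : 0 ≤ E := sum_nonneg fun U _ => hwt U
  have hf0 : ∀ p, 0 ≤ sg F (B p) p := fun p => sum_nonneg fun U _ => hwt U
  have hf1 : ∀ p, sg F (B p) p ≤ E := fun p => (hA p).2.2
  have hL0 : (0 : ℝ) < L := by linarith
  have hε' : 0 < ε := by linarith
  have hε'' : ε ≤ 1 / 2 := by linarith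
  -- `K ≤ L / 32`
  have hs2 : ∀ j, 2 ≤ sj A δ L j := by
    intro j
    have hstep : ∀ n, sj A δ L (n + 1) = A * sj A δ L n := by
      intro n; unfold sj; rw [pow_succ]; ring
    induction j with
    | zero => exact pm11
    | succ n ih => rw [hstep]; nlinarith
  have hK32 : 2 * (K : ℝ) ≤ L / 16 := by
    have e1 : (2 : ℝ) * (K : ℝ) = ∑ j ∈ range (J + 1), (k j : ℝ) * 2 := by
      rw [hK]; unfold KK; push_cast; rw [mul_sum]
      exact sum_congr rfl fun j _ => mul_comm _ _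
    rw [e1]
    calc ∑ j ∈ range (J + 1), (k j : ℝ) * 2
        ≤ ∑ j ∈ range (J + 1), (k j : ℝ) * sj A δ L (j + 1) := by
          apply sum_le_sum
          intro j _
          have := hs2 (j + 1)
          gcongr
      _ ≤ κ * L := pm2
      _ ≤ 1 / 16 * L := by gcongr
      _ = L / 16 := by ring
  have hK0 : (0 : ℝ) ≤ K := Nat.cast_nonneg K
  -- the set
  set bad : ℕ → ℕ → Prop := fun j p => Bd Q A δ θ L B j p with hbad
  set a : ℝ := 2 ^ (J + 1) * (1 / 2 + θ) ^ K * E with ha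
  have ha0 : 0 ≤ a := by positivity
  have hY4 : Real.log (16 * Y ^ 4) = Real.log 16 + 4 * L := by
    rw [Real.log_mul (by norm_num) (by positivity), Real.log_pow]; push_cast; ring
  have hlog16 : Real.log 16 ≤ 2.8 := by
    rw [show (16 : ℝ) = 2 ^ 4 by norm_num, Real.log_pow]
    have := Real.log_two_lt_d9
    push_cast
    linarith
  have hlog16' : 0 ≤ Real.log 16 := Real.log_nonneg (by norm_num)
  have hY40 : (0 : ℝ) < 16 * Y ^ 4 := by positivity
  have hKY : Real.exp (K : ℝ) ≤ 16 * Y ^ 4 := by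
    rw [← Real.le_log_iff_exp_le hY40, hY4]
    linarith
  have hlow : Real.exp (L / (Real.log L) ^ (2 + 3 * δ)) ≤ Real.exp (K : ℝ) :=
    Real.exp_le_exp.2 pm4
  have hq := pm5
  set q : ℝ := 2 ^ (J + 1) * Real.exp (-(θ * (K : ℝ))) with hqd
  have hq0 : 0 ≤ q := by positivity
  have hqL : q ≤ 1 / L ^ 10 := by
    rw [le_div_iff₀ (by positivity)]
    exact hq
  have hUB' : ∀ t : ℝ, Real.exp (K : ℝ) ≤ t → t ≤ 16 * Y ^ 4 → NS S t ≤ t ^ (1 / 2 - ε) :=
    fun t ht1 ht2 => hUB t (hlow.trans ht1) ht2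
  clear pm1 pm6 pm7 pm8 pm9 pm10 pm11 pm4 pm2 pm5 hB hlow hUB
  clear_value q a
  clear hE hF hK hL hκ1
  clear_value E
  clear_value K L
  have hKa : Real.exp ((K : ℝ) / 2) * a ≤ q * E := by
    have e1 : Real.exp ((K : ℝ) / 2) * (1 / 2 + θ) ^ K ≤ Real.exp (-(θ * (K : ℝ))) := by
      calc Real.exp ((K : ℝ) / 2) * (1 / 2 + θ) ^ K = ((1 / 2 + θ) * Real.exp (1 / 2)) ^ K := by
            rw [mul_pow, ← Real.exp_nat_mul, mul_comm]
            congr 2
            ring
        _ ≤ (Real.exp (-θ)) ^ K := by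
            have := base_le hθ hθ1
            have := Real.exp_pos (1 / 2)
            gcongr
        _ = Real.exp (-(θ * (K : ℝ))) := by
            rw [← Real.exp_nat_mul]; congr 1; ring
    calc Real.exp ((K : ℝ) / 2) * a
        = 2 ^ (J + 1) * (Real.exp ((K : ℝ) / 2) * (1 / 2 + θ) ^ K) * E := by rw [ha]; ring
      _ ≤ 2 ^ (J + 1) * Real.exp (-(θ * (K : ℝ))) * E := by gcongr
      _ = q * E := by rw [hqd]
  obtain ⟨T, hT⟩ : ∃ T : Set ℕ, ∀ p, p ∈ T ↔ ((p : ℝ) ≤ Real.exp (K : ℝ) ∨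
      ((p : ℝ) ≤ Real.exp (4 * (K : ℝ)) ∧ ∃ j ∈ range (J + 1), bad j p)) :=
    ⟨{p : ℕ | (p : ℝ) ≤ Real.exp (K : ℝ) ∨ ((p : ℝ) ≤ Real.exp (4 * (K : ℝ)) ∧
      ∃ j ∈ range (J + 1), bad j p)}, fun p => Iff.rfl⟩
  obtain ⟨G, hG⟩ : ∃ G : ℕ → Prop, ∀ p, G p ↔ ∃ j ∈ range (J + 1), bad j p :=
    ⟨fun p => ∃ j ∈ range (J + 1), bad j p, fun p => Iff.rfl⟩
  refine ⟨T, ?_⟩
  -- Part 1
  have part1 : ∑ p ∈ (Icc 1 ⌊16 * Y ^ 4⌋₊).filter (fun p : ℕ => p ∈ S ∧ p ∈ T),
      sg F (B p) p ≤ E / L ^ 10 + 4 * E / L ^ 7 := by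
    set P := (Icc 1 ⌊16 * Y ^ 4⌋₊).filter (fun p : ℕ => p ∈ S ∧ p ∈ T) with hP
    have hPm : ∀ p ∈ P, p ∈ S ∧ p ∈ T := fun p hp => (mem_filter.1 hp).2
    rw [← sum_filter_add_sum_filter_not P (fun p => ¬ G p)]
    apply add_le_add
    · refine le_trans (partA S (fun p => sg F (B p) p) _ a (Real.exp (K : ℝ)) ha0 ?_ ?_) ?_
      · intro p hp
        obtain ⟨hp1, hp2⟩ := mem_filter.1 hp
        obtain ⟨hp3, hp4⟩ := hPm p hp1
        refine ⟨hp3, ?_⟩
        rcases (hT p).1 hp4 with h | h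
        · exact h
        · exact absurd ((hG p).2 h.2) hp2
      · intro p hp
        obtain ⟨hp1, hp2⟩ := mem_filter.1 hp
        refine (hA p).1 ?_
        intro j hj hb
        exact hp2 ((hG p).2 ⟨j, hj, hb⟩)
      · have e1 := hUB' (Real.exp (K : ℝ)) (le_refl _) hKY
        have e2 : Real.exp (K : ℝ) ^ (1 / 2 - ε) ≤ Real.exp ((K : ℝ) / 2) := by
          rw [← Real.exp_mul]
          apply Real.exp_le_exp.2
          nlinarith
        calc NS S (Real.exp (K : ℝ)) * a ≤ Real.exp ((K : ℝ) / 2) * a := by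
              gcongr
              exact e1.trans e2
          _ ≤ q * E := hKa
          _ ≤ 1 / L ^ 10 * E := by gcongr
          _ = E / L ^ 10 := by ring
    · refine le_trans (union_le _ (range J) (fun p => sg F (B p) p)
        (fun j => 2 * (7 / 10) ^ (k (j + 1)) * E) bad ?_ ?_) ?_
      · intro j _
        positivity
      · intro p hp
        obtain ⟨hp1, hp2⟩ := mem_filter.1 hp
        rw [not_not, hG] at hp2
        obtain ⟨hp3, hp4⟩ := hPm p hp1
        have hp5 : (p : ℝ) ≤ Real.exp (4 * (K : ℝ)) := by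
          rcases (hT p).1 hp4 with h | h
          · refine h.trans (Real.exp_le_exp.2 ?_)
            linarith
          · exact h.1
        obtain ⟨j, hj, hb1, hb2⟩ := last_bad (fun j => bad j p) J (c1 p hp3 hp5) hp2
        refine ⟨j, hj, hb1, ?_⟩
        exact (hA p).2.1 (j + 1) (mem_range.2 (by have := mem_range.1 hj; omega)) hb2
      · calc _ ≤ ∑ j ∈ range J, 2 * E / L ^ 8 := by
              apply sum_le_sum
              intro j hj
              have e1 := c2 j hj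
              have e2 : (((P.filter (fun p => ¬ ¬ G p)).filter
                  (bad j)).card : ℝ) ≤ ((((Icc 1 ⌊Real.exp (4 * (K : ℝ))⌋₊).filter
                  fun p : ℕ => p ∈ S ∧ Bd Q A δ θ L B j p).card : ℕ) : ℝ) := by
                refine Nat.cast_le.2 (card_le_card ?_)
                intro p hp
                obtain ⟨hp0, hpb⟩ := mem_filter.1 hp
                obtain ⟨hp1, hp2⟩ := mem_filter.1 hp0
                obtain ⟨hp3, hp4⟩ := hPm p hp1
                have hp5 : (p : ℝ) ≤ Real.exp (4 * (K : ℝ)) := by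
                  rcases (hT p).1 hp4 with h | h
                  · refine h.trans (Real.exp_le_exp.2 ?_)
                    linarith
                  · exact h.1
                exact mem_filter.2 ⟨mem_Icc.2 ⟨(mem_Icc.1 (mem_filter.1 hp1).1).1,
                  Nat.le_floor hp5⟩, hp3, hpb⟩
              calc _ ≤ ((((Icc 1 ⌊Real.exp (4 * (K : ℝ))⌋₊).filter
                  fun p : ℕ => p ∈ S ∧ Bd Q A δ θ L B j p).card : ℕ) : ℝ) *
                    (2 * (7 / 10) ^ (k (j + 1)) * E) := by gcongr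
                _ = 2 * E * (((((Icc 1 ⌊Real.exp (4 * (K : ℝ))⌋₊).filter
                  fun p : ℕ => p ∈ S ∧ Bd Q A δ θ L B j p).card : ℕ) : ℝ) *
                    (7 / 10) ^ (k (j + 1))) := by ring
                _ ≤ 2 * E * (1 / L ^ 8) := by gcongr
                _ = 2 * E / L ^ 8 := by ring
          _ = J * (2 * E / L ^ 8) := by rw [sum_const, card_range, nsmul_eq_mul]
          _ ≤ (2 * L) * (2 * E / L ^ 8) := by
              have : Real.log L ≤ L := (Real.log_le_self hL0.le)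
              have : (J : ℝ) ≤ 2 * L := by linarith
              gcongr
          _ = 4 * E / L ^ 7 := by field_simp; ring
  have part2 : 2 ^ K * (∑ p ∈ (Icc 1 ⌊16 * Y ^ 4⌋₊).filter (fun p : ℕ => p ∈ S ∧ p ∉ T),
      sg F (B p) p / Real.sqrt p) ≤ 20 * E / L ^ 9 + 4 * E / L ^ 10 := by
    set P := (Icc 1 ⌊16 * Y ^ 4⌋₊).filter (fun p : ℕ => p ∈ S ∧ p ∉ T) with hP
    have hPm : ∀ p ∈ P, p ∈ S ∧ p ∉ T := fun p hp => (mem_filter.1 hp).2
    rw [← sum_filter_add_sum_filter_not P (fun p => ¬ G p), mul_add]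
    apply add_le_add
    · have e1 : ∑ p ∈ P.filter (fun p => ¬ G p),
          sg F (B p) p / Real.sqrt p ≤ a * ∑ p ∈ (Icc 1 ⌊16 * Y ^ 4⌋₊).filter
            (fun p : ℕ => p ∈ S ∧ Real.exp (K : ℝ) < (p : ℝ)), 1 / Real.sqrt p := by
        calc _ ≤ ∑ p ∈ P.filter (fun p => ¬ G p),
              a * (1 / Real.sqrt p) := by
              apply sum_le_sum
              intro p hp
              obtain ⟨hp1, hp2⟩ := mem_filter.1 hp
              rw [div_eq_mul_one_div]
              gcongr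
              refine (hA p).1 ?_
              intro j hj hb
              exact hp2 ((hG p).2 ⟨j, hj, hb⟩)
          _ ≤ ∑ p ∈ (Icc 1 ⌊16 * Y ^ 4⌋₊).filter
              (fun p : ℕ => p ∈ S ∧ Real.exp (K : ℝ) < (p : ℝ)), a * (1 / Real.sqrt p) := by
              apply sum_le_sum_of_subset_of_nonneg
              · intro p hp
                obtain ⟨hp1, hp2⟩ := mem_filter.1 hp
                obtain ⟨hp3, hp4⟩ := hPm p hp1
                refine mem_filter.2 ⟨(mem_filter.1 hp1).1, hp3, ?_⟩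
                by_contra hc
                push Not at hc
                exact hp4 ((hT p).2 (Or.inl hc))
              · intro p _ _
                positivity
          _ = _ := by rw [mul_sum]
      have e2 := h3 S ε (Real.exp (K : ℝ)) (16 * Y ^ 4) hε' hε'' (Real.one_le_exp hK0) hKY
        hUB'
      have e3 : 4 * (Real.log (16 * Y ^ 4 / Real.exp (K : ℝ)) + 1) ≤ 20 * L := by
        rw [Real.log_div hY40.ne' (Real.exp_pos _).ne', Real.log_exp, hY4]
        linarith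
      have e4 : Real.exp (K : ℝ) ^ (-ε) = Real.exp (-(ε * (K : ℝ))) := by
        rw [← Real.exp_mul]; congr 1; ring
      rw [e4] at e2
      have e5 : 2 ^ K * a * Real.exp (-(ε * (K : ℝ))) ≤ q * E := by
        have e6 : (2 : ℝ) ^ K * (1 / 2 + θ) ^ K ≤ Real.exp (2 * θ * (K : ℝ)) := by
          rw [← mul_pow]
          calc (2 * (1 / 2 + θ)) ^ K ≤ (Real.exp (2 * θ)) ^ K := by
                have := Real.add_one_le_exp (2 * θ)
                gcongr
                linarith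
            _ = Real.exp (2 * θ * (K : ℝ)) := by
                rw [← Real.exp_nat_mul]; congr 1; ring
        calc 2 ^ K * a * Real.exp (-(ε * (K : ℝ)))
            = 2 ^ (J + 1) * (((2 : ℝ) ^ K * (1 / 2 + θ) ^ K) * Real.exp (-(ε * (K : ℝ)))) * E := by
              rw [ha]; ring
          _ ≤ 2 ^ (J + 1) * (Real.exp (2 * θ * (K : ℝ)) * Real.exp (-(ε * (K : ℝ)))) * E := by
              gcongr
          _ ≤ 2 ^ (J + 1) * Real.exp (-(θ * (K : ℝ))) * E := by
              rw [← Real.exp_add]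
              gcongr
              nlinarith
          _ = q * E := by rw [hqd]
      calc 2 ^ K * ∑ p ∈ P.filter (fun p => ¬ G p),
            sg F (B p) p / Real.sqrt p
          ≤ 2 ^ K * (a * ∑ p ∈ (Icc 1 ⌊16 * Y ^ 4⌋₊).filter
            (fun p : ℕ => p ∈ S ∧ Real.exp (K : ℝ) < (p : ℝ)), 1 / Real.sqrt p) := by gcongr
        _ ≤ 2 ^ K * (a * (4 * (Real.log (16 * Y ^ 4 / Real.exp (K : ℝ)) + 1) *
            Real.exp (-(ε * (K : ℝ))))) := by gcongr
        _ ≤ 2 ^ K * (a * (20 * L * Real.exp (-(ε * (K : ℝ))))) := by gcongr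
        _ = 20 * L * (2 ^ K * a * Real.exp (-(ε * (K : ℝ)))) := by ring
        _ ≤ 20 * L * (q * E) := by gcongr
        _ ≤ 20 * L * (1 / L ^ 10 * E) := by gcongr
        _ = 20 * E / L ^ 9 := by field_simp
    · have e1 : ∑ p ∈ P.filter (fun p => ¬ ¬ G p),
          sg F (B p) p / Real.sqrt p ≤
          E * ∑ p ∈ P.filter (fun p => ¬ ¬ G p), 1 / Real.sqrt p := by
        rw [mul_sum]
        apply sum_le_sum
        intro p hp
        rw [div_eq_mul_one_div]
        have := hf1 p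
        gcongr
      have e2 := partD S bad J K L (P.filter (fun p => ¬ ¬ G p)) (by
        intro p hp
        obtain ⟨hp1, hp2⟩ := mem_filter.1 hp
        rw [not_not, hG] at hp2
        obtain ⟨hp3, hp4⟩ := hPm p hp1
        have hpm := mem_Icc.1 (mem_filter.1 hp1).1
        refine ⟨hp3, ?_, ?_, hp2⟩
        · by_contra hc
          push Not at hc
          exact hp4 ((hT p).2 (Or.inr ⟨hc, hp2⟩))
        · have hp5 : (p : ℝ) ≤ 16 * Y ^ 4 := (Nat.le_floor_iff hY40.le).1 hpm.2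
          have hp6 : (0 : ℝ) < p := by
            have : 0 < p := hpm.1
            exact_mod_cast this
          have := Real.log_le_log hp6 hp5
          rw [hY4] at this
          linarith) (by linarith) c3
      have e3 : (2 : ℝ) ^ K * (((J : ℝ) + 1) * (4 * Real.exp (-(3 / 2 * (K : ℝ))))) ≤ 4 * q := by
        have e4 : (J : ℝ) + 1 ≤ 2 ^ (J + 1) := by
          have := (Nat.lt_two_pow_self (n := J + 1)).le
          exact_mod_cast this
        have e5 : (2 : ℝ) ^ K * Real.exp (-(3 / 2 * (K : ℝ))) ≤ Real.exp (-(θ * (K : ℝ))) := by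
          have e6 : (2 : ℝ) ≤ Real.exp 1 := by
            have := Real.exp_one_gt_d9
            linarith
          calc (2 : ℝ) ^ K * Real.exp (-(3 / 2 * (K : ℝ)))
              ≤ (Real.exp 1) ^ K * Real.exp (-(3 / 2 * (K : ℝ))) := by gcongr
            _ = Real.exp (-(1 / 2 * (K : ℝ))) := by
                rw [← Real.exp_nat_mul, ← Real.exp_add]; congr 1; ring
            _ ≤ Real.exp (-(θ * (K : ℝ))) := by
                apply Real.exp_le_exp.2
                nlinarith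
        calc (2 : ℝ) ^ K * (((J : ℝ) + 1) * (4 * Real.exp (-(3 / 2 * (K : ℝ)))))
            = 4 * (((J : ℝ) + 1) * ((2 : ℝ) ^ K * Real.exp (-(3 / 2 * (K : ℝ))))) := by ring
          _ ≤ 4 * (2 ^ (J + 1) * Real.exp (-(θ * (K : ℝ)))) := by gcongr
          _ = 4 * q := by rw [hqd]
      calc 2 ^ K * ∑ p ∈ P.filter (fun p => ¬ ¬ G p),
            sg F (B p) p / Real.sqrt p
          ≤ 2 ^ K * (E * (((J : ℝ) + 1) * (4 * Real.exp (-(3 / 2 * (K : ℝ)))))) := by
            gcongr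
            exact e1.trans (by gcongr)
        _ = E * (2 ^ K * (((J : ℝ) + 1) * (4 * Real.exp (-(3 / 2 * (K : ℝ)))))) := by ring
        _ ≤ E * (4 * q) := by gcongr
        _ ≤ E * (4 * (1 / L ^ 10)) := by gcongr
        _ = 4 * E / L ^ 10 := by ring
  refine le_trans (add_le_add part1 part2) ?_
  have hLn : L ≠ 0 := hL0.ne'
  have e : E / L ^ 10 + 4 * E / L ^ 7 + (20 * E / L ^ 9 + 4 * E / L ^ 10) =
      E / L ^ 6 * (5 * (1 / L) ^ 4 + 4 * (1 / L) + 20 * (1 / L) ^ 3) := by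
    field_simp
    ring
  rw [e]
  have hi : 1 / L ≤ 1 / 100 := one_div_le_one_div_of_le (by norm_num) pm12
  have hi0 : 0 ≤ 1 / L := by positivity
  have e7 : 5 * (1 / L) ^ 4 + 4 * (1 / L) + 20 * (1 / L) ^ 3 ≤ 1 := by
    calc 5 * (1 / L) ^ 4 + 4 * (1 / L) + 20 * (1 / L) ^ 3
        ≤ 5 * (1 / 100) ^ 4 + 4 * (1 / 100) + 20 * (1 / 100) ^ 3 := by gcongr
      _ ≤ 1 := by norm_num
  calc E / L ^ 6 * (5 * (1 / L) ^ 4 + 4 * (1 / L) + 20 * (1 / L) ^ 3) ≤ E / L ^ 6 * 1 := by gcongr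
    _ = E / L ^ 6 := mul_one _

end SSX
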